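import Pool.Agent.Helper95.LVT.LowerA

/-! # The growth of the constants in the large value conjecture -/

set_option autoImplicit false

namespace Pool.Agent.Helper95.LVT

open Finset Filter Topology

/-- the lower bound, with sets of integers -/
theorem lowerZ (a σ ε : ℝ) (ha : 1 < a) (hσ : σ < 1 - 1 / a) (hε : 0 < ε) : ∃ N₀ : ℕ, ∀ N : ℕ, N₀ ≤ N →
    ∃ (b : ℕ → ℂ) (W : Finset ℤ), (∀ n, b n = 0 ∨ b n = 1) ∧
      (∀ t ∈ W, 0 ≤ (t : ℝ) ∧ (t : ℝ) ≤ Real.exp (Real.log N ^ a) ∧ (N : ℝ) ^ σ < ‖D N b t‖) ∧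
      Real.exp (Real.log N ^ a) ^ (1 - ε) ≤ (W.card : ℝ) := by
  classical
  obtain ⟨N₀, h⟩ := lower a σ ε ha hσ hε
  refine ⟨N₀, fun N hN => ?_⟩
  obtain ⟨y, W, h1, h2, h3⟩ := h N hN
  refine ⟨ind N y, W.map ⟨Int.ofNat, fun a b h => Int.ofNat.inj h⟩, ?_, ?_, ?_⟩
  · intro n
    unfold ind
    split_ifs
    · exact Or.inr rfl
    · exact Or.inl rfl
  · intro t ht
    rw [Finset.mem_map] at ht
    obtain ⟨s, hs, rfl⟩ := ht
    have e : (((⟨Int.ofNat, fun a b h => Int.ofNat.inj h⟩ : ℕ ↪ ℤ) s : ℤ) : ℝ) = (s : ℝ) := by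
      show ((Int.ofNat s : ℤ) : ℝ) = s
      simp
    rw [e]
    exact ⟨Nat.cast_nonneg _, h1 s hs, h2 s hs⟩
  · rw [card_map]
    exact h3

/-- **The constants in Q1 grow fast with `A`.** -/
theorem const_growth (σ ε κ : ℝ) (hσ0 : 1 / 2 < σ) (hσ1 : σ < 1) (hκ : κ < 1 / σ) :
    ∃ A₀ : ℝ, 1 ≤ A₀ ∧ ∀ A : ℝ, A₀ ≤ A → ∀ C : ℝ,
      (∀ (N : ℕ) (T : ℝ) (b : ℕ → ℂ) (W : Finset ℤ), 1 ≤ N → (N : ℝ) ≤ T → T ≤ (N : ℝ) ^ A →
        (∀ n, ‖b n‖ ≤ 1) → (∀ t ∈ W, 0 ≤ (t : ℝ) ∧ (t : ℝ) ≤ T ∧ (N : ℝ) ^ σ < ‖D N b t‖) →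
        (W.card : ℝ) ≤ C * (N : ℝ) ^ (2 - 2 * σ + ε)) →
      Real.exp (A ^ κ) ≤ C := by
  -- we may assume `κ ≥ 1`
  set κ1 := max κ 1 with hκ1
  have hσp : 0 < σ := by linarith
  have hκ11 : 1 ≤ κ1 := le_max_right _ _
  have hκ1σ : κ1 < 1 / σ := by
    apply max_lt hκ
    rw [lt_div_iff₀ hσp]
    linarith
  have hκ0 : 0 < κ1 := by linarith
  have hκσ : κ1 * σ < 1 := by rwa [lt_div_iff₀ hσp] at hκ1σ
  set u := ((1 - 1 / κ1) + (1 - σ)) / 2 with hu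
  have h1κ : 1 / κ1 ≤ 1 := by
    rw [div_le_one hκ0]
    exact hκ11
  have hσκ : σ < 1 / κ1 := by
    rw [lt_div_iff₀ hκ0]
    linarith
  have hu0 : 0 < u := by rw [hu]; linarith
  have hu1 : u < 1 - σ := by rw [hu]; linarith
  have hu2 : 1 - 1 / κ1 < u := by rw [hu]; linarith
  set a := 1 / u with ha
  have ha1 : 1 < a := by
    rw [ha, lt_div_iff₀ hu0]
    linarith
  have ha0 : 0 < a := by linarith
  have hua : 1 / a = u := by rw [ha, one_div_one_div]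
  obtain ⟨N₀, hN₀⟩ := lowerZ a σ (1 / 4) ha1 (by rw [hua]; linarith) (by norm_num)
  set c := 1 / (a - 1) with hc
  have hc0 : 0 < c := by
    rw [hc]
    apply one_div_pos.2
    linarith
  -- `c a > κ1`
  have hcaκ : κ1 < c * a := by
    have h1 : c * a = 1 / (1 - u) := by
      rw [hc, ha]
      have h2 : 1 - u ≠ 0 := by linarith
      have h3 : 1 / u - 1 ≠ 0 := by
        have : 1 / u - 1 = (1 - u) / u := by field_simp
        rw [this]
        exact div_ne_zero h2 hu0.ne'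
      field_simp
    rw [h1, lt_div_iff₀ (by linarith)]
    have h2 : κ1 * (1 - 1 / κ1) < κ1 * u := mul_lt_mul_of_pos_left hu2 hκ0
    have h3 : κ1 * (1 - 1 / κ1) = κ1 - 1 := by field_simp
    linarith
  have e1 : ∀ᶠ A : ℝ in atTop, 2 * Real.log (N₀ + 2) + 2 ≤ A ^ c :=
    (tendsto_rpow_atTop hc0).eventually_ge_atTop _
  have e2 : ∀ᶠ z : ℝ in atTop, (2 - 2 * σ + ε) * z ^ (1 : ℝ) ≤ (1 / 4) * z ^ a :=
    ev_rpow _ _ _ _ (by norm_num) ha1
  have e2' : ∀ᶠ A : ℝ in atTop, ∀ z : ℝ, A ^ c / 2 ≤ z →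
      (2 - 2 * σ + ε) * z ^ (1 : ℝ) ≤ (1 / 4) * z ^ a := by
    obtain ⟨z0, hz0⟩ := eventually_atTop.1 e2
    filter_upwards [(tendsto_rpow_atTop hc0).eventually_ge_atTop (2 * z0)] with A hA z hz
    apply hz0
    linarith
  have e3 : ∀ᶠ A : ℝ in atTop, (2 * (2 : ℝ) ^ a) * A ^ κ1 ≤ 1 * A ^ (c * a) :=
    ev_rpow _ _ _ _ (by norm_num) hcaκ
  obtain ⟨A₀, hA₀⟩ := eventually_atTop.1 (e1.and (e2'.and e3))
  refine ⟨max A₀ 1, le_max_right _ _, ?_⟩
  intro A hA C hB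
  have hA1 : 1 ≤ A := (le_max_right _ _).trans hA
  have hAp : 0 < A := by linarith
  obtain ⟨g1, g2, g3⟩ := hA₀ A ((le_max_left _ _).trans hA)
  -- the choice of `N`
  set N := ⌊Real.exp (A ^ c)⌋₊ with hN
  have hl0 : 0 ≤ Real.log ((N₀ : ℝ) + 2) := Real.log_nonneg (by
    have : (0 : ℝ) ≤ N₀ := Nat.cast_nonneg _
    linarith)
  have hNle : (N : ℝ) ≤ Real.exp (A ^ c) := Nat.floor_le (Real.exp_pos _).le
  have hNgt : Real.exp (A ^ c) < N + 1 := Nat.lt_floor_add_one _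
  have hNN0 : (N₀ : ℝ) + 1 ≤ N := by
    have h2 : (N₀ : ℝ) + 2 ≤ Real.exp (A ^ c) := by
      rw [← Real.log_le_iff_le_exp (by positivity)]
      linarith
    linarith
  have hNN0' : N₀ ≤ N := by
    have : (N₀ : ℝ) ≤ N := by linarith
    exact_mod_cast this
  have hN1 : (1 : ℝ) ≤ N := by
    have : (0 : ℝ) ≤ N₀ := Nat.cast_nonneg _
    linarith
  have hN1' : 1 ≤ N := by exact_mod_cast hN1
  have hNp : (0 : ℝ) < N := by linarith
  set x := Real.log N with hx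
  have hxle : x ≤ A ^ c := by
    rw [hx, Real.log_le_iff_le_exp hNp]
    exact hNle
  have hxge : A ^ c / 2 ≤ x := by
    have h2 : Real.exp (A ^ c) / 2 ≤ N := by linarith
    have h3 : Real.log (Real.exp (A ^ c) / 2) ≤ x := Real.log_le_log (by positivity) h2
    rw [Real.log_div (Real.exp_pos _).ne' (by norm_num), Real.log_exp] at h3
    have := Real.log_two_lt_d9
    linarith
  have hx1 : 1 ≤ x := by linarith
  have hx0 : 0 < x := by linarith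
  have hAc0 : 0 < A ^ c := by positivity
  obtain ⟨b, W, hb, hW, hWc⟩ := hN₀ N hNN0'
  have hT1 : (N : ℝ) ≤ Real.exp (x ^ a) := by
    rw [← Real.exp_log hNp, ← hx]
    apply Real.exp_le_exp.2
    calc x = x ^ (1 : ℝ) := (Real.rpow_one _).symm
      _ ≤ x ^ a := Real.rpow_le_rpow_of_exponent_le hx1 ha1.le
  have hT2 : Real.exp (x ^ a) ≤ (N : ℝ) ^ A := by
    rw [Real.rpow_def_of_pos hNp, ← hx]
    apply Real.exp_le_exp.2
    have h2 : x ^ (a - 1) ≤ A := by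
      calc x ^ (a - 1) ≤ (A ^ c) ^ (a - 1) := by
            apply Real.rpow_le_rpow hx0.le hxle
            linarith
        _ = A := by
            rw [← Real.rpow_mul hAp.le, hc, one_div_mul_cancel (by linarith), Real.rpow_one]
    calc x ^ a = x * x ^ (a - 1) := by
          rw [← Real.rpow_one_add' hx0.le (by linarith)]
          congr 1
          ring
      _ ≤ x * A := by gcongr
  have hfin := hB N (Real.exp (x ^ a)) b W hN1' hT1 hT2 (by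
    intro n
    rcases hb n with h | h <;> rw [h] <;> simp) hW
  have h4 : Real.exp (x ^ a) ^ (1 - 1 / 4 : ℝ) ≤ C * (N : ℝ) ^ (2 - 2 * σ + ε) := hWc.trans hfin
  have h5 : (N : ℝ) ^ (2 - 2 * σ + ε) = Real.exp ((2 - 2 * σ + ε) * x) := by
    rw [Real.rpow_def_of_pos hNp, ← hx, mul_comm]
  rw [h5, ← Real.exp_mul] at h4
  have h6 : Real.exp (x ^ a * (1 - 1 / 4) - (2 - 2 * σ + ε) * x) ≤ C := by
    rw [Real.exp_sub, div_le_iff₀ (Real.exp_pos _)]
    exact h4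
  refine le_trans (Real.exp_le_exp.2 ?_) h6
  have h7 := g2 x hxge
  rw [Real.rpow_one] at h7
  have h8 : A ^ κ ≤ A ^ κ1 := Real.rpow_le_rpow_of_exponent_le hA1 (le_max_left _ _)
  have h9 : A ^ (c * a) / 2 ^ a ≤ x ^ a := by
    calc A ^ (c * a) / 2 ^ a = (A ^ c / 2) ^ a := by
          rw [Real.div_rpow hAc0.le (by norm_num), Real.rpow_mul hAp.le]
      _ ≤ x ^ a := by gcongr
  have h10 : 2 * A ^ κ1 ≤ x ^ a := by
    refine le_trans ?_ h9
    rw [le_div_iff₀ (by positivity)]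
    linarith
  linarith

end Pool.Agent.Helper95.LVT
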