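import Mathlib

/-! # Random signs -/

set_option autoImplicit false

namespace Pool.Agent.Helper95.LVT

open Finset

/-- the signs given by a set -/
noncomputable def sg (S : Finset ℕ) (m : ℕ) : ℂ := if m ∈ S then 1 else -1

theorem sg_norm (S : Finset ℕ) (m : ℕ) : ‖sg S m‖ = 1 := by
  unfold sg
  split_ifs <;> simp

theorem split (a : ℕ) (M S : Finset ℕ) (ha : a ∉ M) (hS : S ⊆ M) (c : ℕ → ℂ) :
    (∑ m ∈ insert a M, sg S m * c m = (∑ m ∈ M, sg S m * c m) - c a) ∧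
    (∑ m ∈ insert a M, sg (insert a S) m * c m = (∑ m ∈ M, sg S m * c m) + c a) := by
  have haS : a ∉ S := fun h => ha (hS h)
  rw [sum_insert ha, sum_insert ha]
  constructor
  · have : sg S a = -1 := by
      unfold sg
      rw [if_neg haS]
    rw [this]
    ring
  · have h1 : sg (insert a S) a = 1 := by
      unfold sg
      rw [if_pos (mem_insert_self _ _)]
    have h2 : ∑ m ∈ M, sg (insert a S) m * c m = ∑ m ∈ M, sg S m * c m := by
      apply sum_congr rfl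
      intro m hm
      have hma : m ≠ a := fun h => ha (h ▸ hm)
      congr 1
      unfold sg
      simp [hma]
    rw [h1, h2]
    ring

theorem avg2 (M : Finset ℕ) (c : ℕ → ℂ) :
    ∑ S ∈ M.powerset, ‖∑ m ∈ M, sg S m * c m‖ ^ 2 = 2 ^ M.card * ∑ m ∈ M, ‖c m‖ ^ 2 := by
  classical
  induction M using Finset.induction_on with
  | empty => simp
  | insert a M ha ih =>
    rw [sum_powerset_insert ha, ← sum_add_distrib]
    have h1 : ∀ S ∈ M.powerset, ‖∑ m ∈ insert a M, sg S m * c m‖ ^ 2 +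
        ‖∑ m ∈ insert a M, sg (insert a S) m * c m‖ ^ 2 =
        2 * ‖∑ m ∈ M, sg S m * c m‖ ^ 2 + 2 * ‖c a‖ ^ 2 := by
      intro S hS
      obtain ⟨e1, e2⟩ := split a M S ha (mem_powerset.1 hS) c
      rw [e1, e2]
      have := parallelogram_law_with_norm ℝ (∑ m ∈ M, sg S m * c m) (c a)
      nlinarith
    rw [sum_congr rfl h1, sum_add_distrib, ← mul_sum, ih, sum_const, card_powerset, nsmul_eq_mul,
      card_insert_of_notMem ha, sum_insert ha]
    push_cast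
    ring

theorem pow4 (X c : ℂ) : ‖X - c‖ ^ 4 + ‖X + c‖ ^ 4 ≤
    2 * (‖X‖ ^ 4 + 6 * (‖X‖ ^ 2 * ‖c‖ ^ 2) + ‖c‖ ^ 4) := by
  have h1 : ‖X - c‖ ^ 2 = ‖X‖ ^ 2 - 2 * inner ℝ X c + ‖c‖ ^ 2 := norm_sub_sq_real X c
  have h2 : ‖X + c‖ ^ 2 = ‖X‖ ^ 2 + 2 * inner ℝ X c + ‖c‖ ^ 2 := norm_add_sq_real X c
  have h3 : (inner ℝ X c) ^ 2 ≤ ‖X‖ ^ 2 * ‖c‖ ^ 2 := by
    have := abs_real_inner_le_norm X c
    rw [← mul_pow, ← sq_abs]
    gcongr
  have e1 : ‖X - c‖ ^ 4 = (‖X - c‖ ^ 2) ^ 2 := by ring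
  have e2 : ‖X + c‖ ^ 4 = (‖X + c‖ ^ 2) ^ 2 := by ring
  rw [e1, e2, h1, h2]
  nlinarith

theorem avg4 (M : Finset ℕ) (c : ℕ → ℂ) :
    ∑ S ∈ M.powerset, ‖∑ m ∈ M, sg S m * c m‖ ^ 4 ≤ 3 * 2 ^ M.card * (∑ m ∈ M, ‖c m‖ ^ 2) ^ 2 := by
  classical
  induction M using Finset.induction_on with
  | empty => simp
  | insert a M ha ih =>
    rw [sum_powerset_insert ha, ← sum_add_distrib]
    have h1 : ∀ S ∈ M.powerset, ‖∑ m ∈ insert a M, sg S m * c m‖ ^ 4 +
        ‖∑ m ∈ insert a M, sg (insert a S) m * c m‖ ^ 4 ≤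
        2 * (‖∑ m ∈ M, sg S m * c m‖ ^ 4 + 6 * (‖∑ m ∈ M, sg S m * c m‖ ^ 2 * ‖c a‖ ^ 2) +
          ‖c a‖ ^ 4) := by
      intro S hS
      obtain ⟨e1, e2⟩ := split a M S ha (mem_powerset.1 hS) c
      rw [e1, e2]
      exact pow4 _ _
    refine (sum_le_sum h1).trans ?_
    have h2 := avg2 M c
    rw [← mul_sum, sum_add_distrib, sum_add_distrib, ← mul_sum, ← sum_mul, h2, sum_const,
      card_powerset, nsmul_eq_mul, card_insert_of_notMem ha, sum_insert ha]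
    push_cast
    have h3 : (0 : ℝ) ≤ 2 ^ M.card := by positivity
    have h4 : 0 ≤ ∑ m ∈ M, ‖c m‖ ^ 2 := sum_nonneg fun _ _ => by positivity
    have h5 : 0 ≤ ‖c a‖ ^ 2 := by positivity
    have h6 : 0 ≤ (2 : ℝ) ^ M.card * (‖c a‖ ^ 2) ^ 2 := by positivity
    set P := ∑ m ∈ M, ‖c m‖ ^ 2
    have e : (3 * 2 ^ (M.card + 1) * (‖c a‖ ^ 2 + P) ^ 2 : ℝ) =
        2 * (3 * 2 ^ M.card * P ^ 2 + 6 * (2 ^ M.card * P * ‖c a‖ ^ 2) + 2 ^ M.card * ‖c a‖ ^ 4) +
          4 * (2 ^ M.card * (‖c a‖ ^ 2) ^ 2) := by ring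
    rw [e]
    linarith

/-- **Choice of signs**: for many `t` the sum is large. -/
theorem choose_signs {ι : Type*} (W : Finset ι) (M : Finset ℕ) (c : ι → ℕ → ℂ)
    (hc : ∀ t ∈ W, ∀ m ∈ M, ‖c t m‖ = 1) :
    ∃ S : Finset ℕ, (W.card : ℝ) / 6 ≤
      ((W.filter fun t => (M.card : ℝ) / 4 ≤ ‖∑ m ∈ M, sg S m * c t m‖ ^ 2).card : ℝ) := by
  classical
  set n : ℝ := (M.card : ℝ) with hn
  rcases M.eq_empty_or_nonempty with h0 | hne
  · refine ⟨∅, ?_⟩
    subst h0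
    simp only [card_empty, Nat.cast_zero] at hn
    have : W.filter (fun t => n / 4 ≤ ‖∑ m ∈ (∅ : Finset ℕ), sg ∅ m * c t m‖ ^ 2) = W := by
      apply filter_true_of_mem
      intro t _
      rw [hn]
      simp
    rw [this]
    have : (0 : ℝ) ≤ W.card := Nat.cast_nonneg _
    linarith
  have hn0 : 0 < n := by
    rw [hn]
    exact_mod_cast hne.card_pos
  by_contra hcon
  push Not at hcon
  -- the functional
  have h1 : ∀ S : Finset ℕ, ∑ t ∈ W, (‖∑ m ∈ M, sg S m * c t m‖ ^ 2 -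
      ‖∑ m ∈ M, sg S m * c t m‖ ^ 4 / (6 * n)) ≤
      (W.card : ℝ) * (n / 4) + 3 / 2 * n *
        ((W.filter fun t => n / 4 ≤ ‖∑ m ∈ M, sg S m * c t m‖ ^ 2).card : ℝ) := by
    intro S
    rw [← sum_filter_add_sum_filter_not W
      (fun t => n / 4 ≤ ‖∑ m ∈ M, sg S m * c t m‖ ^ 2), add_comm]
    apply add_le_add
    · calc _ ≤ ∑ t ∈ W.filter (fun t => ¬ n / 4 ≤ ‖∑ m ∈ M, sg S m * c t m‖ ^ 2), n / 4 := by
            apply sum_le_sum
            intro t ht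
            rw [mem_filter, not_le] at ht
            have : 0 ≤ ‖∑ m ∈ M, sg S m * c t m‖ ^ 4 / (6 * n) := by positivity
            linarith
        _ ≤ ∑ t ∈ W, n / 4 := by
            apply sum_le_sum_of_subset_of_nonneg (filter_subset _ _)
            intro _ _ _
            positivity
        _ = _ := by rw [sum_const, nsmul_eq_mul]
    · calc _ ≤ ∑ t ∈ W.filter (fun t => n / 4 ≤ ‖∑ m ∈ M, sg S m * c t m‖ ^ 2), 3 / 2 * n := by
            apply sum_le_sum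
            intro t _
            set z := ‖∑ m ∈ M, sg S m * c t m‖ with hz
            have e : z ^ 2 - z ^ 4 / (6 * n) = 3 / 2 * n - (z ^ 2 - 3 * n) ^ 2 / (6 * n) := by
              field_simp
              ring
            rw [e]
            have : 0 ≤ (z ^ 2 - 3 * n) ^ 2 / (6 * n) := by positivity
            linarith
        _ = _ := by rw [sum_const, nsmul_eq_mul]; ring
  -- the average
  have h2 : (2 : ℝ) ^ M.card * (W.card * (n / 2)) ≤ ∑ S ∈ M.powerset, ∑ t ∈ W,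
      (‖∑ m ∈ M, sg S m * c t m‖ ^ 2 - ‖∑ m ∈ M, sg S m * c t m‖ ^ 4 / (6 * n)) := by
    rw [sum_comm]
    have h3 : ∀ t ∈ W, (2 : ℝ) ^ M.card * (n / 2) ≤ ∑ S ∈ M.powerset,
        (‖∑ m ∈ M, sg S m * c t m‖ ^ 2 - ‖∑ m ∈ M, sg S m * c t m‖ ^ 4 / (6 * n)) := by
      intro t ht
      have hs : ∑ m ∈ M, ‖c t m‖ ^ 2 = n := by
        rw [hn, sum_congr rfl (fun m hm => by rw [hc t ht m hm])]
        simp
      rw [sum_sub_distrib, avg2, ← sum_div, hs]
      have h4 := avg4 M (c t)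
      rw [hs] at h4
      have h5 : (∑ S ∈ M.powerset, ‖∑ m ∈ M, sg S m * c t m‖ ^ 4) / (6 * n) ≤
          (2 : ℝ) ^ M.card * (n / 2) := by
        rw [div_le_iff₀ (by positivity)]
        refine h4.trans (le_of_eq ?_)
        ring
      linarith
    calc _ = ∑ t ∈ W, (2 : ℝ) ^ M.card * (n / 2) := by
          rw [sum_const, nsmul_eq_mul]
          ring
      _ ≤ _ := sum_le_sum h3
  have h3 : ∑ S ∈ M.powerset, ∑ t ∈ W,
      (‖∑ m ∈ M, sg S m * c t m‖ ^ 2 - ‖∑ m ∈ M, sg S m * c t m‖ ^ 4 / (6 * n)) <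
      (2 : ℝ) ^ M.card * (W.card * (n / 2)) := by
    have h4 : ∀ S ∈ M.powerset, ∑ t ∈ W, (‖∑ m ∈ M, sg S m * c t m‖ ^ 2 -
      ‖∑ m ∈ M, sg S m * c t m‖ ^ 4 / (6 * n)) < W.card * (n / 2) := by
      intro S _
      have h5 := hcon S
      have h6 := h1 S
      nlinarith
    calc _ < ∑ S ∈ M.powerset, (W.card : ℝ) * (n / 2) :=
          sum_lt_sum_of_nonempty ⟨∅, empty_mem_powerset _⟩ h4
      _ = _ := by
          rw [sum_const, card_powerset, nsmul_eq_mul]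
          push_cast
          ring
  linarith

end Pool.Agent.Helper95.LVT
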