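import Pool.Agent.Helper95.LVT.Lower
import Pool.Agent.Helper95.LVT.Signs

/-! # Large values near the critical level: products of an aligned sum and a random sum -/

set_option autoImplicit false

namespace Pool.Agent.Helper95.LVT

open Finset Filter Topology

/-- unique factorisation -/
theorem inj_prod (P : Finset ℕ) (hP : ∀ p ∈ P, p.Prime) (F G : Finset ℕ) (hF : F ⊆ P) (hG : G ⊆ P)
    (m k : ℕ) (hm : ∀ p ∈ P, ¬ p ∣ m) (hk : ∀ p ∈ P, ¬ p ∣ k) (h : (∏ p ∈ F, p) * m = (∏ p ∈ G, p) * k) :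
    F = G ∧ m = k := by
  have key : ∀ F G : Finset ℕ, F ⊆ P → G ⊆ P → ∀ m k : ℕ, (∀ p ∈ P, ¬ p ∣ m) → (∀ p ∈ P, ¬ p ∣ k) →
      (∏ p ∈ F, p) * m = (∏ p ∈ G, p) * k → F ⊆ G := by
    intro F G hF hG m k hm hk h p hp
    have h1 : p ∣ (∏ p ∈ G, p) * k := by
      rw [← h]
      exact (dvd_prod_of_mem _ hp).mul_right _
    have hpp := hP p (hF hp)
    rcases hpp.dvd_mul.1 h1 with h2 | h2
    · rw [Prime.dvd_finsetProd_iff hpp.prime] at h2
      obtain ⟨q, hq, hpq⟩ := h2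
      rwa [(Nat.prime_dvd_prime_iff_eq hpp (hP q (hG hq))).1 hpq]
    · exact absurd h2 (hk p (hF hp))
  have h1 : F = G := subset_antisymm (key F G hF hG m k hm hk h) (key G F hG hF k m hk hm h.symm)
  refine ⟨h1, ?_⟩
  subst h1
  have h2 : 0 < ∏ p ∈ F, p := prod_pos fun p hp => (hP p (hF hp)).pos
  exact Nat.eq_of_mul_eq_mul_left h2 h

theorem prod_close (t δ : ℝ) (F : Finset ℕ) (h0 : ∀ p ∈ F, p ≠ 0)
    (h : ∀ p ∈ F, ‖ei (t * Real.log (p : ℝ)) - 1‖ ≤ δ) :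
    ‖ei (t * Real.log ((∏ p ∈ F, p : ℕ) : ℝ)) - 1‖ ≤ F.card * δ := by
  have h1 := list_close t δ F.toList (fun p hp => h0 p (by simpa using hp))
    (fun p hp => h p (by simpa using hp))
  have h2 : F.toList.prod = ∏ p ∈ F, p := Finset.prod_toList F
  rw [h2, length_toList] at h1
  exact h1

/-- **products** -/
theorem product_large (N u : ℕ) (P : Finset ℕ) (hP : ∀ p ∈ P, p.Prime) (𝒮 : Finset (Finset ℕ))
    (h𝒮 : ∀ F ∈ 𝒮, F ⊆ P ∧ F.card = u) (ℳ : Finset ℕ) (hℳ : ∀ m ∈ ℳ, m ≠ 0 ∧ ∀ p ∈ P, ¬ p ∣ m)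
    (hN : ∀ F ∈ 𝒮, ∀ m ∈ ℳ, N ≤ (∏ p ∈ F, p) * m ∧ (∏ p ∈ F, p) * m ≤ 2 * N)
    (δ : ℝ) (hδ : u * δ ≤ 1 / 2) (W : Finset ℕ)
    (hW : ∀ t ∈ W, ∀ p ∈ P, ‖ei (t * Real.log (p : ℝ)) - 1‖ ≤ δ) :
    ∃ b : ℕ → ℂ, (∀ n, b n = 0 ∨ b n = 1 ∨ b n = -1) ∧ ∃ W' ⊆ W, (W.card : ℝ) / 6 ≤ W'.card ∧
      ∀ t ∈ W', (𝒮.card : ℝ) ^ 2 * ℳ.card / 16 ≤ ‖D N b t‖ ^ 2 := by
  classical
  obtain ⟨S, hS⟩ := choose_signs W ℳ (fun t m => ei (t * Real.log (m : ℝ)))
    (fun t _ m _ => ei_norm _)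
  set b : ℕ → ℂ := fun n => ∑ x ∈ (𝒮 ×ˢ ℳ).filter (fun x => (∏ p ∈ x.1, p) * x.2 = n), sg S x.2 with hb
  refine ⟨b, ?_, _, filter_subset _ _, hS, ?_⟩
  · intro n
    simp only [hb]
    have h1 : ((𝒮 ×ˢ ℳ).filter (fun x => (∏ p ∈ x.1, p) * x.2 = n)).card ≤ 1 := by
      rw [card_le_one]
      rintro ⟨F, m⟩ hx ⟨G, k⟩ hy
      rw [mem_filter, mem_product] at hx hy
      simp only at hx hy
      obtain ⟨e1, e2⟩ := inj_prod P hP F G (h𝒮 F hx.1.1).1 (h𝒮 G hy.1.1).1 m k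
        (hℳ m hx.1.2).2 (hℳ k hy.1.2).2 (hx.2.trans hy.2.symm)
      rw [e1, e2]
    rcases Nat.le_one_iff_eq_zero_or_eq_one.1 h1 with h | h
    · left
      rw [card_eq_zero.1 h, sum_empty]
    · right
      obtain ⟨x, hx⟩ := card_eq_one.1 h
      rw [hx, sum_singleton]
      unfold sg
      split_ifs
      · exact Or.inl rfl
      · exact Or.inr rfl
  · intro t ht
    rw [mem_filter] at ht
    obtain ⟨htW, ht⟩ := ht
    have h1 : D N b t = (∑ F ∈ 𝒮, ei (t * Real.log ((∏ p ∈ F, p : ℕ) : ℝ))) *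
        ∑ m ∈ ℳ, sg S m * ei (t * Real.log (m : ℝ)) := by
      have h2 : D N b t = ∑ n ∈ Icc N (2 * N), ∑ x ∈ (𝒮 ×ˢ ℳ).filter
          (fun x => (∏ p ∈ x.1, p) * x.2 = n), sg S x.2 * ei (t * Real.log (((∏ p ∈ x.1, p) * x.2 : ℕ) : ℝ)) := by
        unfold D
        apply sum_congr rfl
        intro n _
        simp only [hb]
        rw [sum_mul]
        apply sum_congr rfl
        intro x hx
        rw [mem_filter] at hx
        rw [hx.2]
        rfl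
      rw [h2, sum_fiberwise_of_maps_to (t := Icc N (2 * N))
        (g := fun x : Finset ℕ × ℕ => (∏ p ∈ x.1, p) * x.2) (by
          intro x hx
          rw [mem_product] at hx
          rw [mem_Icc]
          exact hN x.1 hx.1 x.2 hx.2), sum_product, sum_mul_sum]
      apply sum_congr rfl
      intro F hF
      apply sum_congr rfl
      intro m hm
      simp only
      have hF0 : ((∏ p ∈ F, p : ℕ) : ℝ) ≠ 0 := by
        have : (∏ p ∈ F, p) ≠ 0 := prod_ne_zero_iff.2 fun p hp => (hP p ((h𝒮 F hF).1 hp)).ne_zero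
        exact_mod_cast this
      have hm0 : (m : ℝ) ≠ 0 := by exact_mod_cast (hℳ m hm).1
      rw [Nat.cast_mul, Real.log_mul hF0 hm0, mul_add, ei_add]
      ring
    have h2 : (𝒮.card : ℝ) / 2 ≤ ‖∑ F ∈ 𝒮, ei (t * Real.log ((∏ p ∈ F, p : ℕ) : ℝ))‖ := by
      have h3 : ‖∑ F ∈ 𝒮, (ei (t * Real.log ((∏ p ∈ F, p : ℕ) : ℝ)) - 1)‖ ≤ 𝒮.card * (1 / 2) := by
        rw [← nsmul_eq_mul]
        apply norm_sum_le_of_le _ _ |>.trans (le_of_eq (sum_const (1 / 2 : ℝ)))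
        intro F hF
        refine (prod_close t δ F (fun p hp => (hP p ((h𝒮 F hF).1 hp)).ne_zero)
          (fun p hp => hW t htW p ((h𝒮 F hF).1 hp))).trans ?_
        rw [(h𝒮 F hF).2]
        exact hδ
      rw [sum_sub_distrib, sum_const, nsmul_eq_mul, mul_one] at h3
      have h4 : ‖((𝒮.card : ℕ) : ℂ)‖ ≤ ‖∑ F ∈ 𝒮, ei (t * Real.log ((∏ p ∈ F, p : ℕ) : ℝ))‖ +
          ‖(∑ F ∈ 𝒮, ei (t * Real.log ((∏ p ∈ F, p : ℕ) : ℝ))) - ((𝒮.card : ℕ) : ℂ)‖ := by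
        have := norm_sub_le (∑ F ∈ 𝒮, ei (t * Real.log ((∏ p ∈ F, p : ℕ) : ℝ)))
          ((∑ F ∈ 𝒮, ei (t * Real.log ((∏ p ∈ F, p : ℕ) : ℝ))) - ((𝒮.card : ℕ) : ℂ))
        rwa [sub_sub_cancel] at this
      rw [Complex.norm_natCast] at h4
      linarith
    rw [h1, norm_mul, mul_pow]
    have h3 : ((𝒮.card : ℝ) / 2) ^ 2 ≤ ‖∑ F ∈ 𝒮, ei (t * Real.log ((∏ p ∈ F, p : ℕ) : ℝ))‖ ^ 2 := by
      gcongr
    have h4 : (0 : ℝ) ≤ (ℳ.card : ℝ) / 4 := by positivity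
    calc (𝒮.card : ℝ) ^ 2 * ℳ.card / 16 = ((𝒮.card : ℝ) / 2) ^ 2 * ((ℳ.card : ℝ) / 4) := by ring
      _ ≤ _ := mul_le_mul h3 ht h4 (by positivity)

/-- products of distinct primes in a window of ratio `√2` -/
theorem window (P : Finset ℕ) (y u : ℕ) (hP : ∀ p ∈ P, 1 ≤ p ∧ p ≤ y) (hy : 2 ≤ y)
    (hne : u ≤ P.card) :
    ∃ 𝒮 : Finset (Finset ℕ), 𝒮.Nonempty ∧ (∀ F ∈ 𝒮, F ⊆ P ∧ F.card = u) ∧
      (P.card.choose u : ℝ) / (2 * (u * Real.logb 2 y) + 2) ≤ 𝒮.card ∧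
      ∃ s₀ : ℕ, 1 ≤ s₀ ∧ s₀ ≤ y ^ u ∧ ∀ F ∈ 𝒮, s₀ ≤ ∏ p ∈ F, p ∧
        ((∏ p ∈ F, p : ℕ) : ℝ) ≤ Real.sqrt 2 * s₀ := by
  classical
  set f : Finset ℕ → ℕ := fun F => ⌊2 * Real.logb 2 ((∏ p ∈ F, p : ℕ) : ℝ)⌋₊ with hf
  have hy1 : (1 : ℝ) < y := by
    have : 1 < y := by omega
    exact_mod_cast this
  have hlog : 0 < Real.logb 2 y := Real.logb_pos (by norm_num) hy1
  have hpos : ∀ F : Finset ℕ, F ⊆ P → 1 ≤ ∏ p ∈ F, p := fun F hF =>
    Nat.one_le_iff_ne_zero.2 (prod_ne_zero_iff.2 fun p hp => by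
      have := (hP p (hF hp)).1
      omega)
  have hle : ∀ F : Finset ℕ, F ⊆ P → F.card = u → ∏ p ∈ F, p ≤ y ^ u := by
    intro F hF hFu
    rw [← hFu]
    exact prod_le_pow_card _ _ _ fun p hp => (hP p (hF hp)).2
  have hmaps : ∀ F ∈ P.powersetCard u, f F ∈ range (⌊2 * (u * Real.logb 2 y)⌋₊ + 1) := by
    intro F hF
    rw [mem_powersetCard] at hF
    rw [mem_range, Nat.lt_succ_iff]
    simp only [hf]
    apply Nat.floor_le_floor
    have h1 : ((∏ p ∈ F, p : ℕ) : ℝ) ≤ (y : ℝ) ^ u := by exact_mod_cast hle F hF.1 hF.2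
    have h2 : (1 : ℝ) ≤ ((∏ p ∈ F, p : ℕ) : ℝ) := by exact_mod_cast hpos F hF.1
    have h3 : Real.logb 2 ((∏ p ∈ F, p : ℕ) : ℝ) ≤ Real.logb 2 ((y : ℝ) ^ u) :=
      Real.logb_le_logb_of_le (by norm_num) (by linarith) h1
    rw [Real.logb_pow] at h3
    linarith
  set R := range (⌊2 * (u * Real.logb 2 y)⌋₊ + 1) with hR
  have hRne : R.Nonempty := ⟨0, by rw [hR, mem_range]; omega⟩
  have hRc : (0 : ℝ) < R.card := by exact_mod_cast hRne.card_pos
  obtain ⟨j, _, hj⟩ := exists_le_card_fiber_of_nsmul_le_card_of_maps_to hmaps hRne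
    (b := ((P.powersetCard u).card : ℝ) / R.card) (by
      rw [nsmul_eq_mul, mul_div_cancel₀ _ hRc.ne'])
  set 𝒮 := (P.powersetCard u).filter (fun F => f F = j) with h𝒮
  have hcard : (P.card.choose u : ℝ) / (2 * (u * Real.logb 2 y) + 2) ≤ 𝒮.card := by
    refine le_trans ?_ hj
    rw [card_powersetCard]
    apply div_le_div_of_nonneg_left (by positivity) hRc
    rw [hR, card_range]
    push_cast
    have := Nat.floor_le (show 0 ≤ 2 * (u * Real.logb 2 y) by positivity)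
    linarith
  have hne' : 𝒮.Nonempty := by
    rw [nonempty_iff_ne_empty]
    intro h
    rw [h, card_empty, Nat.cast_zero] at hcard
    have h1 : 0 < (P.card.choose u : ℝ) := by exact_mod_cast Nat.choose_pos hne
    have h2 : 0 < (P.card.choose u : ℝ) / (2 * (u * Real.logb 2 y) + 2) := by positivity
    linarith
  obtain ⟨F₀, hF₀, hmin⟩ := exists_min_image 𝒮 (fun F => ∏ p ∈ F, p) hne'
  have hmem : ∀ F ∈ 𝒮, F ⊆ P ∧ F.card = u := by
    intro F hF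
    rw [h𝒮, mem_filter, mem_powersetCard] at hF
    exact hF.1
  refine ⟨𝒮, hne', hmem, hcard, ∏ p ∈ F₀, p, hpos F₀ (hmem F₀ hF₀).1,
    hle F₀ (hmem F₀ hF₀).1 (hmem F₀ hF₀).2, ?_⟩
  intro F hF
  refine ⟨hmin F hF, ?_⟩
  have e1 : f F = j := (mem_filter.1 hF).2
  have e2 : f F₀ = j := (mem_filter.1 hF₀).2
  have h1 : (1 : ℝ) ≤ ((∏ p ∈ F, p : ℕ) : ℝ) := by exact_mod_cast hpos F (hmem F hF).1
  have h2 : (1 : ℝ) ≤ ((∏ p ∈ F₀, p : ℕ) : ℝ) := by exact_mod_cast hpos F₀ (hmem F₀ hF₀).1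
  have h3 : 2 * Real.logb 2 ((∏ p ∈ F, p : ℕ) : ℝ) < j + 1 := by
    rw [← e1]
    exact Nat.lt_floor_add_one _
  have h4 : (j : ℝ) ≤ 2 * Real.logb 2 ((∏ p ∈ F₀, p : ℕ) : ℝ) := by
    rw [← e2]
    apply Nat.floor_le
    have := Real.logb_nonneg (b := 2) (by norm_num) h2
    linarith
  have h5 : Real.logb 2 ((∏ p ∈ F, p : ℕ) : ℝ) ≤
      Real.logb 2 (Real.sqrt 2 * ((∏ p ∈ F₀, p : ℕ) : ℝ)) := by
    have hs : Real.logb 2 (Real.sqrt 2) = 1 / 2 := by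
      rw [Real.sqrt_eq_rpow, Real.logb_rpow (by norm_num) (by norm_num)]
    rw [Real.logb_mul (by positivity) (by positivity), hs]
    linarith
  rwa [Real.logb_le_logb (by norm_num) (by linarith) (by positivity)] at h5

/-- multiples in an interval -/
theorem mult_card (p A B : ℕ) (hp : 0 < p) :
    (((Ioc A B).filter (fun m => p ∣ m)).card : ℝ) ≤ ((Ioc A B).card : ℝ) / p + 1 := by
  rcases le_or_gt B A with h | h
  · rw [Ioc_eq_empty (by omega)]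
    simp
  have h1 : ((Ioc 0 B).filter (fun m => p ∣ m)).card = B / p := Nat.Ioc_filter_dvd_card_eq_div B p
  have h2 : ((Ioc 0 A).filter (fun m => p ∣ m)).card = A / p := Nat.Ioc_filter_dvd_card_eq_div A p
  have h3 : ((Ioc 0 B).filter (fun m => p ∣ m)).card =
      ((Ioc 0 A).filter (fun m => p ∣ m)).card + ((Ioc A B).filter (fun m => p ∣ m)).card := by
    rw [← card_union_of_disjoint]
    · congr 1
      ext m
      simp only [mem_filter, mem_Ioc, mem_union]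
      constructor
      · rintro ⟨⟨h4, h5⟩, h6⟩
        rcases le_or_gt m A with h7 | h7
        · exact Or.inl ⟨⟨h4, h7⟩, h6⟩
        · exact Or.inr ⟨⟨h7, h5⟩, h6⟩
      · rintro (⟨⟨h4, h5⟩, h6⟩ | ⟨⟨h4, h5⟩, h6⟩)
        · exact ⟨⟨h4, by omega⟩, h6⟩
        · exact ⟨⟨by omega, h5⟩, h6⟩
    · rw [disjoint_left]
      intro m h4 h5
      simp only [mem_filter, mem_Ioc] at h4 h5
      omega
  have hp0 : (0 : ℝ) < p := by exact_mod_cast hp
  have h4 : (((Ioc A B).filter (fun m => p ∣ m)).card : ℝ) = (B / p : ℕ) - (A / p : ℕ) := by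
    have : B / p = A / p + ((Ioc A B).filter (fun m => p ∣ m)).card := by omega
    rw [this]
    push_cast
    ring
  rw [h4, Nat.card_Ioc, Nat.cast_sub h.le]
  have h5 : ((B / p : ℕ) : ℝ) ≤ (B : ℝ) / p := Nat.cast_div_le
  have h6 : (A : ℝ) / p < (A / p : ℕ) + 1 := by
    rw [div_lt_iff₀ hp0]
    have := Nat.lt_mul_div_succ A hp
    have h7 : (A : ℝ) < p * ((A / p : ℕ) + 1) := by exact_mod_cast this
    linarith
  rw [sub_div]
  linarith

/-- many integers without prime factors in `P` -/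
theorem rough_card (P : Finset ℕ) (y N s₀ : ℕ) (hy : 1 ≤ y) (hs₀ : 1 ≤ s₀)
    (hP : ∀ p ∈ P, 1 < p ∧ y ≤ 8 * p) (hPc : 16 * P.card ≤ y)
    (hN : (16 * (P.card : ℝ) + 16) * s₀ ≤ N) :
    ∃ ℳ : Finset ℕ, (∀ m ∈ ℳ, (m ≠ 0 ∧ ∀ p ∈ P, ¬ p ∣ m) ∧ N ≤ s₀ * m ∧
      Real.sqrt 2 * s₀ * m ≤ 2 * N) ∧ (N : ℝ) / (8 * s₀) ≤ ℳ.card := by
  classical
  set a : ℝ := (N : ℝ) / s₀ with ha
  have hs : (0 : ℝ) < s₀ := by exact_mod_cast hs₀
  have ha16 : 16 * (P.card : ℝ) + 16 ≤ a := by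
    rw [ha, le_div_iff₀ hs]
    exact hN
  have hPn : (0 : ℝ) ≤ P.card := Nat.cast_nonneg _
  have ha0 : 0 < a := by linarith
  have hr2 : (1.41 : ℝ) ≤ Real.sqrt 2 := by
    apply Real.le_sqrt_of_sq_le
    norm_num
  have hr2' : Real.sqrt 2 ^ 2 = 2 := Real.sq_sqrt (by norm_num)
  set A := ⌊a⌋₊ with hA
  set B := ⌊Real.sqrt 2 * a⌋₊ with hB
  set ℳ := (Ioc A B).filter (fun m => ∀ p ∈ P, ¬ p ∣ m) with hM
  refine ⟨ℳ, ?_, ?_⟩
  · intro m hm
    rw [hM, mem_filter, mem_Ioc] at hm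
    have h1 : a < m := Nat.lt_of_floor_lt hm.1.1
    have h2 : (m : ℝ) ≤ Real.sqrt 2 * a := (Nat.le_floor_iff (by positivity)).1 hm.1.2
    refine ⟨⟨by omega, hm.2⟩, ?_, ?_⟩
    · have h3 : (N : ℝ) ≤ s₀ * m := by
        have : (N : ℝ) = s₀ * a := by
          rw [ha]
          field_simp
        rw [this]
        gcongr
      exact_mod_cast h3
    · have h3 : (N : ℝ) = s₀ * a := by
        rw [ha]
        field_simp
      rw [h3]
      calc Real.sqrt 2 * s₀ * m ≤ Real.sqrt 2 * s₀ * (Real.sqrt 2 * a) := by gcongr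
        _ = Real.sqrt 2 ^ 2 * (s₀ * a) := by ring
        _ = _ := by rw [hr2']
  · -- counting
    have h1 : (Ioc A B).card ≤ ℳ.card + ∑ p ∈ P, ((Ioc A B).filter (fun m => p ∣ m)).card := by
      have h2 : Ioc A B ⊆ ℳ ∪ P.biUnion (fun p => (Ioc A B).filter (fun m => p ∣ m)) := by
        intro m hm
        rw [mem_union, mem_biUnion]
        by_cases h : ∀ p ∈ P, ¬ p ∣ m
        · exact Or.inl (mem_filter.2 ⟨hm, h⟩)
        · push Not at h
          obtain ⟨p, hp, hpm⟩ := h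
          exact Or.inr ⟨p, hp, mem_filter.2 ⟨hm, hpm⟩⟩
      exact (card_le_card h2).trans ((card_union_le _ _).trans
        (Nat.add_le_add_left card_biUnion_le _))
    have h1' : ((Ioc A B).card : ℝ) ≤ ℳ.card +
        ∑ p ∈ P, (((Ioc A B).filter (fun m => p ∣ m)).card : ℝ) := by exact_mod_cast h1
    have h2 : ∑ p ∈ P, (((Ioc A B).filter (fun m => p ∣ m)).card : ℝ) ≤
        ((Ioc A B).card : ℝ) / 2 + P.card := by
      calc _ ≤ ∑ p ∈ P, (((Ioc A B).card : ℝ) * (8 / y) + 1) := by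
            apply sum_le_sum
            intro p hp
            refine (mult_card p A B (by have := (hP p hp).1; omega)).trans ?_
            have h3 : (1 : ℝ) / p ≤ 8 / y := by
              have hp0 : (0 : ℝ) < p := by
                have := (hP p hp).1
                have : 0 < p := by omega
                exact_mod_cast this
              rw [div_le_div_iff₀ hp0 (by exact_mod_cast hy), one_mul]
              exact_mod_cast (hP p hp).2
            have h4 : (0 : ℝ) ≤ ((Ioc A B).card : ℝ) := by positivity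
            calc ((Ioc A B).card : ℝ) / p + 1 = ((Ioc A B).card : ℝ) * (1 / p) + 1 := by ring
              _ ≤ _ := by gcongr
        _ = ((Ioc A B).card : ℝ) * (8 * P.card / y) + P.card := by
            rw [sum_add_distrib, sum_const, sum_const]
            simp only [nsmul_eq_mul]
            ring
        _ ≤ ((Ioc A B).card : ℝ) * (1 / 2) + P.card := by
            have hy0 : (0 : ℝ) < y := by exact_mod_cast hy
            have h5 : (8 * P.card / y : ℝ) ≤ 1 / 2 := by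
              rw [div_le_div_iff₀ hy0 (by norm_num)]
              have : (16 * P.card : ℝ) ≤ y := by exact_mod_cast hPc
              linarith
            gcongr
        _ = _ := by ring
    have h3 : 0.41 * a - 1 ≤ ((Ioc A B).card : ℝ) := by
      rw [Nat.card_Ioc]
      have h4 : (A : ℝ) ≤ a := Nat.floor_le ha0.le
      have h5 : Real.sqrt 2 * a < B + 1 := Nat.lt_floor_add_one _
      have h6 : (B : ℝ) - A ≤ ((B - A : ℕ) : ℝ) := by
        rw [sub_le_iff_le_add]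
        have : B ≤ B - A + A := by omega
        exact_mod_cast this
      nlinarith
    have h4 : (N : ℝ) / (8 * s₀) = a / 8 := by
      rw [ha, div_div]
      ring
    rw [h4]
    linarith

end Pool.Agent.Helper95.LVT
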