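import Pool.Agent.Helper95.LVT.Pow

/-! # Upper bounds for the number of the large values, `T ≤ exp((log N)^a)` -/

set_option autoImplicit false

namespace Pool.Agent.Helper95.LVT

open Finset Filter Topology

theorem ev_rpow (C δ p q : ℝ) (hδ : 0 < δ) (hpq : p < q) :
    ∀ᶠ x : ℝ in atTop, C * x ^ p ≤ δ * x ^ q := by
  have h1 : Tendsto (fun x : ℝ => x ^ (-(q - p))) atTop (𝓝 0) :=
    tendsto_rpow_neg_atTop (by linarith)
  have h2 : Tendsto (fun x : ℝ => C * x ^ (-(q - p))) atTop (𝓝 0) := by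
    have := h1.const_mul C
    rwa [mul_zero] at this
  filter_upwards [h2.eventually_lt_const hδ, eventually_gt_atTop 0] with x hx hx0
  have h3 : x ^ p = x ^ (-(q - p)) * x ^ q := by
    rw [← Real.rpow_add hx0]
    congr 1
    ring
  rw [h3]
  have : 0 < x ^ q := by positivity
  nlinarith

theorem log_small (u : ℝ) (hu : 1 ≤ u) :
    Real.log (10 + 32 * u) + Real.log (2 + (4 * u) ^ 2) ≤ 28 * u ^ (1 / 2 : ℝ) := by
  have hu0 : 0 < u := by linarith
  set s := u ^ (1 / 2 : ℝ) with hs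
  have h1 : Real.log (10 + 32 * u) ≤ 14 * s := by
    have h2 := Real.log_le_rpow_div (x := 10 + 32 * u) (by linarith) (ε := 1 / 2) (by norm_num)
    have h3 : (10 + 32 * u) ^ (1 / 2 : ℝ) ≤ 7 * s := by
      calc (10 + 32 * u) ^ (1 / 2 : ℝ) ≤ (49 * u) ^ (1 / 2 : ℝ) := by
            apply Real.rpow_le_rpow (by linarith) (by linarith) (by norm_num)
        _ = 7 * s := by
            rw [Real.mul_rpow (by norm_num) hu0.le]
            congr 1
            rw [show (49 : ℝ) = 7 ^ (2 : ℝ) by norm_num, ← Real.rpow_mul (by norm_num)]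
            norm_num
    calc _ ≤ _ := h2
      _ = 2 * (10 + 32 * u) ^ (1 / 2 : ℝ) := by ring
      _ ≤ _ := by linarith
  have h4 : Real.log (2 + (4 * u) ^ 2) ≤ 14 * s := by
    have h5 : Real.log (2 + (4 * u) ^ 2) ≤ 2 * Real.log (9 * u) := by
      rw [← Real.log_rpow (by positivity)]
      apply Real.log_le_log (by positivity)
      norm_num
      nlinarith
    have h2 := Real.log_le_rpow_div (x := 9 * u) (by linarith) (ε := 1 / 2) (by norm_num)
    have h3 : (9 * u) ^ (1 / 2 : ℝ) = 3 * s := by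
      rw [Real.mul_rpow (by norm_num) hu0.le]
      congr 1
      rw [show (9 : ℝ) = 3 ^ (2 : ℝ) by norm_num, ← Real.rpow_mul (by norm_num)]
      norm_num
    rw [h3] at h2
    have hs0 : 0 ≤ s := by positivity
    calc _ ≤ _ := h5
      _ ≤ 2 * (3 * s / (1 / 2)) := by gcongr
      _ = 12 * s := by ring
      _ ≤ _ := by linarith
  linarith

theorem exp_split (A B u v w : ℝ) (hA : 0 < A) (hB : 0 < B) :
    A * (Real.exp u * B) * (Real.exp v * Real.exp w) =
      Real.exp (Real.log A + (u + Real.log B) + (v + w)) := by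
  rw [Real.exp_add, Real.exp_add (Real.log A), Real.exp_add u, Real.exp_add v, Real.exp_log hA,
    Real.exp_log hB]

/-- the error term -/
theorem err_small (a α C ε : ℝ) (ha : 1 < a) (hα : 1 / 2 < α) (haα : 1 - 1 / a < α) (hC : 0 < C)
    (hε : 0 < ε) : ∃ x0 : ℝ, 1 ≤ x0 ∧ ∀ x : ℝ, x0 ≤ x → ∀ k : ℕ, (k : ℝ) ≤ x ^ (a - 1) + 1 →
      x + 3 * k + Real.log (10 + 8 * (k * (x + Real.log 2))) +
        Real.log (2 + (k * (x + Real.log 2)) ^ 2) + C * (k : ℝ) ^ (1 / α) ≤ ε * x ^ a := by
  have hα0 : 0 < α := by linarith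
  have ha0 : 0 < a := by linarith
  have hexp : (a - 1) * (1 / α) < a := by
    rw [mul_one_div, div_lt_iff₀ hα0]
    have h1 : a * (1 - 1 / a) < a * α := by
      apply mul_lt_mul_of_pos_left haα ha0
    have h2 : a * (1 - 1 / a) = a - 1 := by field_simp
    linarith
  have e1 := ev_rpow 1 (ε / 4) 1 a (by positivity) ha
  have e2 := ev_rpow 6 (ε / 4) (a - 1) a (by positivity) (by linarith)
  have e3 := ev_rpow 28 (ε / 4) (a / 2) a (by positivity) (by linarith)
  have e4 := ev_rpow (C * 2 ^ (1 / α)) (ε / 4) ((a - 1) * (1 / α)) a (by positivity) hexp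
  obtain ⟨x0, hx0⟩ := eventually_atTop.1 (e1.and (e2.and (e3.and e4)))
  refine ⟨max x0 1, le_max_right _ _, ?_⟩
  intro x hx k hk
  have hx1 : 1 ≤ x := (le_max_right _ _).trans hx
  have hx00 : 0 < x := by linarith
  obtain ⟨g1, g2, g3, g4⟩ := hx0 x ((le_max_left _ _).trans hx)
  rw [Real.rpow_one] at g1
  have hxa : 1 ≤ x ^ (a - 1) := Real.one_le_rpow hx1 (by linarith)
  have hk2 : (k : ℝ) ≤ 2 * x ^ (a - 1) := by linarith
  have hl2 : Real.log 2 ≤ 1 := by
    have := Real.log_two_lt_d9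
    linarith
  have hl20 : 0 ≤ Real.log 2 := Real.log_nonneg (by norm_num)
  have hkl : k * (x + Real.log 2) ≤ 4 * x ^ a := by
    have h1 : x ^ a = x ^ (a - 1) * x := by
      rw [← Real.rpow_add_one hx00.ne']
      congr 1
      ring
    calc k * (x + Real.log 2) ≤ (2 * x ^ (a - 1)) * (2 * x) := by gcongr; linarith
      _ = _ := by rw [h1]; ring
  have hkl0 : 0 ≤ k * (x + Real.log 2) := by positivity
  have hu : 1 ≤ x ^ a := Real.one_le_rpow hx1 (by linarith)
  have h5 := log_small (x ^ a) hu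
  have h6 : (x ^ a) ^ (1 / 2 : ℝ) = x ^ (a / 2) := by
    rw [← Real.rpow_mul hx00.le]
    congr 1
    ring
  rw [h6] at h5
  have h7 : Real.log (10 + 8 * (k * (x + Real.log 2))) ≤ Real.log (10 + 32 * x ^ a) := by
    apply Real.log_le_log (by positivity)
    linarith
  have h8 : Real.log (2 + (k * (x + Real.log 2)) ^ 2) ≤ Real.log (2 + (4 * x ^ a) ^ 2) := by
    apply Real.log_le_log (by positivity)
    gcongr
  have h9 : C * (k : ℝ) ^ (1 / α) ≤ C * 2 ^ (1 / α) * x ^ ((a - 1) * (1 / α)) := by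
    calc C * (k : ℝ) ^ (1 / α) ≤ C * (2 * x ^ (a - 1)) ^ (1 / α) := by gcongr
      _ = _ := by
        rw [Real.mul_rpow (by norm_num) (by positivity), ← Real.rpow_mul hx00.le]
        ring
  linarith

/-- **Upper bound.** -/
theorem upper (a σ ε : ℝ) (ha : 1 < a) (hσ : max (1 / 2) (1 - 1 / a) < σ) (hε : 0 < ε) :
    ∃ C : ℝ, 0 < C ∧ ∀ (N : ℕ) (T : ℝ) (b : ℕ → ℂ) (W : Finset ℤ), 1 ≤ N →
      T ≤ Real.exp (Real.log N ^ a) → (∀ n ∈ Icc N (2 * N), ‖b n‖ ≤ 1) →
      (∀ t ∈ W, 0 ≤ (t : ℝ) ∧ (t : ℝ) ≤ T ∧ (N : ℝ) ^ σ < ‖D N b t‖) →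
      (W.card : ℝ) ≤ C * Real.exp (Real.log N ^ a) ^ (1 - 2 * (σ - max (1 / 2) (1 - 1 / a)) + ε) := by
  set σ0 := max (1 / 2) (1 - 1 / a) with hσ0
  have ha0 : 0 < a := by linarith
  have hσ01 : σ0 < 1 := by
    rw [hσ0, max_lt_iff]
    have : 0 < 1 / a := by positivity
    constructor <;> linarith
  -- the choice of `α`
  obtain ⟨α, hα1, hα2, hα3, hα4⟩ : ∃ α, σ0 < α ∧ α < 1 ∧ α < σ ∧ α ≤ σ0 + ε / 4 := by
    refine ⟨σ0 + min (min ((1 - σ0) / 2) ((σ - σ0) / 2)) (ε / 4), ?_, ?_, ?_, ?_⟩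
    · have : 0 < min (min ((1 - σ0) / 2) ((σ - σ0) / 2)) (ε / 4) := by
        refine lt_min (lt_min ?_ ?_) ?_ <;> linarith
      linarith
    · have := min_le_left (min ((1 - σ0) / 2) ((σ - σ0) / 2)) (ε / 4)
      have := min_le_left ((1 - σ0) / 2) ((σ - σ0) / 2)
      linarith
    · have := min_le_left (min ((1 - σ0) / 2) ((σ - σ0) / 2)) (ε / 4)
      have := min_le_right ((1 - σ0) / 2) ((σ - σ0) / 2)
      linarith
    · have := min_le_right (min ((1 - σ0) / 2) ((σ - σ0) / 2)) (ε / 4)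
      linarith
  have hα : 1 / 2 < α := (le_max_left _ _).trans_lt hα1
  have haα : 1 - 1 / a < α := (le_max_right _ _).trans_lt hα1
  obtain ⟨C, hC, hmv⟩ := power_mv α hα hα2
  obtain ⟨x0, hx01, herr⟩ := err_small a α C (ε / 2) ha hα haα hC (by positivity)
  set e := 1 - 2 * (σ - σ0) + ε with he
  set C1 := (Real.exp (x0 ^ a) + 1) * Real.exp (|e| * x0 ^ a) with hC1
  refine ⟨max C1 1, by positivity, ?_⟩
  intro N T b W hN hT hb hW
  rcases W.eq_empty_or_nonempty with hWe | hWne
  · rw [hWe]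
    simp
    positivity
  have hT0 : 0 ≤ T := by
    obtain ⟨t, ht⟩ := hWne
    exact (hW t ht).1.trans (hW t ht).2.1
  set x := Real.log N with hx
  have hN1 : (1 : ℝ) ≤ N := by exact_mod_cast hN
  have hN0 : (0 : ℝ) < N := by linarith
  have hx0' : 0 ≤ x := Real.log_nonneg hN1
  have hRHS : Real.exp (x ^ a) ^ e = Real.exp (e * x ^ a) := by
    rw [← Real.exp_mul, mul_comm]
  rw [hRHS]
  rcases lt_or_ge x x0 with hsmall | hlarge
  · -- trivial bound
    have hWc : (W.card : ℝ) ≤ T + 1 := by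
      have h1 : W ⊆ Icc (0 : ℤ) ⌊T⌋ := by
        intro t ht
        rw [mem_Icc]
        refine ⟨by exact_mod_cast (hW t ht).1, ?_⟩
        rw [Int.le_floor]
        exact (hW t ht).2.1
      have h2 := card_le_card h1
      rw [Int.card_Icc] at h2
      have h3 : (((⌊T⌋ + 1 - 0).toNat : ℕ) : ℝ) ≤ T + 1 := by
        have h4 : (0 : ℤ) ≤ ⌊T⌋ + 1 - 0 := by
          have := Int.floor_nonneg.2 hT0
          omega
        have h5 : (((⌊T⌋ + 1 - 0).toNat : ℕ) : ℝ) = ((⌊T⌋ + 1 - 0 : ℤ) : ℝ) := by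
          exact_mod_cast congrArg (Int.cast : ℤ → ℝ) (Int.toNat_of_nonneg h4)
        rw [h5]
        push_cast
        have := Int.floor_le T
        linarith
      calc (W.card : ℝ) ≤ (((⌊T⌋ + 1 - 0).toNat : ℕ) : ℝ) := by exact_mod_cast h2
        _ ≤ _ := h3
    have hxa : x ^ a ≤ x0 ^ a := Real.rpow_le_rpow hx0' hsmall.le ha0.le
    have hxa0 : 0 ≤ x ^ a := by positivity
    have h1 : (W.card : ℝ) ≤ Real.exp (x0 ^ a) + 1 := by
      have := Real.exp_le_exp.2 hxa
      linarith
    have h2 : 1 ≤ Real.exp (|e| * x0 ^ a) * Real.exp (e * x ^ a) := by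
      rw [← Real.exp_add]
      apply Real.one_le_exp
      have h3 : -(|e| * x ^ a) ≤ e * x ^ a := by
        have := neg_abs_le e
        nlinarith
      have h4 : |e| * x ^ a ≤ |e| * x0 ^ a := by gcongr
      linarith
    calc (W.card : ℝ) ≤ (Real.exp (x0 ^ a) + 1) * 1 := by linarith
      _ ≤ (Real.exp (x0 ^ a) + 1) * (Real.exp (|e| * x0 ^ a) * Real.exp (e * x ^ a)) := by gcongr
      _ = C1 * Real.exp (e * x ^ a) := by rw [hC1]; ring
      _ ≤ max C1 1 * Real.exp (e * x ^ a) := by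
          gcongr
          exact le_max_left _ _
  · -- the powers
    have hx1 : 1 ≤ x := hx01.trans hlarge
    have hxp : 0 < x := by linarith
    set k := ⌈x ^ (a - 1)⌉₊ with hk
    have hk1 : x ^ (a - 1) ≤ k := Nat.le_ceil _
    have hk2 : (k : ℝ) ≤ x ^ (a - 1) + 1 := (Nat.ceil_lt_add_one (by positivity)).le
    have hk0 : 1 ≤ k := by
      rw [hk, Nat.one_le_ceil_iff]
      positivity
    have hE := herr x hlarge k hk2
    have hmain := hmv N k T ((N : ℝ) ^ σ) b W hN hk0 hT0 (by positivity) hb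
      fun t ht => ⟨(hW t ht).1, (hW t ht).2.1, (hW t ht).2.2.le⟩
    have hl2N : Real.log (2 * N) = x + Real.log 2 := by
      rw [Real.log_mul (by norm_num) hN0.ne', hx]
      ring
    set l := x + Real.log 2 with hl
    rw [hl2N] at hmain
    have hl20 : 0 ≤ Real.log 2 := Real.log_nonneg (by norm_num)
    have hl21 : Real.log 2 ≤ 1 := by
      have := Real.log_two_lt_d9
      linarith
    have hl0 : 0 < l := by linarith
    -- everything as exponentials
    have hNk : (N : ℝ) ^ k = Real.exp (k * x) := by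
      rw [Real.exp_nat_mul, hx, Real.exp_log hN0]
    have h2Nk : (2 * N : ℝ) ^ k = Real.exp (k * l) := by
      rw [Real.exp_nat_mul, ← hl2N, Real.exp_log (by positivity)]
    have h2Na : (2 * N : ℝ) ^ (2 * α * k) = Real.exp (2 * α * k * l) := by
      rw [Real.rpow_def_of_pos (by positivity), hl2N]
      congr 1
      ring
    have hV : ((N : ℝ) ^ σ) ^ (2 * k) = Real.exp (2 * σ * k * x) := by
      rw [← Real.rpow_natCast, ← Real.rpow_mul hN0.le, Real.rpow_def_of_pos hN0, ← hx]
      congr 1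
      push_cast
      ring
    rw [h2Nk, h2Na, hV] at hmain
    have hkx : x ^ a ≤ k * x := by
      have h1 : x ^ a = x ^ (a - 1) * x := by
        rw [← Real.rpow_add_one hxp.ne']
        congr 1
        ring
      rw [h1]
      gcongr
    have hkx2 : k * x ≤ x ^ a + x := by
      have h1 : x ^ a = x ^ (a - 1) * x := by
        rw [← Real.rpow_add_one hxp.ne']
        congr 1
        ring
      rw [h1]
      nlinarith
    -- the middle factor
    have hmid : T + 1 + 8 * Real.exp (k * l) * (1 + k * l) ≤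
        Real.exp (x ^ a + x + k * Real.log 2) * (10 + 8 * (k * l)) := by
      have h1 : Real.exp (k * l) ≤ Real.exp (x ^ a + x + k * Real.log 2) := by
        apply Real.exp_le_exp.2
        rw [hl]
        nlinarith
      have h2 : T ≤ Real.exp (x ^ a + x + k * Real.log 2) := by
        refine hT.trans (Real.exp_le_exp.2 ?_)
        have : 0 ≤ k * Real.log 2 := by positivity
        linarith
      have h3 : 1 ≤ Real.exp (x ^ a + x + k * Real.log 2) := by
        apply Real.one_le_exp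
        positivity
      have h4 : 0 ≤ 1 + k * l := by positivity
      calc T + 1 + 8 * Real.exp (k * l) * (1 + k * l)
          ≤ Real.exp (x ^ a + x + k * Real.log 2) + Real.exp (x ^ a + x + k * Real.log 2) +
            8 * Real.exp (x ^ a + x + k * Real.log 2) * (1 + k * l) := by gcongr
        _ = _ := by ring
    have hA : 0 < 10 + 8 * (k * l) := by positivity
    have hB : 0 < 2 + (k * l) ^ 2 := by positivity
    have hfin : (W.card : ℝ) * Real.exp (2 * σ * k * x) ≤
        Real.exp (Real.log (2 + (k * l) ^ 2) + (x ^ a + x + k * Real.log 2 +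
          Real.log (10 + 8 * (k * l))) + (2 * α * k * l + C * (k : ℝ) ^ (1 / α))) := by
      calc (W.card : ℝ) * Real.exp (2 * σ * k * x) ≤ _ := hmain
        _ ≤ (2 + (k * l) ^ 2) * (Real.exp (x ^ a + x + k * Real.log 2) * (10 + 8 * (k * l))) *
            (Real.exp (2 * α * k * l) * Real.exp (C * (k : ℝ) ^ (1 / α))) := by gcongr
        _ = _ := exp_split _ _ _ _ _ hB hA
    have hdiv : (W.card : ℝ) ≤ Real.exp (Real.log (2 + (k * l) ^ 2) + (x ^ a + x + k * Real.log 2 +
          Real.log (10 + 8 * (k * l))) + (2 * α * k * l + C * (k : ℝ) ^ (1 / α)) -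
            2 * σ * k * x) := by
      rw [Real.exp_sub, le_div_iff₀ (Real.exp_pos _)]
      exact hfin
    refine hdiv.trans ?_
    have hexp : Real.log (2 + (k * l) ^ 2) + (x ^ a + x + k * Real.log 2 +
          Real.log (10 + 8 * (k * l))) + (2 * α * k * l + C * (k : ℝ) ^ (1 / α)) -
            2 * σ * k * x ≤ e * x ^ a := by
      have hk0' : (0 : ℝ) ≤ k := Nat.cast_nonneg _
      have h1 : 2 * α * k * l = 2 * α * k * x + 2 * α * (k * Real.log 2) := by rw [hl]; ring
      have h2 : 2 * α * (k * Real.log 2) + k * Real.log 2 ≤ 3 * k := by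
        have h3 : k * Real.log 2 ≤ k := by nlinarith
        have h4 : 0 ≤ k * Real.log 2 := by positivity
        nlinarith
      have h3 : 2 * (σ - α) * x ^ a ≤ 2 * (σ - α) * (k * x) := by
        apply mul_le_mul_of_nonneg_left hkx
        linarith
      have h4 : (2 * (α - σ0)) * x ^ a ≤ (ε / 2) * x ^ a := by
        apply mul_le_mul_of_nonneg_right _ (by positivity)
        linarith
      rw [h1, he]
      linarith
    calc Real.exp _ ≤ Real.exp (e * x ^ a) := Real.exp_le_exp.2 hexp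
      _ ≤ max C1 1 * Real.exp (e * x ^ a) := by
          have := le_max_right C1 1
          have h5 := Real.exp_pos (e * x ^ a)
          nlinarith

end Pool.Agent.Helper95.LVT
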