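import Pool.Agent.Helper95.LVT.Crit
import Pool.Agent.Helper95.LVT.Upper

/-! # Large values near the critical level: the asymptotics -/

set_option autoImplicit false

namespace Pool.Agent.Helper95.LVT

open Finset Filter Topology

/-- the primes in `(y/8, y]` -/
def WP (y : ℕ) : Finset ℕ := (Ioc 0 y).filter (fun p => p.Prime ∧ y < 8 * p)

theorem theta_split (y : ℕ) : Chebyshev.theta y =
    ∑ p ∈ WP y, Real.log p + Chebyshev.theta ((y / 8 : ℕ) : ℝ) := by
  unfold Chebyshev.theta WP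
  rw [Nat.floor_natCast, Nat.floor_natCast]
  rw [← sum_filter_add_sum_filter_not ((Ioc 0 y).filter Nat.Prime) (fun p => y < 8 * p)]
  congr 1
  · rw [filter_filter]
  · rw [filter_filter]
    apply sum_congr
    · ext p
      simp only [mem_filter, mem_Ioc]
      constructor
      · rintro ⟨⟨h1, h2⟩, h3, h4⟩
        exact ⟨⟨h1, by omega⟩, h3⟩
      · rintro ⟨⟨h1, h2⟩, h3⟩
        exact ⟨⟨h1, by omega⟩, h3, by omega⟩
    · intro _ _
      rfl

theorem WP_lower (y : ℕ) : y * Real.log 2 - Real.log (y + 1) - 2 * Real.sqrt y * Real.log y -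
    Real.log 4 * (y / 8) ≤ ((WP y).card : ℝ) * Real.log y := by
  have h1 := Chebyshev.theta_ge y
  have h2 := theta_split y
  have h3 : Chebyshev.theta ((y / 8 : ℕ) : ℝ) ≤ Real.log 4 * (y / 8) := by
    refine (Chebyshev.theta_le_log4_mul_x (by positivity)).trans ?_
    have : ((y / 8 : ℕ) : ℝ) ≤ (y : ℝ) / 8 := by
      have := @Nat.cast_div_le ℝ _ _ _ y 8
      exact_mod_cast this
    have h4 : 0 ≤ Real.log 4 := Real.log_nonneg (by norm_num)
    gcongr
  have h4 : ∑ p ∈ WP y, Real.log p ≤ ((WP y).card : ℝ) * Real.log y := by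
    rw [← nsmul_eq_mul]
    apply sum_le_card_nsmul
    intro p hp
    unfold WP at hp
    rw [mem_filter, mem_Ioc] at hp
    apply Real.log_le_log
    · exact_mod_cast hp.1.1
    · exact_mod_cast hp.1.2
  linarith

theorem WP_upper (y : ℕ) : ((WP y).card : ℝ) * Real.log (y / 8) ≤ Real.log 4 * y := by
  rcases Nat.eq_zero_or_pos y with h0 | hy
  · subst h0
    simp
  have h2 := theta_split y
  have h3 := Chebyshev.theta_nonneg ((y / 8 : ℕ) : ℝ)
  have h4 : ((WP y).card : ℝ) * Real.log (y / 8) ≤ ∑ p ∈ WP y, Real.log p := by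
    rw [← nsmul_eq_mul]
    apply card_nsmul_le_sum
    intro p hp
    unfold WP at hp
    rw [mem_filter, mem_Ioc] at hp
    apply Real.log_le_log
    · have : (0 : ℝ) < y := by exact_mod_cast hy
      positivity
    · have : (y : ℝ) < 8 * p := by exact_mod_cast hp.2.2
      linarith
  have h5 : Chebyshev.theta (y : ℝ) ≤ Real.log 4 * y :=
    Chebyshev.theta_le_log4_mul_x (Nat.cast_nonneg _)
  linarith

/-- the number of the factors -/
noncomputable def uu (y : ℕ) : ℕ := ⌊Real.sqrt y / (10 * Real.log y)⌋₊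

theorem WP_ev : ∃ y0 : ℕ, 16 ≤ y0 ∧ ∀ y : ℕ, y0 ≤ y →
    16 * (WP y).card ≤ y ∧ (y : ℝ) ^ (WP y).card ≤ Real.exp (2 * y) ∧ 1 ≤ uu y ∧
    2 * uu y ≤ (WP y).card ∧ (4 * y : ℝ) ≤ (((WP y).card : ℝ) / (2 * uu y)) ^ 2 ∧
    (uu y : ℝ) * (2 * Real.pi / y) ≤ 1 / 2 ∧
    (2 * ((uu y : ℝ) * Real.logb 2 y) + 2) ^ 2 ≤ y ∧ (128 * y : ℝ) ≤ 2 ^ (uu y) ∧
    Real.sqrt y / (20 * Real.log y) ≤ uu y ∧
    (16 * ((WP y).card : ℝ) + 16) * (y : ℝ) ^ (uu y) ≤ Real.exp y := by
  have e1 := ev_rpow 23 (1 / 10) (3 / 5) 1 (by norm_num) (by norm_num)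
  have e2 := ev_rpow 1 (1 / 20000) (1 / 10) (2 / 5) (by norm_num) (by norm_num)
  have e3 := ev_rpow 1 (1 / 20000) 0 (2 / 5) (by norm_num) (by norm_num)
  have e4 : ∀ᶠ x : ℝ in atTop, 8 * Real.exp 23 ≤ x := eventually_ge_atTop _
  obtain ⟨x0, hx0⟩ := eventually_atTop.1 (e1.and (e2.and (e3.and e4)))
  refine ⟨max 16 ⌈max x0 10000⌉₊, le_max_left _ _, ?_⟩
  intro y hy
  have hyx : max x0 10000 ≤ (y : ℝ) := (Nat.le_ceil _).trans (by
    have := (le_max_right _ _).trans hy
    exact_mod_cast this)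
  have hy4 : (10000 : ℝ) ≤ y := (le_max_right _ _).trans hyx
  have hyp : (0 : ℝ) < y := by linarith
  have hy1 : (1 : ℝ) ≤ y := by linarith
  obtain ⟨g1, g2, g3, g4⟩ := hx0 y ((le_max_left _ _).trans hyx)
  rw [Real.rpow_one] at g1
  rw [Real.rpow_zero] at g3
  set K : ℝ := ((WP y).card : ℝ) with hK
  have hK0 : 0 ≤ K := Nat.cast_nonneg _
  -- logarithms
  have hl2a := Real.log_two_gt_d9
  have hl2b := Real.log_two_lt_d9
  have hl4 : Real.log 4 = 2 * Real.log 2 := by
    rw [show (4 : ℝ) = 2 ^ 2 by norm_num, Real.log_pow]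
    push_cast
    ring
  have hlogpos : 0 < Real.log y := Real.log_pos (by linarith)
  have hlog8 : 23 ≤ Real.log (y / 8) := by
    rw [Real.le_log_iff_exp_le (by positivity)]
    linarith
  have hlog8' : Real.log (y / 8) = Real.log y - 3 * Real.log 2 := by
    rw [Real.log_div (by positivity) (by norm_num), show (8 : ℝ) = 2 ^ 3 by norm_num, Real.log_pow]
    push_cast
    ring
  have hlog10 : Real.log y ≤ 10 * (y : ℝ) ^ (1 / 10 : ℝ) := by
    have := Real.log_le_rpow_div (x := (y : ℝ)) hyp.le (ε := 1 / 10) (by norm_num)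
    calc _ ≤ _ := this
      _ = _ := by ring
  have hsq : Real.sqrt y = (y : ℝ) ^ (1 / 2 : ℝ) := Real.sqrt_eq_rpow _
  have hsqpos : 0 < Real.sqrt y := Real.sqrt_pos.2 hyp
  have hsq2 : Real.sqrt y * Real.sqrt y = y := Real.mul_self_sqrt hyp.le
  have hsq100 : 100 ≤ Real.sqrt y := by
    apply Real.le_sqrt_of_sq_le
    linarith
  -- upper bound of `K`
  have hKu := WP_upper y
  rw [← hK, hl4] at hKu
  have h16 : 16 * K ≤ y := by
    have : 23 * K ≤ 2 * Real.log 2 * y := by nlinarith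
    nlinarith
  have hKlog : K * Real.log y ≤ 2 * y := by
    have h1 : K * Real.log y = K * Real.log (y / 8) + K * (3 * Real.log 2) := by
      rw [hlog8']
      ring
    rw [h1]
    nlinarith
  -- lower bound of `K`
  have hKl := WP_lower y
  rw [← hK, hl4] at hKl
  have hlog1 : Real.log (y + 1) ≤ 3 * Real.sqrt y := by
    have h5 : Real.log (y + 1) ≤ Real.log (Real.sqrt y ^ 2 * 4) := by
      apply Real.log_le_log (by positivity)
      rw [sq, hsq2]
      linarith
    have h6 := Real.log_le_sub_one_of_pos (x := Real.sqrt y) hsqpos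
    rw [Real.log_mul (by positivity) (by norm_num), Real.log_pow, hl4] at h5
    push_cast at h5
    linarith
  have hterm : 2 * Real.sqrt y * Real.log y ≤ 20 * (y : ℝ) ^ (3 / 5 : ℝ) := by
    calc 2 * Real.sqrt y * Real.log y ≤ 2 * Real.sqrt y * (10 * (y : ℝ) ^ (1 / 10 : ℝ)) := by gcongr
      _ = 20 * ((y : ℝ) ^ (1 / 2 : ℝ) * (y : ℝ) ^ (1 / 10 : ℝ)) := by rw [hsq]; ring
      _ = _ := by
          rw [← Real.rpow_add hyp]
          norm_num
  have hsq35 : Real.sqrt y ≤ (y : ℝ) ^ (3 / 5 : ℝ) := by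
    rw [hsq]
    exact Real.rpow_le_rpow_of_exponent_le hy1 (by norm_num)
  have hKl2 : 0.4 * y ≤ K * Real.log y := by nlinarith
  -- the number `u`
  set u := uu y with hu
  have hu1 : (u : ℝ) ≤ Real.sqrt y / (10 * Real.log y) := Nat.floor_le (by positivity)
  have hu2 : Real.sqrt y / (10 * Real.log y) < u + 1 := Nat.lt_floor_add_one _
  have hbig : (y : ℝ) ^ (2 / 5 : ℝ) / 100 ≤ Real.sqrt y / (10 * Real.log y) := by
    rw [div_le_div_iff₀ (by norm_num) (by positivity)]
    calc (y : ℝ) ^ (2 / 5 : ℝ) * (10 * Real.log y) ≤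
          (y : ℝ) ^ (2 / 5 : ℝ) * (10 * (10 * (y : ℝ) ^ (1 / 10 : ℝ))) := by gcongr
      _ = 100 * ((y : ℝ) ^ (2 / 5 : ℝ) * (y : ℝ) ^ (1 / 10 : ℝ)) := by ring
      _ = 100 * (y : ℝ) ^ (1 / 2 : ℝ) := by
          rw [← Real.rpow_add hyp]
          norm_num
      _ = _ := by rw [hsq]; ring
  set z := (y : ℝ) ^ (2 / 5 : ℝ) with hz
  have hz1 : 20000 ≤ z := by linarith
  have hulow : z / 100 - 1 ≤ u := by linarith
  have hu199 : (199 : ℝ) ≤ u := by linarith
  have hulog : (u : ℝ) * Real.log y ≤ Real.sqrt y / 10 := by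
    calc (u : ℝ) * Real.log y ≤ Real.sqrt y / (10 * Real.log y) * Real.log y := by gcongr
      _ = _ := by field_simp
  have hu0 : (0 : ℝ) < u := by linarith
  have h4u : 4 * u * Real.sqrt y ≤ K := by
    have h1 : 4 * u * Real.sqrt y * Real.log y ≤ K * Real.log y := by
      calc 4 * u * Real.sqrt y * Real.log y = 4 * (u * Real.log y) * Real.sqrt y := by ring
        _ ≤ 4 * (Real.sqrt y / 10) * Real.sqrt y := by gcongr
        _ = 0.4 * (Real.sqrt y * Real.sqrt y) := by ring
        _ = 0.4 * y := by rw [hsq2]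
        _ ≤ _ := hKl2
    exact le_of_mul_le_mul_right h1 hlogpos
  refine ⟨?_, ?_, ?_, ?_, ?_, ?_, ?_, ?_, ?_, ?_⟩
  · have h1 := h16
    rw [hK] at h1
    exact_mod_cast h1
  · have h1 : (y : ℝ) ^ (WP y).card = Real.exp (K * Real.log y) := by
      rw [mul_comm, ← Real.rpow_def_of_pos hyp, hK, Real.rpow_natCast]
    rw [h1]
    exact Real.exp_le_exp.2 hKlog
  · have : (1 : ℝ) ≤ u := by linarith
    exact_mod_cast this
  · have : (2 * u : ℝ) ≤ K := by nlinarith
    rw [hK] at this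
    exact_mod_cast this
  · have h1 : 2 * Real.sqrt y ≤ K / (2 * u) := by
      rw [le_div_iff₀ (by positivity)]
      linarith
    calc (4 * y : ℝ) = (2 * Real.sqrt y) ^ 2 := by
          rw [mul_pow, Real.sq_sqrt hyp.le]
          ring
      _ ≤ _ := by gcongr
  · have h1 : (u : ℝ) ≤ Real.sqrt y / 10 := by
      have : 1 ≤ Real.log y := by linarith
      nlinarith
    have hpi := Real.pi_lt_d2
    have hpi0 := Real.pi_pos
    calc (u : ℝ) * (2 * Real.pi / y) ≤ Real.sqrt y / 10 * (2 * Real.pi / y) := by gcongr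
      _ = (2 * Real.pi / 10) / Real.sqrt y := by
          rw [← hsq2]
          field_simp
          rw [Real.sqrt_sq hsqpos.le]
      _ ≤ 1 / 2 := by
          rw [div_le_iff₀ hsqpos]
          nlinarith
  · have h1 : 2 * ((u : ℝ) * Real.logb 2 y) + 2 ≤ Real.sqrt y := by
      have h2 : (u : ℝ) * Real.logb 2 y ≤ Real.sqrt y / 5 := by
        unfold Real.logb
        rw [← mul_div_assoc, div_le_iff₀ (by linarith)]
        nlinarith
      linarith
    have h0 : 0 ≤ Real.logb 2 y := Real.logb_nonneg (by norm_num) hy1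
    calc (2 * ((u : ℝ) * Real.logb 2 y) + 2) ^ 2 ≤ (Real.sqrt y) ^ 2 := by gcongr
      _ = (y : ℝ) := Real.sq_sqrt hyp.le
  · have h1 : (2 : ℝ) ^ u = Real.exp (u * Real.log 2) := by
      rw [mul_comm, ← Real.rpow_def_of_pos (by norm_num), Real.rpow_natCast]
    have h2 : (128 * y : ℝ) = Real.exp (7 * Real.log 2 + Real.log y) := by
      rw [Real.exp_add, Real.exp_log hyp, show 7 * Real.log 2 = Real.log (2 ^ 7) by
        rw [Real.log_pow]; push_cast; ring, Real.exp_log (by norm_num)]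
      norm_num
    rw [h1, h2]
    apply Real.exp_le_exp.2
    have h3 : Real.log y ≤ z / 2000 := by linarith
    nlinarith
  · have h1 : Real.sqrt y / (20 * Real.log y) = Real.sqrt y / (10 * Real.log y) / 2 := by
      field_simp
      ring
    rw [h1]
    have : 2 ≤ Real.sqrt y / (10 * Real.log y) := by linarith
    linarith
  · have h1 : (y : ℝ) ^ u = Real.exp (u * Real.log y) := by
      rw [mul_comm, ← Real.rpow_def_of_pos hyp, Real.rpow_natCast]
    have h2 : 16 * K + 16 ≤ 2 * y := by linarith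
    have h3 : (2 * y : ℝ) ≤ Real.exp (Real.log y + 1) := by
      rw [Real.exp_add, Real.exp_log hyp, mul_comm]
      have := Real.add_one_le_exp (1 : ℝ)
      nlinarith
    calc (16 * K + 16) * (y : ℝ) ^ u ≤ Real.exp (Real.log y + 1) * Real.exp (u * Real.log y) := by
          rw [h1]
          gcongr
          linarith
      _ = Real.exp (Real.log y + 1 + u * Real.log y) := by rw [← Real.exp_add]
      _ ≤ Real.exp y := by
          apply Real.exp_le_exp.2
          have h4 : Real.log y ≤ z / 2000 := by linarith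
          have h5 : z ≤ y := by
            rw [hz]
            calc _ ≤ (y : ℝ) ^ (1 : ℝ) := Real.rpow_le_rpow_of_exponent_le hy1 (by norm_num)
              _ = y := Real.rpow_one _
          have h6 : Real.sqrt y ≤ y / 100 := by nlinarith
          linarith

end Pool.Agent.Helper95.LVT
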