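import Pool.Agent.Helper95.LVT.CritA
import Pool.Agent.Helper95.LVT.Const

/-! # Large values near the critical level: the theorems -/

set_option autoImplicit false

namespace Pool.Agent.Helper95.LVT

open Finset Filter Topology

/-- one value of `y` -/
theorem crit_step (N y : ℕ) (hy16 : 16 ≤ y) (A : ℝ) (hN : Real.exp y ≤ N)
    (h1 : 16 * (WP y).card ≤ y) (h3 : 1 ≤ uu y) (h4 : 2 * uu y ≤ (WP y).card)
    (h5 : (4 * y : ℝ) ≤ (((WP y).card : ℝ) / (2 * uu y)) ^ 2)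
    (h6 : (uu y : ℝ) * (2 * Real.pi / y) ≤ 1 / 2)
    (h7 : (2 * ((uu y : ℝ) * Real.logb 2 y) + 2) ^ 2 ≤ y) (h8 : (128 * y : ℝ) ≤ 2 ^ (uu y))
    (h10 : (16 * ((WP y).card : ℝ) + 16) * (y : ℝ) ^ (uu y) ≤ Real.exp y) :
    ∃ (b : ℕ → ℂ) (W : Finset ℕ), (∀ n, b n = 0 ∨ b n = 1 ∨ b n = -1) ∧
      (∀ t ∈ W, (t : ℝ) ≤ (N : ℝ) ^ A ∧ (N : ℝ) * 2 ^ (uu y) ≤ ‖D N b t‖ ^ 2) ∧
      (N : ℝ) ^ A / (y : ℝ) ^ (WP y).card / 6 ≤ W.card := by
  classical
  set u := uu y with hu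
  have hyp : (0 : ℝ) < y := by
    have : 0 < y := by omega
    exact_mod_cast this
  have hP : ∀ p ∈ WP y, p.Prime ∧ p ≤ y ∧ y < 8 * p := by
    intro p hp
    unfold WP at hp
    rw [mem_filter, mem_Ioc] at hp
    exact ⟨hp.2.1, hp.1.2, hp.2.2⟩
  obtain ⟨𝒮, hne, h𝒮, hcard, s₀, hs1, hs2, hwin⟩ := window (WP y) y u
    (fun p hp => ⟨(hP p hp).1.one_lt.le, (hP p hp).2.1⟩) (by omega) (by omega)
  have hs0 : (0 : ℝ) < s₀ := by exact_mod_cast hs1
  have hs2' : (s₀ : ℝ) ≤ (y : ℝ) ^ u := by exact_mod_cast hs2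
  have hN0 : (0 : ℝ) < N := lt_of_lt_of_le (Real.exp_pos _) hN
  obtain ⟨ℳ, hℳ, hℳc⟩ := rough_card (WP y) y N s₀ (by omega) hs1
    (fun p hp => ⟨(hP p hp).1.one_lt, by have := (hP p hp).2.2; omega⟩) h1 (by
      refine le_trans ?_ hN
      refine le_trans ?_ h10
      gcongr)
  obtain ⟨W, hW1, hW2, hW3⟩ := pigeon (WP y) y ⌊(N : ℝ) ^ A⌋₊ (by omega)
  obtain ⟨b, hb, W', hW', hW'c, hlarge⟩ := product_large N u (WP y) (fun p hp => (hP p hp).1) 𝒮 h𝒮 ℳ
    (fun m hm => (hℳ m hm).1) (fun F hF m hm => by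
      obtain ⟨_, g1, g2⟩ := hℳ m hm
      obtain ⟨g3, g4⟩ := hwin F hF
      refine ⟨g1.trans (Nat.mul_le_mul_right _ g3), ?_⟩
      have : (((∏ p ∈ F, p) * m : ℕ) : ℝ) ≤ 2 * N := by
        push_cast at g4 ⊢
        calc _ ≤ Real.sqrt 2 * s₀ * m := by gcongr
          _ ≤ _ := g2
      exact_mod_cast this) (2 * Real.pi / y) h6 W hW2
  refine ⟨b, W', hb, ?_, ?_⟩
  · intro t ht
    constructor
    · have := hW1 t (hW' ht)
      exact (Nat.le_floor_iff (by positivity)).1 this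
    · refine le_trans ?_ (hlarge t ht)
      have hL : (0 : ℝ) < 2 * ((u : ℝ) * Real.logb 2 y) + 2 := by
        have : 0 ≤ Real.logb 2 y := Real.logb_nonneg (by norm_num) (by
          have : 1 ≤ y := by omega
          exact_mod_cast this)
        positivity
      -- the number of the products
      have g1 : (4 * y : ℝ) ^ u ≤ (((WP y).card.choose u : ℕ) : ℝ) ^ 2 := by
        have g2 := choose_ge (WP y).card u h3 h4
        calc (4 * y : ℝ) ^ u ≤ ((((WP y).card : ℝ) / (2 * u)) ^ 2) ^ u := by gcongr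
          _ = ((((WP y).card : ℝ) / (2 * u)) ^ u) ^ 2 := by rw [← pow_mul, ← pow_mul, mul_comm 2 u]
          _ ≤ _ := by gcongr
      have g2 : (4 * y : ℝ) ^ u / y ≤ (𝒮.card : ℝ) ^ 2 := by
        calc (4 * y : ℝ) ^ u / y ≤ (((WP y).card.choose u : ℕ) : ℝ) ^ 2 /
              (2 * ((u : ℝ) * Real.logb 2 y) + 2) ^ 2 := by
              gcongr
          _ = ((((WP y).card.choose u : ℕ) : ℝ) / (2 * ((u : ℝ) * Real.logb 2 y) + 2)) ^ 2 := by
              rw [div_pow]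
          _ ≤ _ := by gcongr
      have g3 : (2 : ℝ) ^ u * 128 ≤ (4 : ℝ) ^ u / y := by
        rw [le_div_iff₀ hyp]
        calc (2 : ℝ) ^ u * 128 * y = 2 ^ u * (128 * y) := by ring
          _ ≤ 2 ^ u * 2 ^ u := by gcongr
          _ = 4 ^ u := by
              rw [← mul_pow]
              norm_num
      calc (N : ℝ) * 2 ^ u = (2 ^ u * 128) * N / 128 := by ring
        _ ≤ ((4 : ℝ) ^ u / y) * N / 128 := by gcongr
        _ = ((4 * y : ℝ) ^ u / y) * (N / (8 * (y : ℝ) ^ u)) / 16 := by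
            rw [mul_pow]
            field_simp
            ring
        _ ≤ (𝒮.card : ℝ) ^ 2 * (N / (8 * s₀)) / 16 := by gcongr
        _ ≤ (𝒮.card : ℝ) ^ 2 * ℳ.card / 16 := by gcongr
  · refine le_trans ?_ hW'c
    have g1 : (N : ℝ) ^ A / (y : ℝ) ^ (WP y).card ≤ W.card := by
      refine le_trans ?_ hW3
      have := Nat.lt_floor_add_one ((N : ℝ) ^ A)
      gcongr
    linarith

/-- **Many large values above the critical level.** -/
theorem crit (A ε : ℝ) (hε : 0 < ε) : ∃ c : ℝ, 0 < c ∧ ∃ N₀ : ℕ, ∀ N : ℕ, N₀ ≤ N →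
    ∃ (b : ℕ → ℂ) (W : Finset ℤ), (∀ n, b n = 0 ∨ b n = 1 ∨ b n = -1) ∧
      (∀ t ∈ W, 0 ≤ (t : ℝ) ∧ (t : ℝ) ≤ (N : ℝ) ^ A ∧
        (N : ℝ) ^ (1 / 2 : ℝ) * Real.exp (c * Real.sqrt (Real.log N) / Real.log (Real.log N)) ≤
          ‖D N b t‖) ∧
      (N : ℝ) ^ (A - ε) ≤ (W.card : ℝ) := by
  classical
  obtain ⟨y0, hy016, hy0⟩ := WP_ev
  set e := min (ε / 4) 1 with he
  have he0 : 0 < e := lt_min (by positivity) one_pos
  have he1 : e ≤ 1 := min_le_right _ _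
  have heε : 4 * e ≤ ε := by
    have : e ≤ ε / 4 := min_le_left _ _
    linarith
  refine ⟨Real.sqrt (e / 2) / 60, by positivity, ?_⟩
  -- large `N`
  have hev : ∀ᶠ N : ℕ in atTop, (y0 + 2 : ℝ) / e ≤ Real.log N ∧ 4 * Real.log 6 / ε ≤ Real.log N := by
    have h1 : Tendsto (fun N : ℕ => Real.log N) atTop atTop :=
      Real.tendsto_log_atTop.comp tendsto_natCast_atTop_atTop
    exact (h1.eventually_ge_atTop _).and (h1.eventually_ge_atTop _)
  obtain ⟨N₀, hN₀⟩ := eventually_atTop.1 hev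
  refine ⟨max N₀ 1, fun N hN => ?_⟩
  obtain ⟨hL1, hL2⟩ := hN₀ N ((le_max_left _ _).trans hN)
  have hN1 : 1 ≤ N := (le_max_right _ _).trans hN
  have hN0 : (0 : ℝ) < N := by exact_mod_cast hN1
  have hN1' : (1 : ℝ) ≤ N := by exact_mod_cast hN1
  set L := Real.log N with hL
  have hLexp : Real.exp L = N := Real.exp_log hN0
  set y := ⌊e * L⌋₊ with hy
  have hL0 : 0 < L := lt_of_lt_of_le (by positivity) hL1
  have hyle : (y : ℝ) ≤ e * L := Nat.floor_le (by positivity)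
  have hylt : e * L < y + 1 := Nat.lt_floor_add_one _
  have hel : (y0 + 2 : ℝ) ≤ e * L := by
    rw [div_le_iff₀ he0] at hL1
    linarith
  have hyy0 : y0 ≤ y := by
    have : (y0 : ℝ) + 1 < y + 1 := by linarith
    have : (y0 : ℝ) < y := by linarith
    exact_mod_cast this.le
  have hy16 : 16 ≤ y := hy016.trans hyy0
  have hy16' : (16 : ℝ) ≤ y := by exact_mod_cast hy16
  obtain ⟨h1, h2, h3, h4, h5, h6, h7, h8, h9, h10⟩ := hy0 y hyy0
  have hyL : (y : ℝ) ≤ L := by nlinarith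
  obtain ⟨b, W, hb, hW, hWc⟩ := crit_step N y hy16 A (by
    rw [← hLexp]
    exact Real.exp_le_exp.2 hyL) h1 h3 h4 h5 h6 h7 h8 h10
  refine ⟨b, W.map ⟨Int.ofNat, fun a b h => Int.ofNat.inj h⟩, hb, ?_, ?_⟩
  · intro t ht
    rw [Finset.mem_map] at ht
    obtain ⟨s, hs, rfl⟩ := ht
    have e1 : (((⟨Int.ofNat, fun a b h => Int.ofNat.inj h⟩ : ℕ ↪ ℤ) s : ℤ) : ℝ) = (s : ℝ) := by
      show ((Int.ofNat s : ℤ) : ℝ) = s
      simp
    rw [e1]
    obtain ⟨g1, g2⟩ := hW s hs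
    refine ⟨Nat.cast_nonneg _, g1, ?_⟩
    -- the size
    have hlogL : Real.log y ≤ Real.log L := Real.log_le_log (by linarith) hyL
    have hlogy : 0 < Real.log y := Real.log_pos (by linarith)
    have hu1 : Real.sqrt (e / 2) / 20 * (Real.sqrt L / Real.log L) ≤ uu y := by
      refine le_trans ?_ h9
      have q1 : Real.sqrt (e / 2) * Real.sqrt L ≤ Real.sqrt y := by
        rw [← Real.sqrt_mul (by positivity)]
        apply Real.sqrt_le_sqrt
        linarith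
      calc Real.sqrt (e / 2) / 20 * (Real.sqrt L / Real.log L) =
            (Real.sqrt (e / 2) * Real.sqrt L) / (20 * Real.log L) := by field_simp
        _ ≤ Real.sqrt y / (20 * Real.log y) := by
            gcongr
    have hl2 := Real.log_two_gt_d9
    have q2 : Real.exp (Real.sqrt (e / 2) / 60 * Real.sqrt L / Real.log L) ^ 2 ≤ 2 ^ (uu y) := by
      have q3 : (2 : ℝ) ^ (uu y) = Real.exp (uu y * Real.log 2) := by
        rw [mul_comm, ← Real.rpow_def_of_pos (by norm_num), Real.rpow_natCast]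
      rw [q3, ← Real.exp_nat_mul]
      apply Real.exp_le_exp.2
      have q4 : (0 : ℝ) ≤ uu y := Nat.cast_nonneg _
      push_cast
      calc 2 * (Real.sqrt (e / 2) / 60 * Real.sqrt L / Real.log L) =
            2 / 3 * (Real.sqrt (e / 2) / 20 * (Real.sqrt L / Real.log L)) := by ring
        _ ≤ 2 / 3 * uu y := by gcongr
        _ ≤ _ := by nlinarith
    have q3 : ((N : ℝ) ^ (1 / 2 : ℝ) *
        Real.exp (Real.sqrt (e / 2) / 60 * Real.sqrt L / Real.log L)) ^ 2 ≤ ‖D N b s‖ ^ 2 := by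
      refine le_trans ?_ g2
      rw [mul_pow, ← Real.sqrt_eq_rpow, Real.sq_sqrt hN0.le]
      gcongr
    exact le_of_sq_le_sq q3 (norm_nonneg _)
  · rw [card_map]
    refine le_trans ?_ hWc
    have q1 : (y : ℝ) ^ (WP y).card ≤ (N : ℝ) ^ (2 * e) := by
      refine h2.trans ?_
      rw [← hLexp, ← Real.exp_mul]
      apply Real.exp_le_exp.2
      linarith
    have q2 : (6 : ℝ) ≤ (N : ℝ) ^ (ε / 4) := by
      rw [← hLexp, ← Real.exp_mul, ← Real.log_le_iff_le_exp (by norm_num)]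
      rw [div_le_iff₀ hε] at hL2
      linarith
    rw [div_div, le_div_iff₀ (by positivity)]
    calc (N : ℝ) ^ (A - ε) * ((y : ℝ) ^ (WP y).card * 6) ≤
          (N : ℝ) ^ (A - ε) * ((N : ℝ) ^ (2 * e) * (N : ℝ) ^ (ε / 4)) := by gcongr
      _ = (N : ℝ) ^ (A - ε + (2 * e + ε / 4)) := by
          rw [← Real.rpow_add hN0, ← Real.rpow_add hN0]
      _ ≤ (N : ℝ) ^ A := by
          apply Real.rpow_le_rpow_of_exponent_le hN1'
          linarith

/-- **The constants in Q1 near the critical level.** -/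
theorem crit_const (A ε κ : ℝ) (hε : 0 < ε) (hA : 1 + ε < A) (hκ : κ < 2) :
    ∃ σ₀ : ℝ, 1 / 2 < σ₀ ∧ ∀ σ : ℝ, 1 / 2 < σ → σ < σ₀ → ∀ C : ℝ,
      (∀ (N : ℕ) (T : ℝ) (b : ℕ → ℂ) (W : Finset ℤ), 1 ≤ N → (N : ℝ) ≤ T → T ≤ (N : ℝ) ^ A →
        (∀ n, ‖b n‖ ≤ 1) → (∀ t ∈ W, 0 ≤ (t : ℝ) ∧ (t : ℝ) ≤ T ∧ (N : ℝ) ^ σ < ‖D N b t‖) →
        (W.card : ℝ) ≤ C * (N : ℝ) ^ (2 - 2 * σ + ε)) →
      Real.exp ((σ - 1 / 2) ^ (-κ)) ≤ C := by
  set κ1 := max κ 1 with hκ1
  have hκ11 : 1 ≤ κ1 := le_max_right _ _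
  have hκ12 : κ1 < 2 := max_lt hκ (by norm_num)
  set κ' := (κ1 + 2) / 2 with hκ'
  have hk1 : κ1 < κ' := by linarith
  have hk2 : κ' < 2 := by linarith
  set ε' := (A - 1 - ε) / 2 with hε'
  have hε'0 : 0 < ε' := by linarith
  obtain ⟨c, hc, N₀, hcrit⟩ := crit A ε' hε'0
  set δ := (2 - κ') / 4 with hδ
  have hδ0 : 0 < δ := by linarith
  -- large `x`
  have e1 := ev_rpow (4 / δ) (c / 4) (κ' / 2 + δ) 1 (by positivity) (by linarith)
  have e2 := ev_rpow 1 ε' κ1 κ' hε'0 hk1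
  have e3 : ∀ᶠ x : ℝ in atTop, (N₀ : ℝ) + 8 ≤ x := eventually_ge_atTop _
  obtain ⟨x0, hx0⟩ := eventually_atTop.1 (e1.and (e2.and e3))
  set x1 := max x0 2 with hx1
  have hx12 : 2 ≤ x1 := le_max_right _ _
  refine ⟨1 / 2 + 1 / x1, by linarith [show 0 < 1 / x1 by positivity], ?_⟩
  intro σ hσ0 hσ1 C hC
  set η := σ - 1 / 2 with hη
  have hη0 : 0 < η := by linarith
  set x := 1 / η with hx
  have hxη : η = 1 / x := by rw [hx, one_div_one_div]
  have hxx1 : x1 ≤ x := by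
    have h1 : η < 1 / x1 := by linarith
    rw [hx, le_div_iff₀ hη0]
    rw [lt_div_iff₀ (by linarith)] at h1
    linarith
  have hx2 : 2 ≤ x := hx12.trans hxx1
  have hx00 : 0 < x := by linarith
  have hx1' : 1 ≤ x := by linarith
  obtain ⟨g1, g2, g3⟩ := hx0 x ((le_max_left _ _).trans hxx1)
  rw [Real.rpow_one] at g1
  rw [one_mul] at g2
  set X := x ^ κ' with hX
  have hXx : x ≤ X := by
    calc x = x ^ (1 : ℝ) := (Real.rpow_one _).symm
      _ ≤ _ := Real.rpow_le_rpow_of_exponent_le hx1' (by linarith)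
  have hX8 : 8 ≤ X := by
    have : (0 : ℝ) ≤ N₀ := Nat.cast_nonneg _
    linarith
  set N := ⌈Real.exp X⌉₊ with hN
  have hNlow : Real.exp X ≤ N := Nat.le_ceil _
  have hNup : (N : ℝ) < Real.exp X + 1 := Nat.ceil_lt_add_one (Real.exp_pos _).le
  have hN0 : (0 : ℝ) < N := lt_of_lt_of_le (Real.exp_pos _) hNlow
  have hXexp : X + 1 ≤ Real.exp X := Real.add_one_le_exp X
  have hNN₀ : N₀ ≤ N := by
    have : (N₀ : ℝ) ≤ N := by linarith
    exact_mod_cast this
  have hN1 : 1 ≤ N := by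
    have : (1 : ℝ) ≤ N := by linarith
    exact_mod_cast this
  have hN1' : (1 : ℝ) ≤ N := by exact_mod_cast hN1
  set L := Real.log N with hL
  have hLexp : Real.exp L = N := Real.exp_log hN0
  have hLlow : X ≤ L := by
    rw [hL, Real.le_log_iff_exp_le hN0]
    exact hNlow
  have hLup : L ≤ 2 * X := by
    rw [hL, Real.log_le_iff_le_exp hN0]
    have h1 : Real.exp (2 * X) = Real.exp X * Real.exp X := by
      rw [← Real.exp_add]
      congr 1
      ring
    rw [h1]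
    nlinarith
  have hL0 : 0 < L := by linarith
  have hlogL : 0 < Real.log L := Real.log_pos (by linarith)
  obtain ⟨b, W, hb, hW, hWc⟩ := hcrit N hNN₀
  -- the level
  have hlev : η * L < c * Real.sqrt L / Real.log L := by
    have q1 : Real.log L ≤ 4 / δ * x ^ δ := by
      have q2 : Real.log L ≤ Real.log (x ^ κ' * 2) := Real.log_le_log hL0 (by linarith)
      rw [Real.log_mul (by positivity) (by norm_num), Real.log_rpow hx00] at q2
      have q3 := Real.log_le_rpow_div (x := x) hx00.le (ε := δ) hδ0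
      have q4 : Real.log 2 ≤ Real.log x := Real.log_le_log (by norm_num) hx2
      have q5 : 0 ≤ Real.log x := Real.log_nonneg hx1'
      calc Real.log L ≤ κ' * Real.log x + Real.log 2 := q2
        _ ≤ 2 * Real.log x + Real.log x := by nlinarith
        _ ≤ 4 * Real.log x := by linarith
        _ ≤ 4 * (x ^ δ / δ) := by linarith
        _ = _ := by ring
    have q2 : Real.sqrt L ≤ 2 * x ^ (κ' / 2) := by
      rw [Real.sqrt_le_left (by positivity), mul_pow, ← Real.rpow_natCast (x ^ (κ' / 2)),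
        ← Real.rpow_mul hx00.le]
      push_cast
      rw [div_mul_cancel₀ _ (by norm_num : (2 : ℝ) ≠ 0)]
      linarith
    have q3 : Real.sqrt L * Real.log L < c * x := by
      calc Real.sqrt L * Real.log L ≤ (2 * x ^ (κ' / 2)) * (4 / δ * x ^ δ) := by gcongr
        _ = 2 * (4 / δ * x ^ (κ' / 2 + δ)) := by
            rw [Real.rpow_add hx00]
            ring
        _ ≤ 2 * (c / 4 * x) := by linarith
        _ < _ := by nlinarith [mul_pos hc hx00]
    rw [lt_div_iff₀ hlogL, hxη]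
    have q4 : L = Real.sqrt L * Real.sqrt L := (Real.mul_self_sqrt hL0.le).symm
    have q5 : 0 < Real.sqrt L := Real.sqrt_pos.2 hL0
    calc 1 / x * L * Real.log L = (Real.sqrt L * Real.log L) * Real.sqrt L / x := by
          nth_rw 1 [q4]
          ring
      _ < (c * x) * Real.sqrt L / x := by gcongr
      _ = _ := by field_simp
  have h1 := hC N ((N : ℝ) ^ A) b W hN1 (by
    calc (N : ℝ) = (N : ℝ) ^ (1 : ℝ) := (Real.rpow_one _).symm
      _ ≤ _ := Real.rpow_le_rpow_of_exponent_le hN1' (by linarith)) le_rfl (by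
    intro n
    rcases hb n with h | h | h <;> rw [h] <;> simp) (by
    intro t ht
    obtain ⟨k1, k2, k3⟩ := hW t ht
    refine ⟨k1, k2, lt_of_lt_of_le ?_ k3⟩
    have : (N : ℝ) ^ σ = (N : ℝ) ^ (1 / 2 : ℝ) * Real.exp (η * L) := by
      rw [show σ = 1 / 2 + η by linarith, Real.rpow_add hN0]
      congr 1
      rw [Real.rpow_def_of_pos hN0, mul_comm]
    rw [this]
    gcongr)
  have h2 : (N : ℝ) ^ (A - ε') ≤ C * (N : ℝ) ^ (2 - 2 * σ + ε) := hWc.trans h1
  have h3 : (N : ℝ) ^ (ε' + 2 * η) ≤ C := by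
    have h4 : (N : ℝ) ^ (A - ε') = (N : ℝ) ^ (ε' + 2 * η) * (N : ℝ) ^ (2 - 2 * σ + ε) := by
      rw [← Real.rpow_add hN0]
      congr 1
      rw [hη, hε']
      ring
    rw [h4] at h2
    exact le_of_mul_le_mul_right h2 (Real.rpow_pos_of_pos hN0 _)
  refine le_trans ?_ h3
  rw [← hLexp, ← Real.exp_mul]
  apply Real.exp_le_exp.2
  calc η ^ (-κ) = x ^ κ := by
        rw [hxη, one_div, Real.inv_rpow hx00.le, Real.rpow_neg hx00.le, inv_inv]
    _ ≤ x ^ κ1 := Real.rpow_le_rpow_of_exponent_le hx1' (le_max_left _ _)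
    _ ≤ ε' * X := g2
    _ ≤ L * (ε' + 2 * η) := by nlinarith

end Pool.Agent.Helper95.LVT
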