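import Mathlib

/-!
# Multiplicative energies of `[1, M]` of high order

`E_k = #{(f, g) : ∏ f_i = ∏ g_i}`, `f, g ∈ [1, M]^k`, is at most `(A ∑_{n ≤ M} h(n))^k`.
-/

set_option autoImplicit false

namespace Pool.Agent.Helper95.LVT

open Finset

/-- the value of the majorant at a prime -/
noncomputable def hw (α : ℝ) (k : ℕ) (p : ℕ) : ℝ := if (p : ℝ) ^ α ≤ k then (p : ℝ) ^ α else k

/-- the completely multiplicative majorant -/
noncomputable def hh (α : ℝ) (k : ℕ) (n : ℕ) : ℝ := (n.primeFactorsList.map (hw α k)).prod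

theorem hw_nonneg (α : ℝ) (k p : ℕ) : 0 ≤ hw α k p := by
  unfold hw
  split_ifs <;> positivity

theorem hh_nonneg (α : ℝ) (k n : ℕ) : 0 ≤ hh α k n := by
  unfold hh
  apply List.prod_nonneg
  intro x hx
  rw [List.mem_map] at hx
  obtain ⟨p, _, rfl⟩ := hx
  exact hw_nonneg α k p

theorem hh_one (α : ℝ) (k : ℕ) : hh α k 1 = 1 := by
  unfold hh
  simp

theorem hh_mul (α : ℝ) (k : ℕ) {m n : ℕ} (hm : m ≠ 0) (hn : n ≠ 0) :
    hh α k (m * n) = hh α k m * hh α k n := by
  unfold hh
  rw [((Nat.perm_primeFactorsList_mul hm hn).map (hw α k)).prod_eq, List.map_append,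
    List.prod_append]

theorem hh_prime (α : ℝ) (k : ℕ) {p : ℕ} (hp : p.Prime) : hh α k p = hw α k p := by
  unfold hh
  rw [Nat.primeFactorsList_prime hp]
  simp

/-- ordered factorizations into `k` factors -/
noncomputable def dk (k m : ℕ) : ℕ := (Nat.finMulAntidiag k m).card

theorem dk_prime_mul (k m p : ℕ) (hp : p.Prime) (hm : m ≠ 0) : dk k (p * m) ≤ k * dk k m := by
  classical
  have hsub : Nat.finMulAntidiag k (p * m) ⊆
      ((univ : Finset (Fin k)) ×ˢ Nat.finMulAntidiag k m).image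
        (fun x => Function.update x.2 x.1 (p * x.2 x.1)) := by
    intro g hg
    rw [Nat.mem_finMulAntidiag] at hg
    have h1 : p ∣ ∏ i, g i := by rw [hg.1]; exact Dvd.intro m rfl
    obtain ⟨i, _, hi⟩ := (Nat.Prime.prime hp).exists_mem_finset_dvd h1
    obtain ⟨c, hc⟩ := hi
    rw [mem_image]
    refine ⟨(i, Function.update g i c), ?_, ?_⟩
    · rw [mem_product, Nat.mem_finMulAntidiag]
      refine ⟨mem_univ _, ?_, hm⟩
      have h2 : ∏ j, g j = g i * ∏ j ∈ univ.erase i, g j := by
        rw [mul_prod_erase _ _ (mem_univ i)]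
      have h3 : ∏ j, Function.update g i c j = c * ∏ j ∈ univ.erase i, g j := by
        rw [← mul_prod_erase univ _ (mem_univ i)]
        simp only [Function.update_self]
        congr 1
        apply prod_congr rfl
        intro j hj
        rw [Function.update_of_ne (ne_of_mem_erase hj)]
      rw [h3]
      have h4 : p * (c * ∏ j ∈ univ.erase i, g j) = p * m := by
        rw [← hg.1, h2, hc]; ring
      exact Nat.eq_of_mul_eq_mul_left hp.pos h4
    · simp only [Function.update_self, Function.update_idem]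
      rw [← hc, Function.update_eq_self]
  unfold dk
  calc _ ≤ _ := card_le_card hsub
    _ ≤ _ := card_image_le
    _ = _ := by rw [card_product, card_univ, Fintype.card_fin]

/-- the primes at which the majorant is `p ^ α` -/
noncomputable def SP (α : ℝ) (k M : ℕ) : Finset ℕ :=
  (range (M + 1)).filter fun p => p.Prime ∧ (p : ℝ) ^ α ≤ k

/-- the Euler product over the small primes -/
noncomputable def AA (α : ℝ) (k M : ℕ) : ℝ := ∏ p ∈ SP α k M, (1 - (p : ℝ) ^ (-α))⁻¹

/-- `n ↦ n ^ (-α)` -/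
noncomputable def pw (α : ℝ) (_ : 0 < α) : ℕ →* ℝ where
  toFun n := (n : ℝ) ^ (-α)
  map_one' := by simp
  map_mul' m n := by
    push_cast
    rw [Real.mul_rpow (Nat.cast_nonneg _) (Nat.cast_nonneg _)]

theorem pw_lt (α : ℝ) (hα : 0 < α) {p : ℕ} (hp : p.Prime) : ‖pw α hα p‖ < 1 := by
  have h1 : (1 : ℝ) < p := by exact_mod_cast hp.one_lt
  show ‖(p : ℝ) ^ (-α)‖ < 1
  rw [Real.norm_of_nonneg (by positivity)]
  exact Real.rpow_lt_one_of_one_lt_of_neg h1 (by linarith)

theorem sum_div_le (α : ℝ) (hα : 0 < α) (k M m : ℕ)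
    (hs : ∀ p, p.Prime → p ∣ m → p ∈ SP α k M) :
    ∑ d ∈ m.divisors, (d : ℝ) ^ (-α) ≤ AA α k M := by
  classical
  obtain ⟨h1, h2⟩ := EulerProduct.summable_and_hasSum_factoredNumbers_prod_filter_prime_geometric
    (f := pw α hα) (fun hp => pw_lt α hα hp) (SP α k M)
  have hfil : (SP α k M).filter Nat.Prime = SP α k M := by
    apply filter_true_of_mem
    intro p hp
    unfold SP at hp
    rw [mem_filter] at hp
    exact hp.2.1
  rw [hfil] at h2
  have hdiv : ∀ d ∈ m.divisors, d ∈ Nat.factoredNumbers (SP α k M) := by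
    intro d hd
    rw [Nat.mem_divisors] at hd
    rw [Nat.mem_factoredNumbers]
    refine ⟨ne_zero_of_dvd_ne_zero hd.2 hd.1, fun p hp => ?_⟩
    have hp' := Nat.prime_of_mem_primeFactorsList hp
    exact hs p hp' ((Nat.dvd_of_mem_primeFactorsList hp).trans hd.1)
  have h3 : ∑ d ∈ m.divisors.subtype (fun d => d ∈ Nat.factoredNumbers (SP α k M)),
      pw α hα (d : ℕ) ≤ AA α k M := by
    have h4 := sum_le_hasSum (m.divisors.subtype (fun d => d ∈ Nat.factoredNumbers (SP α k M)))
      (fun i _ => (by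
        show 0 ≤ ((i : ℕ) : ℝ) ^ (-α)
        positivity)) h2
    exact h4
  rw [sum_subtype_of_mem (f := fun d => pw α hα d) hdiv] at h3
  exact h3

theorem AA_ge_one (α : ℝ) (hα : 0 < α) (k M : ℕ) : 1 ≤ AA α k M := by
  unfold AA
  have : ∏ p ∈ SP α k M, (1 : ℝ) ≤ ∏ p ∈ SP α k M, (1 - (p : ℝ) ^ (-α))⁻¹ := by
    apply prod_le_prod (fun _ _ => zero_le_one)
    intro p hp
    unfold SP at hp
    rw [mem_filter] at hp
    have h1 : (1 : ℝ) < p := by exact_mod_cast hp.2.1.one_lt
    have h2 : (p : ℝ) ^ (-α) < 1 := Real.rpow_lt_one_of_one_lt_of_neg h1 (by linarith)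
    have h3 : 0 ≤ (p : ℝ) ^ (-α) := by positivity
    rw [one_le_inv₀ (by linarith)]
    linarith
  simpa using this

/-- the smooth part -/
theorem dk_smooth (α : ℝ) (hα : 0 < α) (k M m : ℕ) (hm : m ≠ 0)
    (hs : ∀ p, p.Prime → p ∣ m → p ∈ SP α k M) :
    (dk k m : ℝ) ≤ AA α k M ^ k * (m : ℝ) ^ α := by
  classical
  have hm0 : (0 : ℝ) < m := by exact_mod_cast Nat.pos_of_ne_zero hm
  have h1 : (dk k m : ℝ) * (m : ℝ) ^ (-α) ≤ AA α k M ^ k := by
    calc (dk k m : ℝ) * (m : ℝ) ^ (-α) = ∑ f ∈ Nat.finMulAntidiag k m, (m : ℝ) ^ (-α) := by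
          rw [sum_const, nsmul_eq_mul]; rfl
      _ = ∑ f ∈ Nat.finMulAntidiag k m, ∏ i, ((f i : ℕ) : ℝ) ^ (-α) := by
          apply sum_congr rfl
          intro f hf
          rw [Nat.mem_finMulAntidiag] at hf
          rw [Real.finsetProd_rpow _ _ (fun _ _ => Nat.cast_nonneg _), ← hf.1]
          push_cast
          rfl
      _ ≤ ∑ f ∈ Fintype.piFinset (fun _ : Fin k => m.divisors), ∏ i, ((f i : ℕ) : ℝ) ^ (-α) := by
          apply sum_le_sum_of_subset_of_nonneg
          · intro f hf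
            rw [Fintype.mem_piFinset]
            intro i
            rw [Nat.mem_divisors]
            exact ⟨Nat.dvd_of_mem_finMulAntidiag hf i, hm⟩
          · intro f _ _
            positivity
      _ = (∑ d ∈ m.divisors, (d : ℝ) ^ (-α)) ^ k := by
          rw [sum_pow']
      _ ≤ AA α k M ^ k := by
          gcongr
          exact sum_div_le α hα k M m hs
  rw [Real.rpow_neg hm0.le] at h1
  have h2 : 0 < (m : ℝ) ^ α := by positivity
  rwa [← div_eq_mul_inv, div_le_iff₀ h2] at h1

theorem hh_smooth (α : ℝ) (k : ℕ) (m : ℕ) (hm : m ≠ 0)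
    (hs : ∀ p, p.Prime → p ∣ m → (p : ℝ) ^ α ≤ k) : hh α k m = (m : ℝ) ^ α := by
  unfold hh
  have h1 : m.primeFactorsList.map (hw α k) = m.primeFactorsList.map (fun p : ℕ => (p : ℝ) ^ α) := by
    apply List.map_congr_left
    intro p hp
    unfold hw
    rw [if_pos (hs p (Nat.prime_of_mem_primeFactorsList hp) (Nat.dvd_of_mem_primeFactorsList hp))]
  rw [h1]
  have h2 : ∀ l : List ℕ, (l.map (fun p : ℕ => (p : ℝ) ^ α)).prod = ((l.prod : ℕ) : ℝ) ^ α := by
    intro l
    induction l with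
    | nil => simp
    | cons a l ih =>
      rw [List.map_cons, List.prod_cons, ih, List.prod_cons, Nat.cast_mul,
        Real.mul_rpow (Nat.cast_nonneg _) (Nat.cast_nonneg _)]
  rw [h2, Nat.prod_primeFactorsList hm]

/-- **the number of the factorizations** -/
theorem dk_le (α : ℝ) (hα : 0 < α) (k M : ℕ) : ∀ m : ℕ, m ≠ 0 →
    (∀ p, p.Prime → p ∣ m → p ≤ M) → (dk k m : ℝ) ≤ AA α k M ^ k * hh α k m := by
  intro m
  induction m using Nat.strong_induction_on with
  | _ m ih =>
    intro hm hM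
    by_cases hs : ∀ p, p.Prime → p ∣ m → (p : ℝ) ^ α ≤ k
    · rw [hh_smooth α k m hm hs]
      refine dk_smooth α hα k M m hm fun p hp hd => ?_
      unfold SP
      rw [mem_filter, mem_range]
      exact ⟨Nat.lt_succ_of_le (hM p hp hd), hp, hs p hp hd⟩
    · push Not at hs
      obtain ⟨p, hp, ⟨c, rfl⟩, hpk⟩ := hs
      have hc : c ≠ 0 := fun h => hm (by rw [h, mul_zero])
      have hlt : c < p * c := by
        have := hp.one_lt
        have := Nat.pos_of_ne_zero hc
        nlinarith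
      have h1 := ih c hlt hc fun q hq hd => hM q hq (hd.trans (Dvd.intro_left p rfl))
      have h2 : (dk k (p * c) : ℝ) ≤ k * dk k c := by exact_mod_cast dk_prime_mul k c p hp hc
      have h3 : hw α k p = k := by
        unfold hw
        rw [if_neg (not_le.2 hpk)]
      rw [hh_mul α k hp.ne_zero hc, hh_prime α k hp, h3]
      calc (dk k (p * c) : ℝ) ≤ k * dk k c := h2
        _ ≤ k * (AA α k M ^ k * hh α k c) := by gcongr
        _ = _ := by ring

/-- the number of the `f ∈ [1, M]^k` with product `m` -/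
noncomputable def rk (k M m : ℕ) : ℕ :=
  ((Fintype.piFinset (fun _ : Fin k => Icc 1 M)).filter fun f => ∏ i, f i = m).card

theorem rk_le_dk (k M m : ℕ) : rk k M m ≤ dk k m := by
  unfold rk dk
  apply card_le_card
  intro f hf
  rw [mem_filter, Fintype.mem_piFinset] at hf
  rw [Nat.mem_finMulAntidiag]
  refine ⟨hf.2, ?_⟩
  rw [← hf.2]
  apply prod_ne_zero_iff.2
  intro i _
  have := hf.1 i
  rw [mem_Icc] at this
  omega

theorem hh_prod (α : ℝ) (k : ℕ) {K : ℕ} (f : Fin K → ℕ) (hf : ∀ i, f i ≠ 0) :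
    hh α k (∏ i, f i) = ∏ i, hh α k (f i) := by
  have : ∀ s : Finset (Fin K), hh α k (∏ i ∈ s, f i) = ∏ i ∈ s, hh α k (f i) := by
    intro s
    induction s using Finset.induction_on with
    | empty => simp [hh_one]
    | insert a s ha ih =>
      rw [prod_insert ha, prod_insert ha, hh_mul α k (hf a) (prod_ne_zero_iff.2 fun i _ => hf i), ih]
  exact this univ

/-- **the energy** -/
theorem energy_le (α : ℝ) (hα : 0 < α) (k M : ℕ) (S : Finset ℕ) :
    ∑ m ∈ S, (rk k M m : ℝ) ^ 2 ≤ (AA α k M * ∑ n ∈ Icc 1 M, hh α k n) ^ k := by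
  classical
  set P := Fintype.piFinset (fun _ : Fin k => Icc 1 M) with hP
  calc ∑ m ∈ S, (rk k M m : ℝ) ^ 2
      = ∑ m ∈ S, ∑ f ∈ P.filter (fun f => ∏ i, f i = m), (rk k M m : ℝ) := by
        apply sum_congr rfl
        intro m _
        rw [sum_const, nsmul_eq_mul]
        show _ = (rk k M m : ℝ) * _
        ring
    _ ≤ ∑ m ∈ S, ∑ f ∈ P.filter (fun f => ∏ i, f i = m), AA α k M ^ k * ∏ i, hh α k (f i) := by
        apply sum_le_sum
        intro m _
        apply sum_le_sum
        intro f hf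
        rw [mem_filter, hP, Fintype.mem_piFinset] at hf
        have hf0 : ∀ i, f i ≠ 0 := fun i => by
          have := hf.1 i
          rw [mem_Icc] at this
          omega
        have hm0 : m ≠ 0 := by
          rw [← hf.2]
          exact prod_ne_zero_iff.2 fun i _ => hf0 i
        rw [← hh_prod α k f hf0, hf.2]
        have h1 : (rk k M m : ℝ) ≤ dk k m := by exact_mod_cast rk_le_dk k M m
        refine h1.trans (dk_le α hα k M m hm0 fun p hp hd => ?_)
        rw [← hf.2] at hd
        obtain ⟨i, _, hi⟩ := (Nat.Prime.prime hp).exists_mem_finset_dvd hd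
        have h2 := hf.1 i
        rw [mem_Icc] at h2
        exact (Nat.le_of_dvd (by omega) hi).trans h2.2
    _ = ∑ f ∈ P.filter (fun f => ∏ i, f i ∈ S), AA α k M ^ k * ∏ i, hh α k (f i) := by
        rw [← sum_fiberwise_of_maps_to (s := P.filter (fun f => ∏ i, f i ∈ S)) (t := S)
          (g := fun f => ∏ i, f i) (fun f hf => (mem_filter.1 hf).2)]
        apply sum_congr rfl
        intro m hm
        apply sum_congr _ fun _ _ => rfl
        ext f
        simp only [mem_filter]
        constructor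
        · rintro ⟨h1, h2⟩
          exact ⟨⟨h1, by rw [h2]; exact hm⟩, h2⟩
        · rintro ⟨⟨h1, _⟩, h2⟩
          exact ⟨h1, h2⟩
    _ ≤ ∑ f ∈ P, AA α k M ^ k * ∏ i, hh α k (f i) := by
        apply sum_le_sum_of_subset_of_nonneg (filter_subset _ _)
        intro f _ _
        have h1 := AA_ge_one α hα k M
        have h2 : 0 ≤ ∏ i, hh α k (f i) := prod_nonneg fun i _ => hh_nonneg α k _
        positivity
    _ = (AA α k M * ∑ n ∈ Icc 1 M, hh α k n) ^ k := by
        rw [← mul_sum, mul_pow, sum_pow']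

end Pool.Agent.Helper95.LVT
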