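import Pool.Agent.Helper95.LVT.Sieve

/-! # Large values and the additive energies of the set of points -/

set_option autoImplicit false

namespace Pool.Agent.Helper95.LVT

open Finset

/-- the number of the solutions of `t_1 + ⋯ + t_k = s_1 + ⋯ + s_k` in `W` -/
def kEnergy (k : ℕ) (W : Finset ℤ) : ℕ :=
  (((Fintype.piFinset fun _ : Fin k => W) ×ˢ (Fintype.piFinset fun _ : Fin k => W)).filter
    fun p => ∑ i, p.1 i = ∑ i, p.2 i).card

/-- coefficients of the power -/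
noncomputable def pc (k : ℕ) (W : Finset ℤ) (c : ℤ → ℂ) (u : ℤ) : ℂ :=
  ∑ g ∈ (Fintype.piFinset fun _ : Fin k => W).filter (fun g => ∑ i, g i = u), ∏ i, c (g i)

/-- frequencies of the power -/
def pU (k : ℕ) (W : Finset ℤ) : Finset ℤ := (Fintype.piFinset fun _ : Fin k => W).image fun g => ∑ i, g i

theorem ES_pow (k : ℕ) (W : Finset ℤ) (c : ℤ → ℂ) (x : ℝ) :
    ES W c x ^ k = ES (pU k W) (pc k W c) x := by
  classical
  unfold ES pc
  rw [sum_pow']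
  rw [← sum_fiberwise_of_maps_to (t := pU k W) (g := fun g : Fin k → ℤ => ∑ i, g i)
    (fun g hg => mem_image_of_mem _ hg)]
  apply sum_congr rfl
  intro u _
  rw [sum_mul]
  apply sum_congr rfl
  intro g hg
  rw [mem_filter] at hg
  rw [prod_mul_distrib, ← Complex.exp_sum, ← hg.2]
  congr 2
  push_cast
  rw [sum_mul, sum_mul]

theorem energy_eq (k : ℕ) (W : Finset ℤ) :
    ∑ u ∈ pU k W, (((Fintype.piFinset fun _ : Fin k => W).filter
      (fun g => ∑ i, g i = u)).card) ^ 2 = kEnergy k W := by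
  classical
  unfold kEnergy
  rw [card_eq_sum_card_fiberwise (f := fun p : (Fin k → ℤ) × (Fin k → ℤ) => ∑ i, p.1 i) (t := pU k W)]
  · apply sum_congr rfl
    intro u _
    rw [sq, ← card_product]
    congr 1
    ext p
    simp only [mem_product, mem_filter]
    constructor
    · rintro ⟨⟨h1, h2⟩, h3, h4⟩
      exact ⟨⟨⟨h1, h3⟩, h2.trans h4.symm⟩, h2⟩
    · rintro ⟨⟨⟨h1, h2⟩, h3⟩, h4⟩
      exact ⟨⟨h1, h4⟩, h2, h3.symm.trans h4⟩
  · intro p hp
    simp only [coe_filter, Set.mem_ofPred_eq, mem_product] at hp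
    exact mem_coe.2 (mem_image_of_mem _ hp.1.1)

theorem pc_norm (k : ℕ) (W : Finset ℤ) (c : ℤ → ℂ) (hc : ∀ t, ‖c t‖ ≤ 1) (u : ℤ) :
    ‖pc k W c u‖ ≤ ((Fintype.piFinset fun _ : Fin k => W).filter (fun g => ∑ i, g i = u)).card := by
  unfold pc
  calc _ ≤ ∑ g ∈ (Fintype.piFinset fun _ : Fin k => W).filter (fun g => ∑ i, g i = u), (1 : ℝ) := by
        apply norm_sum_le_of_le
        intro g _
        rw [norm_prod]
        exact prod_le_one (fun _ _ => norm_nonneg _) fun i _ => hc _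
    _ = _ := by simp

/-- **Large values and energies.** -/
theorem large_energy (N k : ℕ) (hN : 1 ≤ N) (hk : 1 ≤ k) (T V : ℝ) (hV : 0 ≤ V)
    (b : ℕ → ℂ) (hb : ∀ n ∈ Icc N (2 * N), ‖b n‖ ≤ 1) (W : Finset ℤ)
    (hW : ∀ t ∈ W, |(t : ℝ)| ≤ T ∧ V ≤ ‖∑ n ∈ Icc N (2 * N), b n *
      Complex.exp ((((t : ℝ) * Real.log n : ℝ) : ℂ) * Complex.I)‖) :
    ((W.card : ℝ) * V) ^ (2 * k) ≤
      ((N : ℝ) + 1) ^ (2 * k - 1) * (2 * Real.pi * (2 * N + 1 + 2 * (k * T))) * kEnergy k W := by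
  classical
  set D : ℤ → ℂ := fun t => ∑ n ∈ Icc N (2 * N), b n *
      Complex.exp ((((t : ℝ) * Real.log n : ℝ) : ℂ) * Complex.I) with hD
  set c : ℤ → ℂ := fun t => (starRingEnd ℂ) (D t) / ‖D t‖ with hc
  have hc1 : ∀ t, ‖c t‖ ≤ 1 := by
    intro t
    simp only [hc]
    rw [norm_div, RCLike.norm_conj, Complex.norm_real, norm_norm]
    exact div_self_le_one _
  have hcD : ∀ t, c t * D t = ‖D t‖ := by
    intro t
    simp only [hc]
    rw [div_mul_eq_mul_div, Complex.conj_mul']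
    rcases eq_or_ne (‖D t‖) 0 with h | h
    · simp [h]
    · have : ((‖D t‖ : ℝ) : ℂ) ≠ 0 := by exact_mod_cast h
      field_simp
  -- first step
  have h1 : (W.card : ℝ) * V ≤ ∑ n ∈ Icc N (2 * N), ‖ES W c (Real.log n)‖ := by
    have h2 : (W.card : ℝ) * V ≤ ∑ t ∈ W, ‖D t‖ := by
      rw [← nsmul_eq_mul]
      exact card_nsmul_le_sum _ _ _ fun t ht => (hW t ht).2
    have h3 : ((∑ t ∈ W, ‖D t‖ : ℝ) : ℂ) = ∑ n ∈ Icc N (2 * N), b n * ES W c (Real.log n) := by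
      push_cast
      simp_rw [← hcD]
      simp only [hD, ES, mul_sum]
      rw [sum_comm]
      apply sum_congr rfl
      intro n _
      apply sum_congr rfl
      intro t _
      ring
    have h4 : ∑ t ∈ W, ‖D t‖ ≤ ∑ n ∈ Icc N (2 * N), ‖ES W c (Real.log n)‖ := by
      have h5 : ‖((∑ t ∈ W, ‖D t‖ : ℝ) : ℂ)‖ = ∑ t ∈ W, ‖D t‖ := by
        rw [Complex.norm_real, Real.norm_of_nonneg (sum_nonneg fun _ _ => norm_nonneg _)]
      rw [← h5, h3]
      apply norm_sum_le_of_le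
      intro n hn
      rw [norm_mul]
      have := hb n hn
      have h6 := norm_nonneg (ES W c (Real.log n))
      nlinarith
    exact h2.trans h4
  -- power mean
  have hcard : ((Icc N (2 * N)).card : ℝ) = (N : ℝ) + 1 := by
    rw [Nat.card_Icc]
    have : 2 * N + 1 - N = N + 1 := by omega
    rw [this]
    push_cast
    ring
  have h2 : (∑ n ∈ Icc N (2 * N), ‖ES W c (Real.log n)‖) ^ (2 * k) ≤
      ((N : ℝ) + 1) ^ (2 * k - 1) * ∑ n ∈ Icc N (2 * N), ‖ES W c (Real.log n)‖ ^ (2 * k) := by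
    have h4 := pow_sum_div_card_le_sum_pow (s := Icc N (2 * N))
      (f := fun n : ℕ => ‖ES W c (Real.log n)‖) (fun n _ => norm_nonneg _) (2 * k - 1)
    rw [hcard, div_le_iff₀ (by positivity)] at h4
    have e : 2 * k - 1 + 1 = 2 * k := by omega
    rw [e] at h4
    linarith
  -- the sieve
  have h3 : ∑ n ∈ Icc N (2 * N), ‖ES W c (Real.log n)‖ ^ (2 * k) ≤
      2 * Real.pi * (2 * N + 1 + 2 * (k * T)) * kEnergy k W := by
    have h4 : ∀ n, ‖ES W c (Real.log n)‖ ^ (2 * k) = ‖ES (pU k W) (pc k W c) (Real.log n)‖ ^ 2 := by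
      intro n
      rw [← ES_pow, norm_pow, ← pow_mul, mul_comm k 2]
    simp_rw [h4]
    have h5 := dual_sieve N hN (k * T) (pU k W) (pc k W c) (by
      intro u hu
      unfold pU at hu
      rw [mem_image] at hu
      obtain ⟨g, hg, rfl⟩ := hu
      rw [Fintype.mem_piFinset] at hg
      push_cast
      calc |∑ i, (g i : ℝ)| ≤ ∑ i, |(g i : ℝ)| := abs_sum_le_sum_abs _ _
        _ ≤ ∑ _i : Fin k, T := sum_le_sum fun i _ => (hW _ (hg i)).1
        _ = k * T := by simp)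
    refine h5.trans ?_
    have h6 : ∑ u ∈ pU k W, ‖pc k W c u‖ ^ 2 ≤ kEnergy k W := by
      rw [← energy_eq]
      push_cast
      apply sum_le_sum
      intro u _
      have := pc_norm k W c hc1 u
      gcongr
    rcases W.eq_empty_or_nonempty with h0 | ⟨t₀, ht₀⟩
    · have : k ≠ 0 := by omega
      have h7 : pU k W = ∅ := by
        unfold pU
        rw [image_eq_empty, Fintype.piFinset_eq_empty]
        exact ⟨⟨0, by omega⟩, h0⟩
      have h8 : kEnergy k W = 0 := by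
        rw [← energy_eq, h7, sum_empty]
      rw [h7, h8]
      simp
    · have hT0 : 0 ≤ T := (abs_nonneg _).trans (hW t₀ ht₀).1
      have : 0 ≤ 2 * Real.pi * (2 * N + 1 + 2 * (k * T)) := by
        have := Real.pi_pos
        positivity
      exact mul_le_mul_of_nonneg_left h6 this
  calc ((W.card : ℝ) * V) ^ (2 * k) ≤ (∑ n ∈ Icc N (2 * N), ‖ES W c (Real.log n)‖) ^ (2 * k) := by
        gcongr
    _ ≤ ((N : ℝ) + 1) ^ (2 * k - 1) * ∑ n ∈ Icc N (2 * N), ‖ES W c (Real.log n)‖ ^ (2 * k) := h2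
    _ ≤ ((N : ℝ) + 1) ^ (2 * k - 1) *
        (2 * Real.pi * (2 * N + 1 + 2 * (k * T)) * kEnergy k W) := by
        gcongr
    _ = _ := by ring

/-- `B_k` sets: equal sums of `k` elements are equal up to the order of the summands -/
def IsBk (k : ℕ) (W : Finset ℤ) : Prop :=
  ∀ g h : Fin k → ℤ, (∀ i, g i ∈ W) → (∀ i, h i ∈ W) → ∑ i, g i = ∑ i, h i →
    ∃ π : Equiv.Perm (Fin k), h = g ∘ π

theorem energy_Bk (k : ℕ) (W : Finset ℤ) (h : IsBk k W) :
    kEnergy k W ≤ k.factorial * W.card ^ k := by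
  classical
  unfold kEnergy
  have h1 : (((Fintype.piFinset fun _ : Fin k => W) ×ˢ (Fintype.piFinset fun _ : Fin k => W)).filter
      fun p => ∑ i, p.1 i = ∑ i, p.2 i) ⊆
      ((Finset.univ : Finset (Equiv.Perm (Fin k))) ×ˢ (Fintype.piFinset fun _ : Fin k => W)).image
        fun q => (q.2, q.2 ∘ q.1) := by
    intro p hp
    rw [mem_filter, mem_product, Fintype.mem_piFinset, Fintype.mem_piFinset] at hp
    obtain ⟨π, hπ⟩ := h p.1 p.2 hp.1.1 hp.1.2 hp.2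
    rw [mem_image]
    refine ⟨(π, p.1), ?_, ?_⟩
    · rw [mem_product, Fintype.mem_piFinset]
      exact ⟨mem_univ _, hp.1.1⟩
    · simp only
      rw [← hπ]
  refine (card_le_card h1).trans (card_image_le.trans ?_)
  rw [card_product, card_univ, Fintype.card_perm, Fintype.card_fin, Fintype.card_piFinset]
  simp

/-- Q1 for the sets of small `k`-energy -/
theorem small_energy (A ε K : ℝ) (hA : 1 ≤ A) (k : ℕ) (hk : 1 ≤ k) (hkε : A - 1 ≤ k * ε)
    (hK : 0 ≤ K) : ∃ C : ℝ, ∀ (N : ℕ) (T σ : ℝ) (b : ℕ → ℂ) (W : Finset ℤ), 1 ≤ N →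
      T ≤ (N : ℝ) ^ A → (∀ n ∈ Icc N (2 * N), ‖b n‖ ≤ 1) →
      (∀ t ∈ W, 0 ≤ (t : ℝ) ∧ (t : ℝ) ≤ T ∧ (N : ℝ) ^ σ < ‖∑ n ∈ Icc N (2 * N), b n *
        Complex.exp ((((t : ℝ) * Real.log n : ℝ) : ℂ) * Complex.I)‖) →
      (kEnergy k W : ℝ) ≤ K * (W.card : ℝ) ^ k →
      (W.card : ℝ) ≤ C * (N : ℝ) ^ (2 - 2 * σ + ε) := by
  have hk0 : (k : ℝ) ≠ 0 := by
    have : k ≠ 0 := by omega
    exact_mod_cast this
  have hkp : (0 : ℝ) < k := by
    have : 0 < k := by omega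
    exact_mod_cast this
  have hpi := Real.pi_pos
  set C := (2 ^ (2 * k) * (2 * Real.pi * (3 + 2 * k)) * K) ^ (1 / (k : ℝ)) with hC
  have hC0 : 0 ≤ 2 ^ (2 * k) * (2 * Real.pi * (3 + 2 * k)) * K := by positivity
  have hCk : C ^ k = 2 ^ (2 * k) * (2 * Real.pi * (3 + 2 * k)) * K := by
    rw [hC, ← Real.rpow_natCast, ← Real.rpow_mul hC0, one_div, inv_mul_cancel₀ hk0, Real.rpow_one]
  have hCnn : 0 ≤ C := Real.rpow_nonneg hC0 _
  refine ⟨C, fun N T σ b W hN hT hb hW hE => ?_⟩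
  have hN1 : (1 : ℝ) ≤ N := by exact_mod_cast hN
  have hN0 : (0 : ℝ) < N := by linarith
  rcases W.eq_empty_or_nonempty with h0 | hne
  · rw [h0]
    simp only [card_empty, Nat.cast_zero]
    positivity
  have hW0 : (0 : ℝ) < W.card := by exact_mod_cast hne.card_pos
  have hV0 : (0 : ℝ) < (N : ℝ) ^ σ := Real.rpow_pos_of_pos hN0 _
  have h1 := large_energy N k hN hk ((N : ℝ) ^ A) ((N : ℝ) ^ σ) hV0.le b hb W (fun t ht => by
    obtain ⟨h1, h2, h3⟩ := hW t ht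
    exact ⟨by rw [abs_of_nonneg h1]; linarith, h3.le⟩)
  have hNA : (1 : ℝ) ≤ (N : ℝ) ^ A := Real.one_le_rpow hN1 (by linarith)
  have hNA1 : (N : ℝ) ≤ (N : ℝ) ^ A := by
    calc (N : ℝ) = (N : ℝ) ^ (1 : ℝ) := (Real.rpow_one _).symm
      _ ≤ _ := Real.rpow_le_rpow_of_exponent_le hN1 hA
  have h2 : 2 * (N : ℝ) + 1 + 2 * (k * (N : ℝ) ^ A) ≤ (3 + 2 * k) * (N : ℝ) ^ A := by
    nlinarith
  have h3 : ((W.card : ℝ) * (N : ℝ) ^ σ) ^ (2 * k) ≤
      (2 * (N : ℝ)) ^ (2 * k - 1) * (2 * Real.pi * ((3 + 2 * k) * (N : ℝ) ^ A)) *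
        (K * (W.card : ℝ) ^ k) := by
    refine h1.trans ?_
    have h4 : (N : ℝ) + 1 ≤ 2 * N := by linarith
    gcongr
  -- divide by `|W|^k`
  have h4 : (W.card : ℝ) ^ k * ((N : ℝ) ^ σ) ^ (2 * k) ≤
      (2 * (N : ℝ)) ^ (2 * k - 1) * (2 * Real.pi * ((3 + 2 * k) * (N : ℝ) ^ A)) * K := by
    have h5 : 0 < (W.card : ℝ) ^ k := by positivity
    have h6 : ((W.card : ℝ) * (N : ℝ) ^ σ) ^ (2 * k) =
        ((W.card : ℝ) ^ k * ((N : ℝ) ^ σ) ^ (2 * k)) * (W.card : ℝ) ^ k := by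
      rw [mul_pow, pow_mul, pow_mul]
      ring
    rw [h6] at h3
    have h7 : (2 * (N : ℝ)) ^ (2 * k - 1) * (2 * Real.pi * ((3 + 2 * k) * (N : ℝ) ^ A)) *
        (K * (W.card : ℝ) ^ k) = ((2 * (N : ℝ)) ^ (2 * k - 1) *
          (2 * Real.pi * ((3 + 2 * k) * (N : ℝ) ^ A)) * K) * (W.card : ℝ) ^ k := by ring
    rw [h7] at h3
    exact le_of_mul_le_mul_right h3 h5
  -- powers of `N`
  have h5 : (W.card : ℝ) ^ k ≤ (C * (N : ℝ) ^ (2 - 2 * σ + ε)) ^ k := by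
    have h6 : (W.card : ℝ) ^ k ≤ (2 * (N : ℝ)) ^ (2 * k - 1) *
        (2 * Real.pi * ((3 + 2 * k) * (N : ℝ) ^ A)) * K / ((N : ℝ) ^ σ) ^ (2 * k) := by
      rw [le_div_iff₀ (by positivity)]
      exact h4
    refine h6.trans ?_
    have h7 : (2 * (N : ℝ)) ^ (2 * k - 1) = 2 ^ (2 * k - 1) * (N : ℝ) ^ ((2 * k : ℝ) - 1) := by
      rw [mul_pow, ← Real.rpow_natCast (N : ℝ)]
      congr 2
      rw [Nat.cast_sub (by omega)]
      push_cast
      ring
    have h8 : ((N : ℝ) ^ σ) ^ (2 * k) = (N : ℝ) ^ (2 * k * σ) := by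
      rw [← Real.rpow_natCast, ← Real.rpow_mul hN0.le]
      congr 1
      push_cast
      ring
    have h9 : ((N : ℝ) ^ (2 - 2 * σ + ε)) ^ k = (N : ℝ) ^ (k * (2 - 2 * σ + ε)) := by
      rw [← Real.rpow_natCast, ← Real.rpow_mul hN0.le]
      congr 1
      ring
    rw [mul_pow C, hCk, h9, h8, h7]
    rw [div_le_iff₀ (Real.rpow_pos_of_pos hN0 _)]
    have e1 : (2 : ℝ) ^ (2 * k - 1) ≤ 2 ^ (2 * k) :=
      pow_le_pow_right₀ (by norm_num) (by omega)
    have e2 : (N : ℝ) ^ ((2 * k : ℝ) - 1) * (N : ℝ) ^ A ≤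
        (N : ℝ) ^ (k * (2 - 2 * σ + ε)) * (N : ℝ) ^ (2 * k * σ) := by
      rw [← Real.rpow_add hN0, ← Real.rpow_add hN0]
      apply Real.rpow_le_rpow_of_exponent_le hN1
      nlinarith
    calc 2 ^ (2 * k - 1) * (N : ℝ) ^ ((2 * k : ℝ) - 1) *
          (2 * Real.pi * ((3 + 2 * k) * (N : ℝ) ^ A)) * K
        = 2 ^ (2 * k - 1) * ((2 * Real.pi * (3 + 2 * k)) * K) *
          ((N : ℝ) ^ ((2 * k : ℝ) - 1) * (N : ℝ) ^ A) := by ring
      _ ≤ 2 ^ (2 * k) * ((2 * Real.pi * (3 + 2 * k)) * K) *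
          ((N : ℝ) ^ (k * (2 - 2 * σ + ε)) * (N : ℝ) ^ (2 * k * σ)) := by
          gcongr
      _ = _ := by ring
  exact le_of_pow_le_pow_left₀ (by omega) (by positivity) h5

end Pool.Agent.Helper95.LVT
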