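import Pool.Agent.Helper95.LVT.Pow

/-! # Many large values: alignment of smooth numbers -/

set_option autoImplicit false

namespace Pool.Agent.Helper95.LVT

open Finset Filter Topology

/-- `e^{i θ}` -/
noncomputable def ei (θ : ℝ) : ℂ := Complex.exp ((θ : ℂ) * Complex.I)

theorem ei_norm (θ : ℝ) : ‖ei θ‖ = 1 := Complex.norm_exp_ofReal_mul_I θ

theorem ei_add (x y : ℝ) : ei (x + y) = ei x * ei y := by
  unfold ei
  rw [← Complex.exp_add]
  congr 1
  push_cast
  ring

theorem ei_two_pi (n : ℤ) : ei (2 * Real.pi * n) = 1 := by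
  unfold ei
  rw [Complex.exp_eq_one_iff]
  refine ⟨n, ?_⟩
  push_cast
  ring

theorem ei_sub_one (θ : ℝ) : ‖ei θ - 1‖ ≤ |θ| := by
  have h := Real.norm_exp_I_mul_ofReal_sub_one_le (x := θ)
  unfold ei
  rw [mul_comm]
  simpa using h

/-- products -/
theorem list_close (t δ : ℝ) (l : List ℕ) (h0 : ∀ p ∈ l, p ≠ 0)
    (h : ∀ p ∈ l, ‖ei (t * Real.log (p : ℝ)) - 1‖ ≤ δ) :
    ‖ei (t * Real.log ((l.prod : ℕ) : ℝ)) - 1‖ ≤ l.length * δ := by
  induction l with
  | nil =>
    simp [ei]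
  | cons a l ih =>
    have ha := h a (by simp)
    have ih' := ih (fun p hp => h0 p (by simp [hp])) (fun p hp => h p (by simp [hp]))
    have ha0 : (a : ℝ) ≠ 0 := by exact_mod_cast h0 a (by simp)
    have hl0 : ((l.prod : ℕ) : ℝ) ≠ 0 := by
      have : l.prod ≠ 0 := List.prod_ne_zero fun hc => h0 0 (by simp [hc]) rfl
      exact_mod_cast this
    rw [List.prod_cons, Nat.cast_mul, Real.log_mul ha0 hl0, mul_add, ei_add]
    have e1 : ei (t * Real.log (a : ℝ)) * ei (t * Real.log ((l.prod : ℕ) : ℝ)) - 1 =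
        (ei (t * Real.log (a : ℝ)) - 1) * ei (t * Real.log ((l.prod : ℕ) : ℝ)) +
          (ei (t * Real.log ((l.prod : ℕ) : ℝ)) - 1) := by ring
    rw [e1, List.length_cons]
    calc _ ≤ _ := norm_add_le _ _
      _ ≤ δ + l.length * δ := by
          rw [norm_mul, ei_norm, mul_one]
          gcongr
      _ = _ := by push_cast; ring

/-- the number of prime factors -/
theorem length_le (n : ℕ) (hn : n ≠ 0) : (2 : ℝ) ^ n.primeFactorsList.length ≤ n := by
  have h1 : ∀ l : List ℕ, (∀ p ∈ l, 2 ≤ p) → 2 ^ l.length ≤ l.prod := by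
    intro l
    induction l with
    | nil => simp
    | cons a l ih =>
      intro h
      rw [List.length_cons, List.prod_cons, pow_succ, mul_comm]
      exact Nat.mul_le_mul (h a (by simp)) (ih fun p hp => h p (by simp [hp]))
  have h2 := h1 n.primeFactorsList fun p hp => (Nat.prime_of_mem_primeFactorsList hp).two_le
  rw [Nat.prod_primeFactorsList hn] at h2
  exact_mod_cast h2

/-- the integers in `[N, 2N]` without prime factors larger than `y` -/
noncomputable def sm (N y : ℕ) : Finset ℕ :=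
  (Icc N (2 * N)).filter fun n => ∀ p ∈ n.primeFactors, p ≤ y

/-- their indicator function -/
noncomputable def ind (N y : ℕ) (n : ℕ) : ℂ := if n ∈ sm N y then 1 else 0

theorem D_ind (N y : ℕ) (t : ℝ) : D N (ind N y) t = ∑ n ∈ sm N y, ei (t * Real.log (n : ℝ)) := by
  unfold D ind ei
  rw [← sum_filter_add_sum_filter_not (Icc N (2 * N)) (fun n => n ∈ sm N y)]
  have h1 : ∑ n ∈ (Icc N (2 * N)).filter (fun n => ¬ n ∈ sm N y), (if n ∈ sm N y then (1 : ℂ) else 0) *
      Complex.exp (((t * Real.log (n : ℝ) : ℝ) : ℂ) * Complex.I) = 0 := by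
    apply sum_eq_zero
    intro n hn
    rw [mem_filter] at hn
    rw [if_neg hn.2, zero_mul]
  rw [h1, add_zero]
  have h2 : (Icc N (2 * N)).filter (fun n => n ∈ sm N y) = sm N y := by
    ext n
    rw [mem_filter]
    constructor
    · exact fun h => h.2
    · intro h
      refine ⟨?_, h⟩
      unfold sm at h
      exact (mem_filter.1 h).1
  rw [h2]
  apply sum_congr rfl
  intro n hn
  rw [if_pos hn, one_mul]

/-- **alignment** -/
theorem D_large (N y : ℕ) (hN : 1 ≤ N) (t δ : ℝ) (hδ : 0 ≤ δ)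
    (ht : ∀ p, p.Prime → p ≤ y → ‖ei (t * Real.log (p : ℝ)) - 1‖ ≤ δ)
    (hδN : Real.log (2 * N) / Real.log 2 * δ ≤ 1 / 2) :
    ((sm N y).card : ℝ) / 2 ≤ ‖D N (ind N y) t‖ := by
  have hl2 : 0 < Real.log 2 := Real.log_pos (by norm_num)
  have h1 : ∀ n ∈ sm N y, ‖ei (t * Real.log (n : ℝ)) - 1‖ ≤ 1 / 2 := by
    intro n hn
    unfold sm at hn
    rw [mem_filter, mem_Icc] at hn
    have hn0 : n ≠ 0 := by omega
    have h2 := list_close t δ n.primeFactorsList
      (fun p hp => (Nat.prime_of_mem_primeFactorsList hp).ne_zero)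
      (fun p hp => ht p (Nat.prime_of_mem_primeFactorsList hp)
        (hn.2 p (Nat.mem_primeFactors.2 ⟨Nat.prime_of_mem_primeFactorsList hp,
          Nat.dvd_of_mem_primeFactorsList hp, hn0⟩)))
    rw [Nat.prod_primeFactorsList hn0] at h2
    refine h2.trans (le_trans ?_ hδN)
    gcongr
    rw [le_div_iff₀ hl2, ← Real.log_pow]
    apply Real.log_le_log (by positivity)
    refine (length_le n hn0).trans ?_
    exact_mod_cast hn.1.2
  rw [D_ind]
  have h3 : ‖∑ n ∈ sm N y, (ei (t * Real.log (n : ℝ)) - 1)‖ ≤ (sm N y).card / 2 := by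
    calc _ ≤ ∑ n ∈ sm N y, (1 / 2 : ℝ) := norm_sum_le_of_le _ h1
      _ = _ := by rw [sum_const, nsmul_eq_mul]; ring
  have h4 : ∑ n ∈ sm N y, ei (t * Real.log (n : ℝ)) =
      ((sm N y).card : ℂ) + ∑ n ∈ sm N y, (ei (t * Real.log (n : ℝ)) - 1) := by
    rw [sum_sub_distrib, sum_const, nsmul_eq_mul]
    ring
  rw [h4]
  have h5 : ‖((sm N y).card : ℂ)‖ = (sm N y).card := Complex.norm_natCast _
  have h6 := norm_sub_norm_le ((sm N y).card : ℂ) (-∑ n ∈ sm N y, (ei (t * Real.log (n : ℝ)) - 1))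
  rw [sub_neg_eq_add, norm_neg, h5] at h6
  linarith

/-- **pigeonhole principle** -/
theorem pigeon (P : Finset ℕ) (M H : ℕ) (hM : 1 ≤ M) : ∃ W : Finset ℕ,
    (∀ t ∈ W, t ≤ H) ∧ (∀ t ∈ W, ∀ p ∈ P, ‖ei (t * Real.log (p : ℝ)) - 1‖ ≤ 2 * Real.pi / M) ∧
      ((H : ℝ) + 1) / (M : ℝ) ^ P.card ≤ W.card := by
  classical
  have hM0 : (0 : ℝ) < M := by exact_mod_cast hM
  set fr : ℕ → ℕ → ℝ := fun t p => Int.fract ((t : ℝ) * Real.log (p : ℝ) / (2 * Real.pi)) with hfr
  set F : ℕ → (P → Fin M) := fun t p => ⟨⌊(M : ℝ) * fr t p⌋₊, by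
    rw [Nat.floor_lt (by
      have := Int.fract_nonneg ((t : ℝ) * Real.log ((p : ℕ) : ℝ) / (2 * Real.pi))
      positivity)]
    have h1 := Int.fract_lt_one ((t : ℝ) * Real.log ((p : ℕ) : ℝ) / (2 * Real.pi))
    calc (M : ℝ) * fr t p < M * 1 := by
          apply mul_lt_mul_of_pos_left h1 hM0
      _ = M := mul_one _⟩ with hF
  have hne : (univ : Finset (P → Fin M)).Nonempty := by
    have : Nonempty (Fin M) := ⟨⟨0, hM⟩⟩
    exact univ_nonempty
  obtain ⟨z, _, hz⟩ := exists_le_card_fiber_of_nsmul_le_card_of_maps_to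
    (s := range (H + 1)) (t := (univ : Finset (P → Fin M))) (f := F)
    (b := ((H : ℝ) + 1) / (M : ℝ) ^ P.card) (fun _ _ => mem_univ _) hne (by
      rw [card_univ, Fintype.card_fun, Fintype.card_fin, Fintype.card_coe, nsmul_eq_mul, card_range]
      push_cast
      rw [mul_div_cancel₀ _ (by positivity)])
  set G := (range (H + 1)).filter fun t => F t = z with hG
  have hGne : G.Nonempty := by
    rw [← card_pos]
    by_contra hcon
    have : G.card = 0 := by omega
    rw [this] at hz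
    have h2 : 0 < ((H : ℝ) + 1) / (M : ℝ) ^ P.card := by positivity
    simp only [Nat.cast_zero] at hz
    linarith
  set t0 := G.min' hGne with ht0
  have ht0G : t0 ∈ G := G.min'_mem hGne
  refine ⟨G.image fun t => t - t0, ?_, ?_, ?_⟩
  · intro t ht
    rw [mem_image] at ht
    obtain ⟨s, hs, rfl⟩ := ht
    rw [hG, mem_filter, mem_range] at hs
    omega
  · intro t ht p hp
    rw [mem_image] at ht
    obtain ⟨s, hs, rfl⟩ := ht
    have hle : t0 ≤ s := G.min'_le s hs
    have hFs : F s = z := (mem_filter.1 hs).2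
    have hFt : F t0 = z := (mem_filter.1 ht0G).2
    have h1 : ⌊(M : ℝ) * fr s p⌋₊ = ⌊(M : ℝ) * fr t0 p⌋₊ := by
      have h2 : F s ⟨p, hp⟩ = F t0 ⟨p, hp⟩ := by rw [hFs, hFt]
      exact congrArg Fin.val h2
    have hfr0 : ∀ u, 0 ≤ (M : ℝ) * fr u p := fun u => by
      have := Int.fract_nonneg ((u : ℝ) * Real.log (p : ℝ) / (2 * Real.pi))
      positivity
    have h3 : |fr s p - fr t0 p| ≤ 1 / M := by
      have a1 := Nat.floor_le (hfr0 s)
      have a2 := Nat.lt_floor_add_one ((M : ℝ) * fr s p)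
      have a3 := Nat.floor_le (hfr0 t0)
      have a4 := Nat.lt_floor_add_one ((M : ℝ) * fr t0 p)
      rw [h1] at a1 a2
      have a5 : |fr s p - fr t0 p| * M = |(fr s p - fr t0 p) * M| := by
        rw [abs_mul, abs_of_pos hM0]
      rw [le_div_iff₀ hM0, a5, abs_le]
      constructor <;> linarith
    -- the phase
    have hpi : (0 : ℝ) < 2 * Real.pi := by positivity
    have h4 : ((s - t0 : ℕ) : ℝ) * Real.log (p : ℝ) = 2 * Real.pi * (fr s p - fr t0 p) +
        2 * Real.pi * ((⌊(s : ℝ) * Real.log (p : ℝ) / (2 * Real.pi)⌋ -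
          ⌊(t0 : ℝ) * Real.log (p : ℝ) / (2 * Real.pi)⌋ : ℤ) : ℝ) := by
      rw [hfr]
      simp only
      unfold Int.fract
      rw [Nat.cast_sub hle]
      push_cast
      field_simp
      ring
    rw [h4, ei_add, ei_two_pi, mul_one]
    refine (ei_sub_one _).trans ?_
    rw [abs_mul, abs_of_pos hpi]
    calc 2 * Real.pi * |fr s p - fr t0 p| ≤ 2 * Real.pi * (1 / M) := by gcongr
      _ = _ := by ring
  · rw [card_image_of_injOn]
    · exact hz
    · intro s hs s' hs' hss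
      have h1 : t0 ≤ s := G.min'_le s hs
      have h2 : t0 ≤ s' := G.min'_le s' hs'
      have : s - t0 = s' - t0 := hss
      omega

/-- the odd primes up to `y` -/
noncomputable def oddP (y : ℕ) : Finset ℕ := (range (y + 1)).filter fun p => p.Prime ∧ p ≠ 2

/-- **many smooth numbers** -/
theorem sm_card (N y k : ℕ) (hy : 2 ≤ y) (hyk : y ^ k ≤ N) :
    (oddP y).card.choose k ≤ (sm N y).card := by
  classical
  have hN : 1 ≤ N := (Nat.one_le_pow _ _ (by omega)).trans hyk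
  -- multiples by powers of two
  have hj : ∀ m : ℕ, 1 ≤ m → m ≤ N → ∃ j, N ≤ m * 2 ^ j ∧ m * 2 ^ j ≤ 2 * N := by
    intro m hm1 hm2
    have hex : ∃ j, N ≤ m * 2 ^ j := ⟨N, by
      have := Nat.lt_two_pow_self (n := N)
      nlinarith⟩
    refine ⟨Nat.find hex, Nat.find_spec hex, ?_⟩
    rcases Nat.eq_zero_or_pos (Nat.find hex) with h | h
    · rw [h]
      omega
    · have h2 := Nat.find_min hex (m := Nat.find hex - 1) (by omega)
      push Not at h2
      have h3 : 2 ^ (Nat.find hex) = 2 * 2 ^ (Nat.find hex - 1) := by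
        rw [← pow_succ']
        congr 1
        omega
      rw [h3]
      nlinarith
  choose! j hj1 hj2 using hj
  have hA : ∀ A ∈ powersetCard k (oddP y), (∀ p ∈ A, p.Prime ∧ p ≠ 2 ∧ p ≤ y) ∧
      1 ≤ ∏ p ∈ A, p ∧ ∏ p ∈ A, p ≤ N := by
    intro A hA
    rw [mem_powersetCard] at hA
    have h1 : ∀ p ∈ A, p.Prime ∧ p ≠ 2 ∧ p ≤ y := by
      intro p hp
      have := hA.1 hp
      unfold oddP at this
      rw [mem_filter, mem_range] at this
      exact ⟨this.2.1, this.2.2, by omega⟩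
    refine ⟨h1, Nat.pos_of_ne_zero (prod_ne_zero_iff.2 fun p hp => (h1 p hp).1.ne_zero), ?_⟩
    calc ∏ p ∈ A, p ≤ ∏ _p ∈ A, y := prod_le_prod' fun p hp => (h1 p hp).2.2
      _ = y ^ k := by rw [prod_const, hA.2]
      _ ≤ N := hyk
  rw [← card_powersetCard]
  apply card_le_card_of_injOn (fun A => (∏ p ∈ A, p) * 2 ^ j (∏ p ∈ A, p))
  · intro A hAm
    obtain ⟨h1, h2, h3⟩ := hA A hAm
    rw [mem_coe]
    unfold sm
    rw [mem_filter, mem_Icc]
    refine ⟨⟨hj1 _ h2 h3, hj2 _ h2 h3⟩, ?_⟩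
    intro q hq'
    have hq := Nat.prime_of_mem_primeFactors hq'
    have hd := Nat.dvd_of_mem_primeFactors hq'
    rcases (Nat.Prime.dvd_mul hq).1 hd with h | h
    · obtain ⟨p, hp, hqp⟩ := (Nat.Prime.prime hq).exists_mem_finset_dvd h
      rw [(Nat.prime_dvd_prime_iff_eq hq (h1 p hp).1).1 hqp]
      exact (h1 p hp).2.2
    · have := (Nat.prime_dvd_prime_iff_eq hq Nat.prime_two).1 (hq.dvd_of_dvd_pow h)
      omega
  · intro A hAm B hBm hAB
    obtain ⟨a1, a2, _⟩ := hA A hAm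
    obtain ⟨b1, b2, _⟩ := hA B hBm
    have key : ∀ C : Finset ℕ, (∀ p ∈ C, p.Prime ∧ p ≠ 2 ∧ p ≤ y) → ∀ i : ℕ,
        ((∏ p ∈ C, p) * 2 ^ i).primeFactors.erase 2 = C := by
      intro C hC i
      have hC0 : ∏ p ∈ C, p ≠ 0 := prod_ne_zero_iff.2 fun p hp => (hC p hp).1.ne_zero
      rw [Nat.primeFactors_mul hC0 (by positivity), Nat.primeFactors_prod fun p hp => (hC p hp).1]
      ext p
      rw [mem_erase, mem_union]
      constructor
      · rintro ⟨hp2, hp | hp⟩
        · exact hp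
        · exfalso
          have h5 := Nat.prime_of_mem_primeFactors hp
          have h6 := Nat.dvd_of_mem_primeFactors hp
          exact hp2 ((Nat.prime_dvd_prime_iff_eq h5 Nat.prime_two).1 (h5.dvd_of_dvd_pow h6))
      · intro hp
        exact ⟨(hC p hp).2.1, Or.inl hp⟩
    have hAB' : (∏ p ∈ A, p) * 2 ^ j (∏ p ∈ A, p) = (∏ p ∈ B, p) * 2 ^ j (∏ p ∈ B, p) := hAB
    rw [← key A a1 (j (∏ p ∈ A, p)), ← key B b1 (j (∏ p ∈ B, p)), hAB']

theorem choose_ge (q k : ℕ) (hk : 1 ≤ k) (hqk : 2 * k ≤ q) :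
    ((q : ℝ) / (2 * k)) ^ k ≤ (q.choose k : ℝ) := by
  have h1 := Nat.pow_le_choose (α := ℝ) k q
  have h2 : ((k.factorial : ℕ) : ℝ) ≤ (k : ℝ) ^ k := by exact_mod_cast Nat.factorial_le_pow k
  have h3 : (0 : ℝ) < (k.factorial : ℕ) := by exact_mod_cast Nat.factorial_pos k
  have hk0 : (0 : ℝ) < k := by exact_mod_cast hk
  refine le_trans ?_ h1
  rw [div_pow, mul_pow]
  have h4 : (q : ℝ) / 2 ≤ ((q + 1 - k : ℕ) : ℝ) := by
    rw [Nat.cast_sub (by omega)]
    push_cast
    have : (2 * k : ℝ) ≤ q := by exact_mod_cast hqk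
    linarith
  calc (q : ℝ) ^ k / (2 ^ k * (k : ℝ) ^ k) = ((q : ℝ) / 2) ^ k / (k : ℝ) ^ k := by
        rw [div_pow]
        field_simp
    _ ≤ ((q + 1 - k : ℕ) : ℝ) ^ k / (k : ℝ) ^ k := by gcongr
    _ ≤ _ := by gcongr

theorem oddP_card (y : ℕ) :
    (y * Real.log 2 - Real.log (y + 1)) / Real.log y - 1 ≤ ((oddP y).card : ℝ) := by
  have h1 := Chebyshev.pi_ge y
  have h2 : Nat.primeCounting y ≤ (oddP y).card + 1 := by
    have h3 : ((range (y + 1)).filter Nat.Prime) ⊆ insert 2 (oddP y) := by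
      intro p hp
      rw [mem_filter] at hp
      rw [mem_insert]
      by_cases h : p = 2
      · exact Or.inl h
      · right
        unfold oddP
        rw [mem_filter]
        exact ⟨hp.1, hp.2, h⟩
    have h4 := card_le_card h3
    have h5 := card_insert_le 2 (oddP y)
    have h6 : Nat.primeCounting y = ((range (y + 1)).filter Nat.Prime).card := by
      rw [Nat.primeCounting, Nat.primeCounting', Nat.count_eq_card_filter_range]
    omega
  have h7 : (Nat.primeCounting y : ℝ) ≤ (oddP y).card + 1 := by exact_mod_cast h2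
  linarith

end Pool.Agent.Helper95.LVT
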