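import Pool.Agent.Helper95.LVT.Lower
import Pool.Agent.Helper95.LVT.Upper

/-! # Many large values: the asymptotics -/

set_option autoImplicit false

namespace Pool.Agent.Helper95.LVT

open Finset Filter Topology

/-- a crude lower bound for the number of the odd primes -/
theorem oddP_ev (η : ℝ) (h0 : 0 < η) (h1 : η < 1) : ∃ y0 : ℝ, 2 ≤ y0 ∧
    ∀ y : ℕ, y0 ≤ (y : ℝ) → (y : ℝ) ^ (1 - η) ≤ ((oddP y).card : ℝ) := by
  have e1 := ev_rpow (4 / η) (1 / 4) (1 - η / 2) 1 (by norm_num) (by linarith)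
  have e2 := ev_rpow 3 (1 / 4) (1 / 2) 1 (by norm_num) (by norm_num)
  obtain ⟨y0, hy0⟩ := eventually_atTop.1 (e1.and e2)
  refine ⟨max y0 2, le_max_right _ _, ?_⟩
  intro y hy
  have hy2 : (2 : ℝ) ≤ y := (le_max_right _ _).trans hy
  have hyp : (0 : ℝ) < y := by linarith
  obtain ⟨g1, g2⟩ := hy0 y ((le_max_left _ _).trans hy)
  rw [Real.rpow_one] at g1 g2
  have h2 := oddP_card y
  refine le_trans ?_ h2
  have hlog : 0 < Real.log y := Real.log_pos (by linarith)
  rw [le_sub_iff_add_le, le_div_iff₀ hlog]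
  have h3 : Real.log y ≤ (y : ℝ) ^ (η / 2) * (2 / η) := by
    have := Real.log_le_rpow_div (x := (y : ℝ)) hyp.le (ε := η / 2) (by positivity)
    calc _ ≤ _ := this
      _ = _ := by field_simp
  have h4 : Real.log (y + 1) ≤ 3 * (y : ℝ) ^ (1 / 2 : ℝ) := by
    have h5 := Real.log_le_rpow_div (x := (y : ℝ) + 1) (by positivity) (ε := 1 / 2) (by norm_num)
    have h6 : ((y : ℝ) + 1) ^ (1 / 2 : ℝ) ≤ (3 / 2) * (y : ℝ) ^ (1 / 2 : ℝ) := by
      calc ((y : ℝ) + 1) ^ (1 / 2 : ℝ) ≤ ((9 / 4) * (y : ℝ)) ^ (1 / 2 : ℝ) := by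
            apply Real.rpow_le_rpow (by positivity) (by linarith) (by norm_num)
        _ = _ := by
            rw [Real.mul_rpow (by norm_num) hyp.le]
            congr 1
            rw [show (9 / 4 : ℝ) = (3 / 2) ^ (2 : ℝ) by norm_num, ← Real.rpow_mul (by norm_num)]
            norm_num
    calc _ ≤ _ := h5
      _ = 2 * ((y : ℝ) + 1) ^ (1 / 2 : ℝ) := by ring
      _ ≤ _ := by linarith
  have h5 : (y : ℝ) ^ (1 - η) * (y : ℝ) ^ (η / 2) = (y : ℝ) ^ (1 - η / 2) := by
    rw [← Real.rpow_add hyp]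
    congr 1
    ring
  have h6 : (1 : ℝ) ≤ (y : ℝ) ^ (1 - η) := Real.one_le_rpow (by linarith) (by linarith)
  have hl2 : (1 : ℝ) / 2 ≤ Real.log 2 := by
    have := Real.log_two_gt_d9
    linarith
  calc ((y : ℝ) ^ (1 - η) + 1) * Real.log y ≤ (2 * (y : ℝ) ^ (1 - η)) * ((y : ℝ) ^ (η / 2) * (2 / η)) := by
        gcongr
        linarith
    _ = 4 / η * ((y : ℝ) ^ (1 - η) * (y : ℝ) ^ (η / 2)) := by ring
    _ = 4 / η * (y : ℝ) ^ (1 - η / 2) := by rw [h5]
    _ ≤ 1 / 4 * y := g1
    _ ≤ y * Real.log 2 - Real.log (y + 1) := by nlinarith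

/-- **Lower bound.** -/
theorem lower (a σ ε : ℝ) (ha : 1 < a) (hσ : σ < 1 - 1 / a) (hε : 0 < ε) : ∃ N₀ : ℕ, ∀ N : ℕ, N₀ ≤ N →
    ∃ (y : ℕ) (W : Finset ℕ), (∀ t ∈ W, (t : ℝ) ≤ Real.exp (Real.log N ^ a)) ∧
      (∀ t ∈ W, (N : ℝ) ^ σ < ‖D N (ind N y) t‖) ∧
      Real.exp (Real.log N ^ a) ^ (1 - ε) ≤ (W.card : ℝ) := by
  have ha0 : 0 < a := by linarith
  have h1a : 0 < 1 - 1 / a := by
    rw [sub_pos, div_lt_one ha0]
    exact ha
  -- parameters
  set σ1 := max σ 0 with hσ1
  have hσ10 : 0 ≤ σ1 := le_max_right _ _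
  have hσ1a : σ1 < 1 - 1 / a := max_lt hσ h1a
  set s := (σ1 + (1 - 1 / a)) / 2 with hs
  have hs1 : σ1 < s := by linarith
  have hs2 : s < 1 - 1 / a := by linarith
  have hs0 : 0 < s := by linarith
  have hs3 : s < 1 := by
    have : 0 < 1 / a := by positivity
    linarith
  set a' := 1 / (1 - s) with ha'
  have ha'1 : 1 < a' := by
    rw [ha', lt_div_iff₀ (by linarith)]
    linarith
  have ha'0 : 0 < a' := by linarith
  have ha'a : a' < a := by
    rw [ha', div_lt_iff₀ (by linarith)]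
    have h2 : a * (1 / a) = 1 := by field_simp
    nlinarith
  have ha's : 1 / a' = 1 - s := by rw [ha', one_div_one_div]
  set η := (s - σ1) / 5 with hη
  have hη0 : 0 < η := by rw [hη]; linarith
  have hηs : η < s := by rw [hη]; linarith
  have hη1 : η < 1 := by linarith
  obtain ⟨y0, hy02, hy0⟩ := oddP_ev η hη0 hη1
  set θ := (a - a') / 2 with hθ
  have hθ0 : 0 < θ := by rw [hθ]; linarith
  -- eventual inequalities for `x = log N`
  have t1 : ∀ᶠ x : ℝ in atTop, 2 * max y0 3 ≤ x ^ a' :=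
    (tendsto_rpow_atTop ha'0).eventually_ge_atTop _
  have t2 : ∀ᶠ x : ℝ in atTop, max 1 (1 / η) ≤ x := eventually_ge_atTop _
  have t3 : ∀ᶠ x : ℝ in atTop, (1 + 1 / a' + η) * Real.log 2 ≤ η * a' * Real.log x := by
    have : Tendsto (fun x : ℝ => η * a' * Real.log x) atTop atTop :=
      Real.tendsto_log_atTop.const_mul_atTop (by positivity)
    exact this.eventually_ge_atTop _
  have t4 : ∀ᶠ x : ℝ in atTop, (2 * a') * x ^ (1 / 2 : ℝ) ≤ η * x ^ (1 : ℝ) :=
    ev_rpow _ _ _ _ hη0 (by norm_num)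
  have t5 : ∀ᶠ x : ℝ in atTop, (2 * ((40 : ℝ) ^ θ / θ)) * x ^ (a' + θ) ≤ ε * x ^ a :=
    ev_rpow _ _ _ _ hε (by rw [hθ]; linarith)
  have t6 : ∀ᶠ x : ℝ in atTop, (2 * 2) * x ^ (1 : ℝ) ≤ 1 * x ^ (a' * (1 - η)) := by
    apply ev_rpow _ _ _ _ (by norm_num)
    rw [ha', one_div, inv_mul_eq_div, lt_div_iff₀ (by linarith)]
    linarith
  have hall := (t1.and (t2.and (t3.and (t4.and (t5.and t6)))))
  have htend : Tendsto (fun N : ℕ => Real.log N) atTop atTop :=
    Real.tendsto_log_atTop.comp tendsto_natCast_atTop_atTop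
  obtain ⟨N₀, hN₀⟩ := eventually_atTop.1 (htend.eventually hall)
  refine ⟨max N₀ 1, fun N hN => ?_⟩
  have hN1' : 1 ≤ N := (le_max_right _ _).trans hN
  have hN1 : (1 : ℝ) ≤ N := by exact_mod_cast hN1'
  have hN0 : (0 : ℝ) < N := by linarith
  obtain ⟨g1, g2, g3, g4, g5, g6⟩ := hN₀ N ((le_max_left _ _).trans hN)
  set x := Real.log N with hx
  have hx1 : 1 ≤ x := (le_max_left _ _).trans g2
  have hx0 : 0 < x := by linarith
  have hxη : 1 / η ≤ x := (le_max_right _ _).trans g2
  rw [Real.rpow_one] at g4 g6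
  -- the choice of `y`
  set y := ⌊x ^ a'⌋₊ with hy
  have hyle : (y : ℝ) ≤ x ^ a' := Nat.floor_le (by positivity)
  have hygt : x ^ a' < y + 1 := Nat.lt_floor_add_one _
  have hyge : x ^ a' / 2 ≤ y := by
    have : (3 : ℝ) ≤ max y0 3 := le_max_right _ _
    linarith
  have hy3 : (3 : ℝ) ≤ y := by
    have : (3 : ℝ) ≤ max y0 3 := le_max_right _ _
    linarith
  have hyy0 : y0 ≤ (y : ℝ) := by
    have : y0 ≤ max y0 3 := le_max_left _ _
    linarith
  have hyp : (0 : ℝ) < y := by linarith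
  have hly1 : 1 ≤ Real.log y := by
    rw [Real.le_log_iff_exp_le hyp]
    have := Real.exp_one_lt_d9
    linarith
  have hly0 : 0 < Real.log y := by linarith
  set k := ⌊x / Real.log y⌋₊ with hk
  have hkle : (k : ℝ) ≤ x / Real.log y := Nat.floor_le (by positivity)
  have hkgt : x / Real.log y < k + 1 := Nat.lt_floor_add_one _
  have hkx : (k : ℝ) ≤ x := hkle.trans (div_le_self hx0.le hly1)
  -- bounds for `log y`
  have hlogy1 : Real.log y ≤ a' * Real.log x := by
    rw [← Real.log_rpow hx0]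
    exact Real.log_le_log hyp hyle
  have hlogy2 : a' * Real.log x - Real.log 2 ≤ Real.log y := by
    rw [← Real.log_rpow hx0, ← Real.log_div (by positivity) (by norm_num)]
    exact Real.log_le_log (by positivity) hyge
  have hlogx : Real.log x ≤ 2 * x ^ (1 / 2 : ℝ) := by
    have := Real.log_le_rpow_div hx0.le (ε := 1 / 2) (by norm_num)
    calc _ ≤ _ := this
      _ = _ := by ring
  have hlogyx : Real.log y ≤ η * x := by
    calc Real.log y ≤ a' * Real.log x := hlogy1
      _ ≤ a' * (2 * x ^ (1 / 2 : ℝ)) := by gcongr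
      _ = (2 * a') * x ^ (1 / 2 : ℝ) := by ring
      _ ≤ _ := g4
  have hk1 : 1 ≤ k := by
    rw [hk, Nat.one_le_floor_iff, one_le_div hly0]
    have : η * x ≤ x := by nlinarith
    linarith
  -- the number of primes
  set q := (oddP y).card with hq
  have hqy : (y : ℝ) ^ (1 - η) ≤ q := hy0 y hyy0
  have h1η : 0 < 1 - η := by linarith
  have hqx : 2 * x ≤ (y : ℝ) ^ (1 - η) := by
    calc 2 * x ≤ x ^ (a' * (1 - η)) / 2 := by linarith
      _ = (x ^ a') ^ (1 - η) / 2 := by rw [Real.rpow_mul hx0.le]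
      _ ≤ (x ^ a') ^ (1 - η) / 2 ^ (1 - η) := by
          apply div_le_div_of_nonneg_left (by positivity) (by positivity)
          calc (2 : ℝ) ^ (1 - η) ≤ (2 : ℝ) ^ (1 : ℝ) :=
                Real.rpow_le_rpow_of_exponent_le (by norm_num) (by linarith)
            _ = 2 := Real.rpow_one _
      _ = (x ^ a' / 2) ^ (1 - η) := by rw [Real.div_rpow (by positivity) (by norm_num)]
      _ ≤ _ := by gcongr
  have hqk : 2 * k ≤ q := by
    have : (2 * k : ℝ) ≤ q := by linarith
    exact_mod_cast this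
  have hyk : y ^ k ≤ N := by
    have h2 : ((y : ℝ)) ^ k ≤ N := by
      rw [← Real.log_le_log_iff (by positivity) hN0, Real.log_pow, ← hx]
      calc (k : ℝ) * Real.log y ≤ x / Real.log y * Real.log y := by gcongr
        _ = x := by field_simp
    exact_mod_cast h2
  have hsm := sm_card N y k (by
    have : (2 : ℝ) ≤ y := by linarith
    exact_mod_cast this) hyk
  have hch := choose_ge q k hk1 hqk
  have hcount : Real.exp 2 * (N : ℝ) ^ σ ≤ ((sm N y).card : ℝ) := by
    have h2 : (q.choose k : ℝ) ≤ (sm N y).card := by exact_mod_cast hsm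
    refine le_trans ?_ (hch.trans h2)
    have hk0 : (0 : ℝ) < k := by exact_mod_cast hk1
    have h3 : (y : ℝ) ^ (1 - η) / (2 * x) ≤ (q : ℝ) / (2 * k) := by gcongr
    have h4 : 1 ≤ (y : ℝ) ^ (1 - η) / (2 * x) := by
      rw [one_le_div (by positivity)]
      exact hqx
    refine le_trans ?_ (pow_le_pow_left₀ (by positivity) h3 k)
    have h5 : ((y : ℝ) ^ (1 - η) / (2 * x)) ^ k =
        Real.exp (k * ((1 - η) * Real.log y - Real.log (2 * x))) := by
      rw [Real.exp_nat_mul, Real.exp_sub, Real.exp_log (by positivity), mul_comm (1 - η),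
        ← Real.rpow_def_of_pos hyp]
    rw [h5, Real.rpow_def_of_pos hN0, ← Real.exp_add]
    apply Real.exp_le_exp.2
    rw [← hx]
    set L := Real.log y with hL
    have h6 : 0 ≤ (1 - η) * L - Real.log (2 * x) := by
      have := Real.log_nonneg h4
      rwa [Real.log_div (by positivity) (by positivity), Real.log_rpow hyp] at this
    have h7 : Real.log (2 * x) ≤ (1 / a' + η) * L := by
      rw [Real.log_mul (by norm_num) hx0.ne']
      have h8 : (1 / a' + η) * (a' * Real.log x - Real.log 2) ≤ (1 / a' + η) * L := by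
        apply mul_le_mul_of_nonneg_left hlogy2
        positivity
      have h9 : (1 / a' + η) * (a' * Real.log x - Real.log 2) =
          Real.log x + η * a' * Real.log x - (1 / a' + η) * Real.log 2 := by
        field_simp
      linarith
    have h10 : (x / L - 1) * ((1 - η) * L - Real.log (2 * x)) ≤
        k * ((1 - η) * L - Real.log (2 * x)) := by
      apply mul_le_mul_of_nonneg_right _ h6
      linarith
    have h11 : (x / L - 1) * ((1 - η) * L - Real.log (2 * x)) =
        (1 - η) * x - x / L * Real.log (2 * x) - (1 - η) * L + Real.log (2 * x) := by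
      field_simp
      ring
    have h12 : x / L * Real.log (2 * x) ≤ (1 / a' + η) * x := by
      calc x / L * Real.log (2 * x) ≤ x / L * ((1 / a' + η) * L) := by gcongr
        _ = _ := by field_simp
    have h13 : 0 ≤ Real.log (2 * x) := Real.log_nonneg (by linarith)
    have h14 : (1 - η) * L ≤ η * x := by
      calc (1 - η) * L ≤ 1 * L := by gcongr; linarith
        _ = L := one_mul _
        _ ≤ _ := hlogyx
    have h15 : x * σ ≤ x * σ1 := by
      apply mul_le_mul_of_nonneg_left (le_max_left _ _) hx0.le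
    have h16 : 1 ≤ η * x := by
      rw [div_le_iff₀ hη0] at hxη
      linarith
    rw [ha's] at h12
    have h17 : s = σ1 + 5 * η := by rw [hη]; ring
    have h18 : (1 - η) * x - (1 - s + η) * x - η * x = (σ1 + 2 * η) * x := by
      rw [h17]; ring
    linarith
  -- the points
  set M := ⌈4 * Real.pi * (Real.log (2 * N) / Real.log 2)⌉₊ with hM
  have hl2 : 0 < Real.log 2 := Real.log_pos (by norm_num)
  have hl2a : (0.69 : ℝ) ≤ Real.log 2 := by
    have := Real.log_two_gt_d9
    linarith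
  have hl2b : Real.log 2 ≤ 1 := by
    have := Real.log_two_lt_d9
    linarith
  have hl2N : Real.log (2 * N) = x + Real.log 2 := by
    rw [Real.log_mul (by norm_num) hN0.ne', hx]
    ring
  have hMge : 4 * Real.pi * (Real.log (2 * N) / Real.log 2) ≤ M := Nat.le_ceil _
  have hMpos : 0 < 4 * Real.pi * (Real.log (2 * N) / Real.log 2) := by
    rw [hl2N]
    positivity
  have hM0 : (0 : ℝ) < M := lt_of_lt_of_le hMpos hMge
  have hM1 : 1 ≤ M := by exact_mod_cast hM0
  have hMle : (M : ℝ) ≤ 40 * x := by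
    have h2 : (M : ℝ) < 4 * Real.pi * (Real.log (2 * N) / Real.log 2) + 1 := Nat.ceil_lt_add_one hMpos.le
    have h3 : Real.pi < 3.15 := Real.pi_lt_d2
    have h4 : Real.log (2 * N) / Real.log 2 ≤ 3 * x := by
      rw [hl2N, div_le_iff₀ hl2]
      nlinarith
    have h5 : Real.pi * (Real.log (2 * N) / Real.log 2) ≤ 3.15 * (3 * x) := by
      apply mul_le_mul h3.le h4 _ (by norm_num)
      rw [hl2N]
      positivity
    nlinarith
  set P := (range (y + 1)).filter Nat.Prime with hP
  obtain ⟨W, hW1, hW2, hW3⟩ := pigeon P M ⌊Real.exp (x ^ a)⌋₊ hM1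
  refine ⟨y, W, ?_, ?_, ?_⟩
  · intro t ht
    have h2 : (t : ℝ) ≤ ⌊Real.exp (x ^ a)⌋₊ := by exact_mod_cast hW1 t ht
    exact h2.trans (Nat.floor_le (Real.exp_pos _).le)
  · intro t ht
    have h2 := D_large N y hN1' t (2 * Real.pi / M) (by positivity) (by
      intro p hp hpy
      apply hW2 t ht p
      rw [hP, mem_filter, mem_range]
      exact ⟨by omega, hp⟩) (by
      rw [← mul_div_assoc, div_le_iff₀ hM0]
      linarith)
    refine lt_of_lt_of_le ?_ h2
    have h3 : (0 : ℝ) < (N : ℝ) ^ σ := by positivity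
    have h4 : (2 : ℝ) < Real.exp 2 := by
      have := Real.add_one_lt_exp (x := (2 : ℝ)) (by norm_num)
      linarith
    nlinarith
  · have h2 : Real.exp (x ^ a) ≤ ((⌊Real.exp (x ^ a)⌋₊ : ℕ) : ℝ) + 1 := (Nat.lt_floor_add_one _).le
    refine le_trans ?_ hW3
    rw [le_div_iff₀ (by positivity)]
    refine le_trans ?_ h2
    have hPc : (P.card : ℝ) ≤ 2 * x ^ a' := by
      have h3 : P.card ≤ y + 1 := by
        rw [hP]
        refine (card_filter_le _ _).trans ?_
        rw [card_range]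
      have h4 : (P.card : ℝ) ≤ y + 1 := by exact_mod_cast h3
      have h5 : (1 : ℝ) ≤ x ^ a' := Real.one_le_rpow hx1 ha'0.le
      linarith
    have hMP : (M : ℝ) ^ P.card ≤ Real.exp (ε * x ^ a) := by
      have hM1' : (1 : ℝ) ≤ M := by exact_mod_cast hM1
      have hlM : Real.log M ≤ (40 : ℝ) ^ θ / θ * x ^ θ := by
        calc Real.log M ≤ Real.log (40 * x) := Real.log_le_log hM0 hMle
          _ ≤ (40 * x) ^ θ / θ := Real.log_le_rpow_div (by positivity) hθ0
          _ = _ := by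
              rw [Real.mul_rpow (by norm_num) hx0.le]
              ring
      have hlM0 : 0 ≤ Real.log M := Real.log_nonneg hM1'
      have h3 : (M : ℝ) ^ P.card = Real.exp (P.card * Real.log M) := by
        rw [Real.exp_nat_mul, Real.exp_log hM0]
      rw [h3]
      apply Real.exp_le_exp.2
      calc (P.card : ℝ) * Real.log M ≤ (2 * x ^ a') * ((40 : ℝ) ^ θ / θ * x ^ θ) := by gcongr
        _ = (2 * ((40 : ℝ) ^ θ / θ)) * x ^ (a' + θ) := by
            rw [Real.rpow_add hx0]
            ring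
        _ ≤ _ := g5
    calc Real.exp (x ^ a) ^ (1 - ε) * (M : ℝ) ^ P.card
        ≤ Real.exp (x ^ a) ^ (1 - ε) * Real.exp (ε * x ^ a) := by gcongr
      _ = Real.exp (x ^ a) := by
          rw [← Real.exp_mul, ← Real.exp_add]
          congr 1
          ring

end Pool.Agent.Helper95.LVT
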