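import Pool.Agent.Helper95.LVT.Sums
import Pool.Graph.R_seed8.H31R2.DH.MVd

/-! # Powers of Dirichlet polynomials and the mean value theorem -/

set_option autoImplicit false

namespace Pool.Agent.Helper95.LVT

open Finset

/-- `D(t) = ∑_{N ≤ n ≤ 2N} b_n n^{it}` -/
noncomputable def D (N : ℕ) (b : ℕ → ℂ) (t : ℝ) : ℂ :=
  ∑ n ∈ Icc N (2 * N), b n * Complex.exp (((t * Real.log (n : ℝ) : ℝ) : ℂ) * Complex.I)

/-- the coefficients of the power -/
noncomputable def cf (N : ℕ) (b : ℕ → ℂ) (k m : ℕ) : ℂ :=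
  ∑ f ∈ (Fintype.piFinset (fun _ : Fin k => Icc N (2 * N))).filter (fun f => ∏ i, f i = m),
    ∏ i, b (f i)

theorem exp_prod {k : ℕ} (t : ℝ) (f : Fin k → ℕ) (hf : ∀ i, f i ≠ 0) :
    ∏ i, Complex.exp (((t * Real.log (f i : ℝ) : ℝ) : ℂ) * Complex.I) =
      Complex.exp (((t * Real.log ((∏ i, f i : ℕ) : ℝ) : ℝ) : ℂ) * Complex.I) := by
  rw [← Complex.exp_sum, Nat.cast_prod, Real.log_prod (fun i _ => by exact_mod_cast hf i), mul_sum]
  push_cast
  rw [sum_mul]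

theorem D_pow (N : ℕ) (hN : 1 ≤ N) (b : ℕ → ℂ) (k : ℕ) (t : ℝ) :
    D N b t ^ k = ∑ m ∈ Icc 1 ((2 * N) ^ k), cf N b k m *
      Complex.exp (((t * Real.log (m : ℝ) : ℝ) : ℂ) * Complex.I) := by
  classical
  set P := Fintype.piFinset (fun _ : Fin k => Icc N (2 * N)) with hP
  have hf0 : ∀ f ∈ P, ∀ i, f i ≠ 0 := by
    intro f hf i
    rw [hP, Fintype.mem_piFinset] at hf
    have := hf i
    rw [mem_Icc] at this
    omega
  have hmaps : ∀ f ∈ P, ∏ i, f i ∈ Icc 1 ((2 * N) ^ k) := by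
    intro f hf
    rw [mem_Icc]
    constructor
    · exact Nat.pos_of_ne_zero (prod_ne_zero_iff.2 fun i _ => hf0 f hf i)
    · calc ∏ i, f i ≤ ∏ _i : Fin k, (2 * N) := by
            apply prod_le_prod (fun _ _ => Nat.zero_le _)
            intro i _
            rw [hP, Fintype.mem_piFinset] at hf
            exact (mem_Icc.1 (hf i)).2
        _ = (2 * N) ^ k := by rw [prod_const, card_univ, Fintype.card_fin]
  calc D N b t ^ k = ∑ f ∈ P, ∏ i, (b (f i) *
        Complex.exp (((t * Real.log (f i : ℝ) : ℝ) : ℂ) * Complex.I)) := by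
        unfold D
        rw [sum_pow']
    _ = ∑ m ∈ Icc 1 ((2 * N) ^ k), ∑ f ∈ P.filter (fun f => ∏ i, f i = m), ∏ i, (b (f i) *
        Complex.exp (((t * Real.log (f i : ℝ) : ℝ) : ℂ) * Complex.I)) := by
        rw [sum_fiberwise_of_maps_to hmaps]
    _ = _ := by
        apply sum_congr rfl
        intro m _
        unfold cf
        rw [sum_mul]
        apply sum_congr rfl
        intro f hf
        rw [mem_filter] at hf
        rw [prod_mul_distrib, exp_prod t f (hf0 f hf.1), hf.2]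

theorem cf_norm (N : ℕ) (hN : 1 ≤ N) (b : ℕ → ℂ) (hb : ∀ n ∈ Icc N (2 * N), ‖b n‖ ≤ 1) (k m : ℕ) :
    ‖cf N b k m‖ ≤ rk k (2 * N) m := by
  classical
  unfold cf rk
  calc _ ≤ ∑ f ∈ (Fintype.piFinset (fun _ : Fin k => Icc N (2 * N))).filter
        (fun f => ∏ i, f i = m), (1 : ℝ) := by
        apply norm_sum_le_of_le
        intro f hf
        rw [mem_filter, Fintype.mem_piFinset] at hf
        rw [norm_prod]
        exact prod_le_one (fun _ _ => norm_nonneg _) fun i _ => hb _ (hf.1 i)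
    _ = (((Fintype.piFinset (fun _ : Fin k => Icc N (2 * N))).filter
        (fun f => ∏ i, f i = m)).card : ℝ) := by simp
    _ ≤ _ := by
        norm_cast
        apply card_le_card
        intro f hf
        rw [mem_filter, Fintype.mem_piFinset] at hf ⊢
        refine ⟨fun i => ?_, hf.2⟩
        have := hf.1 i
        rw [mem_Icc] at this ⊢
        omega

theorem norm_D_pow (N : ℕ) (hN : 1 ≤ N) (b : ℕ → ℂ) (k : ℕ) (t : ℝ) :
    ‖D N b t‖ ^ k = ‖DH31.dp (fun m => (starRingEnd ℂ) (cf N b k m)) ((2 * N) ^ k) t‖ := by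
  rw [← norm_pow, D_pow N hN b k t, ← RCLike.norm_conj]
  congr 1
  unfold DH31.dp
  rw [map_sum]
  apply sum_congr rfl
  intro m hm
  rw [mem_Icc] at hm
  have hm0 : (m : ℂ) ≠ 0 := by
    have : m ≠ 0 := by omega
    exact_mod_cast this
  rw [map_mul, Complex.cpow_def_of_ne_zero hm0, ← Complex.exp_conj]
  congr 2
  rw [map_mul, Complex.conj_ofReal, Complex.conj_I, ← Complex.natCast_log]
  push_cast
  ring

/-- **The mean value theorem for the powers.** -/
theorem power_mv (α : ℝ) (hα : 1 / 2 < α) (hα1 : α < 1) : ∃ C : ℝ, 0 < C ∧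
    ∀ (N k : ℕ) (T V : ℝ) (b : ℕ → ℂ) (W : Finset ℤ), 1 ≤ N → 1 ≤ k → 0 ≤ T → 0 ≤ V →
      (∀ n ∈ Icc N (2 * N), ‖b n‖ ≤ 1) →
      (∀ t ∈ W, 0 ≤ (t : ℝ) ∧ (t : ℝ) ≤ T ∧ V ≤ ‖D N b t‖) →
      (W.card : ℝ) * V ^ (2 * k) ≤ (2 + (k * Real.log (2 * N)) ^ 2) *
        (T + 1 + 8 * (2 * N : ℝ) ^ k * (1 + k * Real.log (2 * N))) *
          ((2 * N : ℝ) ^ (2 * α * k) * Real.exp (C * (k : ℝ) ^ (1 / α))) := by
  classical
  obtain ⟨C, hC, hE⟩ := energy_bound α hα hα1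
  refine ⟨C, hC, ?_⟩
  intro N k T V b W hN hk hT hV hb hW
  set S := W.image Int.toNat with hS
  have hcard : S.card = W.card := by
    rw [hS]
    apply card_image_of_injOn
    intro x hx y hy hxy
    have h1 := (hW x hx).1
    have h2 := (hW y hy).1
    have h1' : 0 ≤ x := by exact_mod_cast h1
    have h2' : 0 ≤ y := by exact_mod_cast h2
    have : x.toNat = y.toNat := hxy
    omega
  have hSr : S ⊆ range (⌊T⌋₊ + 1) := by
    intro n hn
    rw [hS, mem_image] at hn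
    obtain ⟨x, hx, rfl⟩ := hn
    rw [mem_range, Nat.lt_succ_iff, Nat.le_floor_iff hT]
    have h1 : 0 ≤ x := by exact_mod_cast (hW x hx).1
    have h2 : ((x.toNat : ℕ) : ℝ) = x := by
      have : ((x.toNat : ℤ)) = x := Int.toNat_of_nonneg h1
      exact_mod_cast congrArg (Int.cast : ℤ → ℝ) this
    rw [h2]
    exact (hW x hx).2.1
  have hmv := DH31.discrete_mv (fun m => (starRingEnd ℂ) (cf N b k m)) ((2 * N) ^ k) (⌊T⌋₊ + 1) S hSr
    (fun n => (n : ℝ)) (fun n _ => ⟨le_rfl, by simp⟩)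
  have hlow : (W.card : ℝ) * V ^ (2 * k) ≤
      ∑ n ∈ S, ‖DH31.dp (fun m => (starRingEnd ℂ) (cf N b k m)) ((2 * N) ^ k) (n : ℝ)‖ ^ 2 := by
    rw [← hcard, ← nsmul_eq_mul]
    apply card_nsmul_le_sum
    intro n hn
    rw [hS, mem_image] at hn
    obtain ⟨x, hx, rfl⟩ := hn
    have h1 : 0 ≤ x := by exact_mod_cast (hW x hx).1
    have h2 : ((x.toNat : ℕ) : ℝ) = x := by
      have : ((x.toNat : ℤ)) = x := Int.toNat_of_nonneg h1
      exact_mod_cast congrArg (Int.cast : ℤ → ℝ) this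
    rw [← norm_D_pow N hN b k, h2, ← pow_mul, mul_comm k 2]
    gcongr
    exact (hW x hx).2.2
  have hen : ∑ n ∈ Icc 1 ((2 * N) ^ k), ‖(starRingEnd ℂ) (cf N b k n)‖ ^ 2 ≤
      (2 * N : ℝ) ^ (2 * α * k) * Real.exp (C * (k : ℝ) ^ (1 / α)) := by
    calc _ ≤ ∑ n ∈ Icc 1 ((2 * N) ^ k), (rk k (2 * N) n : ℝ) ^ 2 := by
          apply sum_le_sum
          intro n _
          rw [RCLike.norm_conj]
          have := cf_norm N hN b hb k n
          gcongr
      _ ≤ ((2 * N : ℕ) : ℝ) ^ (2 * α * k) * Real.exp (C * (k : ℝ) ^ (1 / α)) := hE k (2 * N) _ hk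
      _ = _ := by push_cast; rfl
  have hlog : Real.log (((2 * N) ^ k : ℕ) : ℝ) = k * Real.log (2 * N) := by
    push_cast
    rw [Real.log_pow]
  have hlog0 : 0 ≤ Real.log (2 * N : ℝ) := by
    apply Real.log_nonneg
    have : (1 : ℝ) ≤ N := by exact_mod_cast hN
    linarith
  rw [hlog] at hmv
  have hfl : ((⌊T⌋₊ + 1 : ℕ) : ℝ) ≤ T + 1 := by
    push_cast
    have := Nat.floor_le hT
    linarith
  calc (W.card : ℝ) * V ^ (2 * k) ≤ _ := hlow
    _ ≤ _ := hmv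
    _ ≤ (2 + (k * Real.log (2 * N)) ^ 2) *
        (T + 1 + 8 * (2 * N : ℝ) ^ k * (1 + k * Real.log (2 * N))) *
        ∑ n ∈ Icc 1 ((2 * N) ^ k), ‖(starRingEnd ℂ) (cf N b k n)‖ ^ 2 := by
        gcongr
        push_cast
        rfl
    _ ≤ _ := by gcongr

end Pool.Agent.Helper95.LVT
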