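import Mathlib

/-! # The dual large sieve for the points `log n` -/

set_option autoImplicit false

namespace Pool.Agent.Helper95.LVT

open Finset MeasureTheory

/-- exponential sum with integer frequencies -/
noncomputable def ES (U : Finset ℤ) (a : ℤ → ℂ) (x : ℝ) : ℂ :=
  ∑ u ∈ U, a u * Complex.exp ((((u : ℝ) * x : ℝ) : ℂ) * Complex.I)

theorem ES_deriv (U : Finset ℤ) (a : ℤ → ℂ) (x : ℝ) :
    HasDerivAt (ES U a) (ES U (fun u => a u * ((u : ℂ) * Complex.I)) x) x := by
  unfold ES
  refine HasDerivAt.fun_sum fun u _ => ?_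
  have h1 : HasDerivAt (fun z : ℂ => (u : ℂ) * z * Complex.I) ((u : ℂ) * Complex.I) (x : ℂ) := by
    simpa using ((hasDerivAt_id (x : ℂ)).const_mul (u : ℂ)).mul_const Complex.I
  have h2 := (h1.cexp.const_mul (a u)).comp_ofReal
  refine (h2.congr_deriv ?_).congr_of_eventuallyEq ?_
  · push_cast
    ring
  · refine Filter.Eventually.of_forall fun y => ?_
    simp only
    push_cast
    ring_nf

theorem ES_cont (U : Finset ℤ) (a : ℤ → ℂ) : Continuous (ES U a) :=
  continuous_iff_continuousAt.2 fun x => (ES_deriv U a x).continuousAt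

/-- orthogonality -/
theorem orth (m : ℤ) (x₀ : ℝ) :
    ∫ x in x₀..(x₀ + 2 * Real.pi), Complex.exp ((((m : ℝ) * x : ℝ) : ℂ) * Complex.I) =
      if m = 0 then 2 * (Real.pi : ℂ) else 0 := by
  split_ifs with h
  · subst h
    simp
  · have hc : ((m : ℂ) * Complex.I) ≠ 0 := mul_ne_zero (by exact_mod_cast h) Complex.I_ne_zero
    have h1 : ∀ x : ℝ, Complex.exp ((((m : ℝ) * x : ℝ) : ℂ) * Complex.I) =
        Complex.exp (((m : ℂ) * Complex.I) * x) := by
      intro x
      congr 1
      push_cast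
      ring
    simp_rw [h1]
    rw [integral_exp_mul_complex hc]
    have h2 : Complex.exp ((m : ℂ) * Complex.I * ((x₀ + 2 * Real.pi : ℝ) : ℂ)) =
        Complex.exp ((m : ℂ) * Complex.I * (x₀ : ℂ)) := by
      rw [Complex.exp_eq_exp_iff_exists_int]
      refine ⟨m, ?_⟩
      push_cast
      ring
    rw [h2, sub_self, zero_div]

/-- Parseval -/
theorem parseval (U : Finset ℤ) (a : ℤ → ℂ) (x₀ : ℝ) :
    ∫ x in x₀..(x₀ + 2 * Real.pi), ‖ES U a x‖ ^ 2 = 2 * Real.pi * ∑ u ∈ U, ‖a u‖ ^ 2 := by
  have h1 : ∀ x : ℝ, ((‖ES U a x‖ ^ 2 : ℝ) : ℂ) = ∑ u ∈ U, ∑ v ∈ U,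
      (a u * (starRingEnd ℂ) (a v)) * Complex.exp (((((u - v : ℤ) : ℝ) * x : ℝ) : ℂ) * Complex.I) := by
    intro x
    rw [Complex.sq_norm, Complex.normSq_eq_conj_mul_self]
    unfold ES
    rw [map_sum, mul_comm, sum_mul_sum]
    apply sum_congr rfl
    intro u _
    apply sum_congr rfl
    intro v _
    rw [map_mul, ← Complex.exp_conj]
    have e : ∀ p q r s : ℂ, p * q * (r * s) = (p * r) * (q * s) := fun p q r s => by ring
    rw [e, ← Complex.exp_add]
    congr 2
    rw [map_mul, Complex.conj_ofReal, Complex.conj_I]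
    push_cast
    ring
  have h2 : ((∫ x in x₀..(x₀ + 2 * Real.pi), ‖ES U a x‖ ^ 2 : ℝ) : ℂ) =
      ((2 * Real.pi * ∑ u ∈ U, ‖a u‖ ^ 2 : ℝ) : ℂ) := by
    rw [← intervalIntegral.integral_ofReal]
    simp_rw [h1]
    rw [intervalIntegral.integral_finsetSum]
    · have h3 : ∀ u ∈ U, ∫ x in x₀..(x₀ + 2 * Real.pi), ∑ v ∈ U,
          (a u * (starRingEnd ℂ) (a v)) * Complex.exp (((((u - v : ℤ) : ℝ) * x : ℝ) : ℂ) * Complex.I) =
          2 * (Real.pi : ℂ) * ((‖a u‖ ^ 2 : ℝ) : ℂ) := by
        intro u hu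
        rw [intervalIntegral.integral_finsetSum]
        · simp_rw [intervalIntegral.integral_const_mul, orth]
          rw [sum_eq_single u]
          · rw [if_pos (sub_self u), Complex.mul_conj, Complex.normSq_eq_norm_sq]
            ring
          · intro v _ hv
            rw [if_neg (fun h => hv (by linarith [sub_eq_zero.1 h])), mul_zero]
          · intro h
            exact absurd hu h
        · intro v _
          apply Continuous.intervalIntegrable
          fun_prop
      rw [sum_congr rfl h3, ← mul_sum]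
      push_cast
      rfl
    · intro u _
      apply Continuous.intervalIntegrable
      fun_prop
  exact_mod_cast h2

/-- one-sided Gallagher inequality on an interval -/
theorem gallagher {f f' : ℝ → ℂ} {a c M : ℝ} (hac : a < c) (hM : 0 < M)
    (hf : ∀ t, HasDerivAt f (f' t) t) (hf' : Continuous f') :
    ‖f a‖ ^ 2 ≤ ∫ t in a..c, ((1 / (c - a) + M) * ‖f t‖ ^ 2 + ‖f' t‖ ^ 2 / M) := by
  have hfc : Continuous f := continuous_iff_continuousAt.2 fun t => (hf t).continuousAt
  set g : ℝ → ℝ := fun t => ‖f t‖ ^ 2 with hg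
  set h : ℝ → ℝ := fun t => M * ‖f t‖ ^ 2 + ‖f' t‖ ^ 2 / M with hh
  have hgc : Continuous g := by fun_prop
  have hhc : Continuous h := by
    simp only [hh]
    fun_prop
  have hder : ∀ t, HasDerivAt g (2 * inner ℝ (f t) (f' t)) t := fun t => (hf t).norm_sq
  have hdc : Continuous fun t => 2 * inner ℝ (f t) (f' t) := by
    exact continuous_const.mul (hfc.inner hf')
  have hh0 : ∀ t, 0 ≤ h t := fun t => by simp only [hh]; positivity
  have hdle : ∀ t, -(2 * inner ℝ (f t) (f' t)) ≤ h t := by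
    intro t
    have h1 := abs_real_inner_le_norm (f t) (f' t)
    have h2 := (abs_le.1 h1).1
    simp only [hh]
    have h3 : 2 * (‖f t‖ * ‖f' t‖) ≤ M * ‖f t‖ ^ 2 + ‖f' t‖ ^ 2 / M := by
      have e : M * ‖f t‖ ^ 2 + ‖f' t‖ ^ 2 / M - 2 * (‖f t‖ * ‖f' t‖) =
          (M * ‖f t‖ - ‖f' t‖) ^ 2 / M := by
        field_simp
        ring
      have e2 : 0 ≤ (M * ‖f t‖ - ‖f' t‖) ^ 2 / M := by positivity
      linarith
    linarith
  have hcmp : ∀ y ∈ Set.Icc a c, g a ≤ g y + ∫ t in a..c, h t := by
    intro y hy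
    have h1 : ∫ t in a..y, 2 * inner ℝ (f t) (f' t) = g y - g a :=
      intervalIntegral.integral_eq_sub_of_hasDerivAt (fun t _ => hder t)
        (hdc.intervalIntegrable _ _)
    have h2 : g a - g y ≤ ∫ t in a..y, h t := by
      rw [← neg_sub, ← h1, ← intervalIntegral.integral_neg]
      refine intervalIntegral.integral_mono_on hy.1 (hdc.neg.intervalIntegrable _ _)
        (hhc.intervalIntegrable _ _) fun t _ => hdle t
    have h3 : ∫ t in a..y, h t ≤ ∫ t in a..c, h t := by
      refine intervalIntegral.integral_mono_interval le_rfl hy.1 hy.2 ?_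
        (hhc.intervalIntegrable _ _)
      exact Filter.Eventually.of_forall fun t => hh0 t
    linarith
  have hint : (c - a) * g a ≤ ∫ y in a..c, (g y + ∫ t in a..c, h t) := by
    have h1 : ∫ y in a..c, g a = (c - a) * g a := by simp
    rw [← h1]
    refine intervalIntegral.integral_mono_on hac.le
      (continuous_const.intervalIntegrable _ _) ?_ hcmp
    exact (hgc.add continuous_const).intervalIntegrable _ _
  rw [intervalIntegral.integral_add (hgc.intervalIntegrable _ _)
    (continuous_const.intervalIntegrable _ _)] at hint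
  simp only [intervalIntegral.integral_const, smul_eq_mul] at hint
  have hca : 0 < c - a := by linarith
  have h4 : g a ≤ 1 / (c - a) * (∫ y in a..c, g y) + ∫ t in a..c, h t := by
    have := div_le_div_of_nonneg_right hint hca.le
    rw [mul_div_cancel_left₀ _ hca.ne'] at this
    refine this.trans (le_of_eq ?_)
    field_simp
  refine h4.trans (le_of_eq ?_)
  rw [← intervalIntegral.integral_const_mul, ← intervalIntegral.integral_add]
  · apply intervalIntegral.integral_congr
    intro t _
    simp only [hg, hh]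
    ring
  · exact (continuous_const.mul hgc).intervalIntegrable _ _
  · exact hhc.intervalIntegrable _ _

/-- **The dual large sieve** for the points `log n`, `N ≤ n ≤ 2N`. -/
theorem dual_sieve (N : ℕ) (hN : 1 ≤ N) (L : ℝ) (U : Finset ℤ) (a : ℤ → ℂ)
    (hU : ∀ u ∈ U, |(u : ℝ)| ≤ L) :
    ∑ n ∈ Icc N (2 * N), ‖ES U a (Real.log n)‖ ^ 2 ≤
      2 * Real.pi * (2 * N + 1 + 2 * L) * ∑ u ∈ U, ‖a u‖ ^ 2 := by
  -- the case of no frequencies
  rcases U.eq_empty_or_nonempty with hU0 | ⟨u₀, hu₀⟩
  · subst hU0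
    simp [ES]
  have hL0 : 0 ≤ L := (abs_nonneg _).trans (hU u₀ hu₀)
  -- it is enough to prove the bound with `M` for every `M > L`
  suffices H : ∀ M : ℝ, L < M → ∑ n ∈ Icc N (2 * N), ‖ES U a (Real.log n)‖ ^ 2 ≤
      2 * Real.pi * (2 * N + 1 + 2 * M) * ∑ u ∈ U, ‖a u‖ ^ 2 by
    apply le_of_forall_pos_le_add
    intro ε hε
    set S := ∑ u ∈ U, ‖a u‖ ^ 2 with hS
    have hS0 : 0 ≤ S := sum_nonneg fun _ _ => by positivity
    have h1 := H (L + ε / (4 * Real.pi * (S + 1))) (by
      have : 0 < ε / (4 * Real.pi * (S + 1)) := by positivity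
      linarith)
    refine h1.trans ?_
    have h2 : 4 * Real.pi * (ε / (4 * Real.pi * (S + 1))) * S ≤ ε := by
      have : 4 * Real.pi * (ε / (4 * Real.pi * (S + 1))) * S = ε * (S / (S + 1)) := by
        field_simp
      rw [this]
      have h3 : S / (S + 1) ≤ 1 := by
        rw [div_le_one (by linarith)]
        linarith
      nlinarith
    nlinarith
  intro M hM
  have hM0 : 0 < M := by linarith
  set f := ES U a with hf
  set f' := ES U (fun u => a u * ((u : ℂ) * Complex.I)) with hf'
  have hfc : Continuous f := ES_cont _ _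
  have hf'c : Continuous f' := ES_cont _ _
  set F : ℝ → ℝ := fun t => (2 * N + 1 + M) * ‖f t‖ ^ 2 + ‖f' t‖ ^ 2 / M with hF
  have hFc : Continuous F := by
    simp only [hF]
    fun_prop
  have hF0 : ∀ t, 0 ≤ F t := fun t => by simp only [hF]; positivity
  have h1 : ∀ n ∈ Icc N (2 * N), ‖f (Real.log n)‖ ^ 2 ≤
      ∫ t in (Real.log n)..(Real.log (n + 1 : ℕ)), F t := by
    intro n hn
    rw [mem_Icc] at hn
    have hn0 : (0 : ℝ) < n := by
      have : 1 ≤ n := by omega
      exact_mod_cast this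
    have hlt : Real.log n < Real.log (n + 1 : ℕ) := by
      apply Real.log_lt_log hn0
      push_cast
      linarith
    refine (gallagher hlt hM0 (fun t => ES_deriv U a t) hf'c).trans ?_
    refine intervalIntegral.integral_mono_on hlt.le ?_ (hFc.intervalIntegrable _ _) fun t _ => ?_
    · apply Continuous.intervalIntegrable
      exact (continuous_const.mul (hfc.norm.pow 2)).add ((hf'c.norm.pow 2).div_const _)
    · simp only [hF]
      have hgap : 1 / (Real.log (n + 1 : ℕ) - Real.log n) ≤ 2 * N + 1 := by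
        have h5 : 1 / ((n : ℝ) + 1) ≤ Real.log (n + 1 : ℕ) - Real.log n := by
          have h6 := Real.log_le_sub_one_of_pos (x := (n : ℝ) / (n + 1)) (by positivity)
          rw [Real.log_div hn0.ne' (by positivity)] at h6
          push_cast
          have h7 : (n : ℝ) / (n + 1) - 1 = - (1 / ((n : ℝ) + 1)) := by
            field_simp
            ring
          linarith
        have h8 : (0 : ℝ) < 1 / ((n : ℝ) + 1) := by positivity
        rw [div_le_iff₀ (by linarith)]
        have h9 : (n : ℝ) ≤ 2 * N := by exact_mod_cast hn.2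
        calc (1 : ℝ) = ((n : ℝ) + 1) * (1 / ((n : ℝ) + 1)) := by field_simp
          _ ≤ (2 * N + 1) * (Real.log (n + 1 : ℕ) - Real.log n) := by
              gcongr
      gcongr
  have h2 : ∑ n ∈ Icc N (2 * N), ‖f (Real.log n)‖ ^ 2 ≤
      ∫ t in (Real.log N)..(Real.log (2 * N + 1 : ℕ)), F t := by
    refine (sum_le_sum h1).trans (le_of_eq ?_)
    have h3 := intervalIntegral.sum_integral_adjacent_intervals_Ico (f := F)
      (a := fun n : ℕ => Real.log n) (m := N) (n := 2 * N + 1) (μ := volume) (by omega)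
      (fun k _ => hFc.intervalIntegrable _ _)
    rw [← h3]
    apply sum_congr
    · ext n
      simp only [mem_Icc, mem_Ico]
      omega
    · intro n _
      rfl
  refine h2.trans ?_
  have hN0 : (0 : ℝ) < N := by exact_mod_cast hN
  have h3 : ∫ t in (Real.log N)..(Real.log (2 * N + 1 : ℕ)), F t ≤
      ∫ t in (Real.log N)..(Real.log N + 2 * Real.pi), F t := by
    refine intervalIntegral.integral_mono_interval le_rfl ?_ ?_ ?_ (hFc.intervalIntegrable _ _)
    · apply Real.log_le_log hN0
      push_cast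
      linarith
    · have h4 : Real.log (2 * N + 1 : ℕ) ≤ Real.log (3 * N) := by
        apply Real.log_le_log (by positivity)
        have : (1 : ℝ) ≤ N := by exact_mod_cast hN
        push_cast
        linarith
      have h5 : Real.log (3 * (N : ℝ)) = Real.log 3 + Real.log N :=
        Real.log_mul (by norm_num) hN0.ne'
      have h6 : Real.log 3 ≤ 2 := by
        have := Real.log_le_sub_one_of_pos (show (0 : ℝ) < 3 by norm_num)
        linarith
      have := Real.pi_gt_three
      linarith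
    · exact Filter.Eventually.of_forall fun t => hF0 t
  refine h3.trans ?_
  have h4 : ∫ t in (Real.log N)..(Real.log N + 2 * Real.pi), F t =
      (2 * N + 1 + M) * (2 * Real.pi * ∑ u ∈ U, ‖a u‖ ^ 2) +
        (2 * Real.pi * ∑ u ∈ U, ‖a u * ((u : ℂ) * Complex.I)‖ ^ 2) / M := by
    simp only [hF]
    rw [intervalIntegral.integral_add, intervalIntegral.integral_const_mul,
      intervalIntegral.integral_div, hf, hf', parseval, parseval]
    · apply Continuous.intervalIntegrable; fun_prop
    · apply Continuous.intervalIntegrable; fun_prop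
  rw [h4]
  have h5 : ∑ u ∈ U, ‖a u * ((u : ℂ) * Complex.I)‖ ^ 2 ≤ M ^ 2 * ∑ u ∈ U, ‖a u‖ ^ 2 := by
    rw [mul_sum]
    apply sum_le_sum
    intro u hu
    rw [norm_mul, norm_mul, Complex.norm_I, mul_one, Complex.norm_intCast, mul_pow]
    have h6 : |(u : ℝ)| ^ 2 ≤ M ^ 2 := by
      have := hU u hu
      have h7 := abs_nonneg (u : ℝ)
      nlinarith
    have h8 : 0 ≤ ‖a u‖ ^ 2 := by positivity
    nlinarith
  have h6 : (2 * Real.pi * ∑ u ∈ U, ‖a u * ((u : ℂ) * Complex.I)‖ ^ 2) / M ≤
      2 * Real.pi * M * ∑ u ∈ U, ‖a u‖ ^ 2 := by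
    rw [div_le_iff₀ hM0]
    have := Real.pi_pos
    calc 2 * Real.pi * ∑ u ∈ U, ‖a u * ((u : ℂ) * Complex.I)‖ ^ 2
        ≤ 2 * Real.pi * (M ^ 2 * ∑ u ∈ U, ‖a u‖ ^ 2) := by gcongr
      _ = _ := by ring
  calc _ ≤ (2 * N + 1 + M) * (2 * Real.pi * ∑ u ∈ U, ‖a u‖ ^ 2) +
        2 * Real.pi * M * ∑ u ∈ U, ‖a u‖ ^ 2 := by linarith
    _ = _ := by ring

end Pool.Agent.Helper95.LVT
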