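import Pool.Agent.Helper95.LVT.Energy

/-! # The size of the bound for the multiplicative energies -/

set_option autoImplicit false

namespace Pool.Agent.Helper95.LVT

open Finset

theorem step1 (β : ℝ) (h0 : 0 < β) (h1 : β < 1) (n : ℕ) (hn : 1 ≤ n) :
    (1 - β) * (n : ℝ) ^ (-β) ≤ (n : ℝ) ^ (1 - β) - ((n : ℝ) - 1) ^ (1 - β) := by
  have hn1 : (1 : ℝ) ≤ n := by exact_mod_cast hn
  have hn0 : (0 : ℝ) < n := by linarith
  have h2 : (-1 : ℝ) ≤ -(1 / (n : ℝ)) := by
    rw [neg_le_neg_iff, div_le_one hn0]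
    exact hn1
  have h3 := rpow_one_add_le_one_add_mul_self h2 (p := 1 - β) (by linarith) (by linarith)
  have h4 : ((n : ℝ) - 1) ^ (1 - β) = (n : ℝ) ^ (1 - β) * (1 + -(1 / (n : ℝ))) ^ (1 - β) := by
    rw [← Real.mul_rpow hn0.le (by linarith)]
    congr 1
    field_simp
    ring
  have h5 : (n : ℝ) ^ (-β) = (n : ℝ) ^ (1 - β) * (1 / n) := by
    rw [mul_one_div, ← Real.rpow_sub_one hn0.ne']
    congr 1
    ring
  rw [h4, h5]
  have h6 : 0 < (n : ℝ) ^ (1 - β) := by positivity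
  nlinarith

theorem sum1 (β : ℝ) (h0 : 0 < β) (h1 : β < 1) (m : ℕ) :
    ∑ n ∈ Icc 1 m, (n : ℝ) ^ (-β) ≤ (m : ℝ) ^ (1 - β) / (1 - β) := by
  have h2 : 0 < 1 - β := by linarith
  rw [le_div_iff₀ h2]
  induction m with
  | zero =>
    simp
    positivity
  | succ m ih =>
    rw [sum_Icc_succ_top (by omega), add_mul]
    have h3 := step1 β h0 h1 (m + 1) (by omega)
    push_cast at h3 ⊢
    rw [add_sub_cancel_right] at h3
    linarith

theorem step2 (γ : ℝ) (h1 : 1 < γ) (n : ℕ) (hn : 2 ≤ n) :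
    (γ - 1) * (n : ℝ) ^ (-γ) ≤ ((n : ℝ) - 1) ^ (1 - γ) - (n : ℝ) ^ (1 - γ) := by
  have hn1 : (2 : ℝ) ≤ n := by exact_mod_cast hn
  have hn0 : (0 : ℝ) < n := by linarith
  have hx : (1 : ℝ) / n ≤ 1 / 2 := by
    apply div_le_div_of_nonneg_left <;> linarith
  have hy : 0 < 1 - 1 / (n : ℝ) := by linarith
  have h3 : 1 + (γ - 1) * (1 / n) ≤ (1 - 1 / (n : ℝ)) ^ (1 - γ) := by
    rw [Real.rpow_def_of_pos hy]
    have h4 := Real.log_le_sub_one_of_pos hy
    have h5 := Real.add_one_le_exp (Real.log (1 - 1 / (n : ℝ)) * (1 - γ))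
    have h6 : (γ - 1) * (1 / (n : ℝ)) ≤ Real.log (1 - 1 / (n : ℝ)) * (1 - γ) := by nlinarith
    linarith
  have h4 : ((n : ℝ) - 1) ^ (1 - γ) = (n : ℝ) ^ (1 - γ) * (1 - 1 / (n : ℝ)) ^ (1 - γ) := by
    rw [← Real.mul_rpow hn0.le hy.le]
    congr 1
    field_simp
  have h5 : (n : ℝ) ^ (-γ) = (n : ℝ) ^ (1 - γ) * (1 / n) := by
    rw [mul_one_div, ← Real.rpow_sub_one hn0.ne']
    congr 1
    ring
  rw [h4, h5]
  have h6 : 0 < (n : ℝ) ^ (1 - γ) := by positivity
  nlinarith

theorem sum2 (γ : ℝ) (h1 : 1 < γ) (m M : ℕ) (hm : 1 ≤ m) :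
    ∑ n ∈ Icc (m + 1) M, (n : ℝ) ^ (-γ) ≤ (m : ℝ) ^ (1 - γ) / (γ - 1) := by
  have h2 : 0 < γ - 1 := by linarith
  rcases le_or_gt M m with h | h
  · rw [Icc_eq_empty (by omega), sum_empty]
    positivity
  rw [le_div_iff₀ h2]
  have key : ∀ K, m ≤ K → (∑ n ∈ Icc (m + 1) K, (n : ℝ) ^ (-γ)) * (γ - 1) ≤
      (m : ℝ) ^ (1 - γ) - (K : ℝ) ^ (1 - γ) := by
    intro K hK
    induction K, hK using Nat.le_induction with
    | base => simp
    | succ K hK ih =>
      rw [sum_Icc_succ_top (by omega), add_mul]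
      have h3 := step2 γ h1 (K + 1) (by omega)
      push_cast at h3 ⊢
      rw [add_sub_cancel_right] at h3
      linarith
  have := key M h.le
  have h3 : 0 ≤ (M : ℝ) ^ (1 - γ) := by positivity
  linarith

theorem inv_le_exp (x : ℝ) (h0 : 0 ≤ x) (h1 : x ≤ 3 / 4) : (1 - x)⁻¹ ≤ Real.exp (2 * x) := by
  -- `(1 - x) exp (2 x) ≥ (1 - x) (1 + 2 x + 2 x²) ≥ 1` for `x ≤ 1/√2`; `3/4` needs the cubic term
  have h2 : 1 + 2 * x + 2 * x ^ 2 + 4 / 3 * x ^ 3 ≤ Real.exp (2 * x) := by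
    have := Real.sum_le_exp_of_nonneg (x := 2 * x) (by linarith) 4
    simp only [sum_range_succ, sum_range_zero, Nat.factorial] at this
    norm_num at this
    nlinarith
  rw [inv_le_iff_one_le_mul₀ (by linarith)]
  have h3 : 1 ≤ (1 + 2 * x + 2 * x ^ 2 + 4 / 3 * x ^ 3) * (1 - x) := by
    have : (1 + 2 * x + 2 * x ^ 2 + 4 / 3 * x ^ 3) * (1 - x) - 1 =
      x * (1 - 2 / 3 * x ^ 2 - 4 / 3 * x ^ 3) := by ring
    have h5 : x ^ 2 ≤ 9 / 16 := by nlinarith
    have h6 : x ^ 3 ≤ 27 / 64 := by nlinarith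
    have h4 : 0 ≤ 1 - 2 / 3 * x ^ 2 - 4 / 3 * x ^ 3 := by nlinarith
    nlinarith
  calc (1 : ℝ) ≤ _ := h3
    _ ≤ _ := by
      apply mul_le_mul_of_nonneg_right h2 (by linarith)

theorem two_rpow_neg (α : ℝ) (hα : 1 / 2 < α) (p : ℕ) (hp : 2 ≤ p) : (p : ℝ) ^ (-α) ≤ 3 / 4 := by
  have h1 : (2 : ℝ) ≤ p := by exact_mod_cast hp
  calc (p : ℝ) ^ (-α) ≤ (2 : ℝ) ^ (-α) := by
        apply Real.rpow_le_rpow_of_nonpos (by norm_num) h1 (by linarith)
    _ ≤ (2 : ℝ) ^ (-(1 / 2) : ℝ) := by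
        apply Real.rpow_le_rpow_of_exponent_le (by norm_num) (by linarith)
    _ ≤ 3 / 4 := by
        rw [Real.rpow_neg (by norm_num), ← Real.sqrt_eq_rpow]
        rw [inv_le_comm₀ (by positivity) (by norm_num)]
        apply Real.le_sqrt_of_sq_le
        norm_num

/-- the number `⌊k ^ (1/α)⌋` -/
noncomputable def mm (α : ℝ) (k : ℕ) : ℕ := ⌊(k : ℝ) ^ (1 / α)⌋₊

theorem le_mm (α : ℝ) (hα : 0 < α) (k p : ℕ) (h : (p : ℝ) ^ α ≤ k) : p ≤ mm α k := by
  unfold mm
  rw [Nat.le_floor_iff (by positivity)]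
  calc (p : ℝ) = ((p : ℝ) ^ α) ^ (1 / α) := by
        rw [← Real.rpow_mul (Nat.cast_nonneg _), mul_one_div_cancel hα.ne', Real.rpow_one]
    _ ≤ _ := by gcongr

theorem mm_lt (α : ℝ) (hα : 0 < α) (k p : ℕ) (h : (k : ℝ) < (p : ℝ) ^ α) : mm α k < p := by
  unfold mm
  rw [Nat.floor_lt (by positivity)]
  calc (k : ℝ) ^ (1 / α) < ((p : ℝ) ^ α) ^ (1 / α) := by
        apply Real.rpow_lt_rpow (Nat.cast_nonneg _) h (by positivity)
    _ = _ := by
        rw [← Real.rpow_mul (Nat.cast_nonneg _), mul_one_div_cancel hα.ne', Real.rpow_one]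

theorem AA_le (α : ℝ) (hα : 1 / 2 < α) (hα1 : α < 1) (k M : ℕ) :
    AA α k M ≤ Real.exp (2 * ((k : ℝ) ^ ((1 - α) / α) / (1 - α))) := by
  have hα0 : 0 < α := by linarith
  unfold AA
  calc ∏ p ∈ SP α k M, (1 - (p : ℝ) ^ (-α))⁻¹
      ≤ ∏ p ∈ SP α k M, Real.exp (2 * (p : ℝ) ^ (-α)) := by
        apply prod_le_prod
        · intro p hp
          unfold SP at hp
          rw [mem_filter] at hp
          have := two_rpow_neg α hα p hp.2.1.two_le
          rw [inv_nonneg]
          linarith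
        · intro p hp
          unfold SP at hp
          rw [mem_filter] at hp
          exact inv_le_exp _ (by positivity) (two_rpow_neg α hα p hp.2.1.two_le)
    _ = Real.exp (2 * ∑ p ∈ SP α k M, (p : ℝ) ^ (-α)) := by
        rw [← Real.exp_sum, mul_sum]
    _ ≤ _ := by
        apply Real.exp_le_exp.2
        gcongr
        calc ∑ p ∈ SP α k M, (p : ℝ) ^ (-α) ≤ ∑ n ∈ Icc 1 (mm α k), (n : ℝ) ^ (-α) := by
              apply sum_le_sum_of_subset_of_nonneg
              · intro p hp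
                unfold SP at hp
                rw [mem_filter] at hp
                rw [mem_Icc]
                exact ⟨hp.2.1.one_lt.le, le_mm α hα0 k p hp.2.2⟩
              · intro n _ _
                positivity
          _ ≤ ((mm α k : ℕ) : ℝ) ^ (1 - α) / (1 - α) := sum1 α hα0 hα1 _
          _ ≤ _ := by
              have h1 : 0 < 1 - α := by linarith
              have h2 : ((mm α k : ℕ) : ℝ) ≤ (k : ℝ) ^ (1 / α) := by
                unfold mm
                exact Nat.floor_le (by positivity)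
              gcongr
              calc ((mm α k : ℕ) : ℝ) ^ (1 - α) ≤ ((k : ℝ) ^ (1 / α)) ^ (1 - α) := by gcongr
                _ = _ := by
                  rw [← Real.rpow_mul (Nat.cast_nonneg _)]
                  congr 1
                  ring

/-- the completely multiplicative function `h(n) n ^ (-2α)` -/
noncomputable def FF (α : ℝ) (k : ℕ) : ℕ →* ℝ where
  toFun n := if n = 0 then 0 else hh α k n * (n : ℝ) ^ (-(2 * α))
  map_one' := by simp [hh_one]
  map_mul' m n := by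
    rcases eq_or_ne m 0 with rfl | hm
    · simp
    rcases eq_or_ne n 0 with rfl | hn
    · simp
    rw [if_neg hm, if_neg hn, if_neg (mul_ne_zero hm hn), hh_mul α k hm hn]
    push_cast
    rw [Real.mul_rpow (Nat.cast_nonneg _) (Nat.cast_nonneg _)]
    ring

theorem FF_apply (α : ℝ) (k n : ℕ) (hn : n ≠ 0) : FF α k n = hh α k n * (n : ℝ) ^ (-(2 * α)) := by
  show (if n = 0 then (0 : ℝ) else hh α k n * (n : ℝ) ^ (-(2 * α))) = _
  rw [if_neg hn]

theorem FF_nonneg (α : ℝ) (k n : ℕ) : 0 ≤ FF α k n := by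
  show 0 ≤ (if n = 0 then (0 : ℝ) else hh α k n * (n : ℝ) ^ (-(2 * α)))
  split_ifs
  · exact le_rfl
  · have := hh_nonneg α k n
    positivity

theorem FF_prime (α : ℝ) (k : ℕ) {p : ℕ} (hp : p.Prime) :
    FF α k p ≤ (p : ℝ) ^ (-α) ∧ ((k : ℝ) < (p : ℝ) ^ α → FF α k p = k * (p : ℝ) ^ (-(2 * α))) := by
  have hp0 : (0 : ℝ) < p := by exact_mod_cast hp.pos
  rw [FF_apply α k p hp.ne_zero, hh_prime α k hp]
  have h1 : (p : ℝ) ^ (-α) = (p : ℝ) ^ α * (p : ℝ) ^ (-(2 * α)) := by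
    rw [← Real.rpow_add hp0]
    congr 1
    ring
  constructor
  · rw [h1]
    unfold hw
    split_ifs with h
    · exact le_rfl
    · push Not at h
      gcongr
  · intro h
    unfold hw
    rw [if_neg (not_le.2 h)]

theorem sum_hh_le (α : ℝ) (hα : 1 / 2 < α) (hα1 : α < 1) (k M : ℕ) (hk : 1 ≤ k) :
    ∑ n ∈ Icc 1 M, hh α k n ≤ (M : ℝ) ^ (2 * α) *
      Real.exp (2 * ((k : ℝ) ^ ((1 - α) / α) * (1 / (1 - α) + 2 / (2 * α - 1)))) := by
  classical
  have hα0 : 0 < α := by linarith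
  -- Euler product
  have hlt : ∀ {p : ℕ}, p.Prime → ‖FF α k p‖ < 1 := by
    intro p hp
    rw [Real.norm_of_nonneg (FF_nonneg α k p)]
    have := (FF_prime α k hp).1
    have := two_rpow_neg α hα p hp.two_le
    linarith
  obtain ⟨_, h2⟩ := EulerProduct.summable_and_hasSum_factoredNumbers_prod_filter_prime_geometric
    (f := FF α k) hlt (range (M + 1))
  set Q := (range (M + 1)).filter Nat.Prime with hQ
  have hmem : ∀ n ∈ Icc 1 M, n ∈ Nat.factoredNumbers (range (M + 1)) := by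
    intro n hn
    rw [mem_Icc] at hn
    rw [Nat.mem_factoredNumbers]
    refine ⟨by omega, fun p hp => ?_⟩
    have h3 := Nat.le_of_dvd (by omega) (Nat.dvd_of_mem_primeFactorsList hp)
    rw [mem_range]
    omega
  have h3 : ∑ n ∈ Icc 1 M, FF α k n ≤ ∏ p ∈ Q, (1 - FF α k p)⁻¹ := by
    have h4 := sum_le_hasSum ((Icc 1 M).subtype (fun d => d ∈ Nat.factoredNumbers (range (M + 1))))
      (fun i _ => FF_nonneg α k i) h2
    have h5 := sum_subtype_of_mem (f := fun d => FF α k d) hmem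
    rw [← h5]
    exact h4
  have h4 : ∏ p ∈ Q, (1 - FF α k p)⁻¹ ≤ Real.exp (2 * ∑ p ∈ Q, FF α k p) := by
    rw [mul_sum, Real.exp_sum]
    apply prod_le_prod
    · intro p hp
      rw [hQ, mem_filter] at hp
      have := (FF_prime α k hp.2).1
      have := two_rpow_neg α hα p hp.2.two_le
      rw [inv_nonneg]
      linarith
    · intro p hp
      rw [hQ, mem_filter] at hp
      have h5 := (FF_prime α k hp.2).1
      have h6 := two_rpow_neg α hα p hp.2.two_le
      exact inv_le_exp _ (FF_nonneg α k p) (h5.trans h6)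
  set m := mm α k with hm
  have hk1 : (1 : ℝ) ≤ k := by exact_mod_cast hk
  have hP1 : 1 ≤ (k : ℝ) ^ (1 / α) := Real.one_le_rpow hk1 (by positivity)
  have hm1 : 1 ≤ m := by
    rw [hm]
    unfold mm
    exact Nat.le_floor (by simpa using hP1)
  have hmP : (m : ℝ) ≤ (k : ℝ) ^ (1 / α) := by
    rw [hm]
    unfold mm
    exact Nat.floor_le (by positivity)
  have hmP2 : (k : ℝ) ^ (1 / α) / 2 ≤ m := by
    have h7 : (k : ℝ) ^ (1 / α) < m + 1 := by
      rw [hm]
      unfold mm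
      exact Nat.lt_floor_add_one _
    have : (1 : ℝ) ≤ m := by exact_mod_cast hm1
    linarith
  have h5 : ∑ p ∈ Q, FF α k p ≤ (k : ℝ) ^ ((1 - α) / α) * (1 / (1 - α) + 2 / (2 * α - 1)) := by
    have h6 : ∑ p ∈ Q, FF α k p ≤ ∑ n ∈ Icc 1 m, (n : ℝ) ^ (-α) +
        ∑ n ∈ Icc (m + 1) (max M m), (k : ℝ) * (n : ℝ) ^ (-(2 * α)) := by
      rw [← sum_filter_add_sum_filter_not Q (fun p => p ≤ m)]
      apply add_le_add
      · calc ∑ p ∈ Q.filter (fun p => p ≤ m), FF α k p
            ≤ ∑ p ∈ Q.filter (fun p => p ≤ m), (p : ℝ) ^ (-α) := by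
              apply sum_le_sum
              intro p hp
              rw [mem_filter, hQ, mem_filter] at hp
              exact (FF_prime α k hp.1.2).1
          _ ≤ _ := by
              apply sum_le_sum_of_subset_of_nonneg
              · intro p hp
                rw [mem_filter, hQ, mem_filter] at hp
                rw [mem_Icc]
                exact ⟨hp.1.2.one_lt.le, hp.2⟩
              · intro n _ _
                positivity
      · calc ∑ p ∈ Q.filter (fun p => ¬ p ≤ m), FF α k p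
            = ∑ p ∈ Q.filter (fun p => ¬ p ≤ m), (k : ℝ) * (p : ℝ) ^ (-(2 * α)) := by
              apply sum_congr rfl
              intro p hp
              rw [mem_filter, hQ, mem_filter] at hp
              apply (FF_prime α k hp.1.2).2
              by_contra hcon
              push Not at hcon
              exact hp.2 (le_mm α hα0 k p hcon)
          _ ≤ _ := by
              apply sum_le_sum_of_subset_of_nonneg
              · intro p hp
                rw [mem_filter, hQ, mem_filter, mem_range] at hp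
                rw [mem_Icc]
                omega
              · intro n _ _
                positivity
    have h7 := sum1 α hα0 hα1 m
    have h8 := sum2 (2 * α) (by linarith) m (max M m) hm1
    rw [← mul_sum] at h6
    have h9 : (m : ℝ) ^ (1 - α) ≤ (k : ℝ) ^ ((1 - α) / α) := by
      calc (m : ℝ) ^ (1 - α) ≤ ((k : ℝ) ^ (1 / α)) ^ (1 - α) := by
            have : 0 ≤ 1 - α := by linarith
            gcongr
        _ = _ := by
            rw [← Real.rpow_mul (Nat.cast_nonneg _)]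
            congr 1
            ring
    have h10 : (k : ℝ) * (m : ℝ) ^ (1 - 2 * α) ≤ 2 * (k : ℝ) ^ ((1 - α) / α) := by
      have h11 : (m : ℝ) ^ (1 - 2 * α) ≤ ((k : ℝ) ^ (1 / α) / 2) ^ (1 - 2 * α) :=
        Real.rpow_le_rpow_of_nonpos (by positivity) hmP2 (by linarith)
      have h12 : ((k : ℝ) ^ (1 / α) / 2) ^ (1 - 2 * α) =
          (k : ℝ) ^ ((1 - 2 * α) / α) * (2 : ℝ) ^ (2 * α - 1) := by
        rw [Real.div_rpow (by positivity) (by norm_num), ← Real.rpow_mul (Nat.cast_nonneg _),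
          div_eq_mul_inv, ← Real.rpow_neg (by norm_num)]
        congr 2 <;> ring
      have h13 : (2 : ℝ) ^ (2 * α - 1) ≤ 2 := by
        calc (2 : ℝ) ^ (2 * α - 1) ≤ (2 : ℝ) ^ (1 : ℝ) :=
              Real.rpow_le_rpow_of_exponent_le (by norm_num) (by linarith)
          _ = 2 := Real.rpow_one _
      have hk0 : (0 : ℝ) < k := by linarith
      have h14 : (k : ℝ) * (k : ℝ) ^ ((1 - 2 * α) / α) = (k : ℝ) ^ ((1 - α) / α) := by
        rw [← Real.rpow_one_add' (by positivity)]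
        · congr 1
          field_simp
          ring
        · have : 1 + (1 - 2 * α) / α = (1 - α) / α := by
            field_simp
            ring
          rw [this]
          have : 0 < (1 - α) / α := by
            apply div_pos <;> linarith
          exact this.ne'
      calc (k : ℝ) * (m : ℝ) ^ (1 - 2 * α)
          ≤ k * ((k : ℝ) ^ ((1 - 2 * α) / α) * (2 : ℝ) ^ (2 * α - 1)) := by
            rw [← h12]
            gcongr
        _ = (k : ℝ) ^ ((1 - α) / α) * (2 : ℝ) ^ (2 * α - 1) := by rw [← h14]; ring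
        _ ≤ (k : ℝ) ^ ((1 - α) / α) * 2 := by gcongr
        _ = _ := by ring
    have ha : 0 < 1 - α := by linarith
    have hb : 0 < 2 * α - 1 := by linarith
    calc ∑ p ∈ Q, FF α k p ≤ _ := h6
      _ ≤ (m : ℝ) ^ (1 - α) / (1 - α) + k * ((m : ℝ) ^ (1 - 2 * α) / (2 * α - 1)) := by gcongr
      _ = (m : ℝ) ^ (1 - α) / (1 - α) + (k * (m : ℝ) ^ (1 - 2 * α)) / (2 * α - 1) := by ring
      _ ≤ (k : ℝ) ^ ((1 - α) / α) / (1 - α) + 2 * (k : ℝ) ^ ((1 - α) / α) / (2 * α - 1) := by gcongr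
      _ = _ := by ring
  calc ∑ n ∈ Icc 1 M, hh α k n ≤ ∑ n ∈ Icc 1 M, (M : ℝ) ^ (2 * α) * FF α k n := by
        apply sum_le_sum
        intro n hn
        rw [mem_Icc] at hn
        have hn0 : (0 : ℝ) < n := by exact_mod_cast hn.1
        rw [FF_apply α k n (by omega)]
        have h6 : 1 ≤ (M : ℝ) ^ (2 * α) * (n : ℝ) ^ (-(2 * α)) := by
          rw [Real.rpow_neg hn0.le, ← div_eq_mul_inv, one_le_div (by positivity)]
          have : (n : ℝ) ≤ M := by exact_mod_cast hn.2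
          gcongr
        calc hh α k n = hh α k n * 1 := by ring
          _ ≤ hh α k n * ((M : ℝ) ^ (2 * α) * (n : ℝ) ^ (-(2 * α))) := by
              apply mul_le_mul_of_nonneg_left h6 (hh_nonneg α k n)
          _ = _ := by ring
    _ = (M : ℝ) ^ (2 * α) * ∑ n ∈ Icc 1 M, FF α k n := by rw [mul_sum]
    _ ≤ (M : ℝ) ^ (2 * α) * Real.exp (2 * ∑ p ∈ Q, FF α k p) := by
        gcongr
        exact h3.trans h4
    _ ≤ _ := by gcongr

/-- **The multiplicative energies of high order.** -/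
theorem energy_bound (α : ℝ) (hα : 1 / 2 < α) (hα1 : α < 1) : ∃ C : ℝ, 0 < C ∧
    ∀ (k M : ℕ) (S : Finset ℕ), 1 ≤ k →
      ∑ m ∈ S, (rk k M m : ℝ) ^ 2 ≤ (M : ℝ) ^ (2 * α * k) * Real.exp (C * (k : ℝ) ^ (1 / α)) := by
  have hα0 : 0 < α := by linarith
  have ha : 0 < 1 - α := by linarith
  have hb : 0 < 2 * α - 1 := by linarith
  refine ⟨2 * (1 / (1 - α)) + 2 * (1 / (1 - α) + 2 / (2 * α - 1)), by positivity, ?_⟩
  intro k M S hk
  have h1 := energy_le α hα0 k M S
  have h2 := AA_le α hα hα1 k M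
  have h3 := sum_hh_le α hα hα1 k M hk
  have h4 : 0 ≤ ∑ n ∈ Icc 1 M, hh α k n := sum_nonneg fun n _ => hh_nonneg α k n
  have h5 := AA_ge_one α hα0 k M
  set X := (k : ℝ) ^ ((1 - α) / α) with hX
  have hk0 : (0 : ℝ) < k := by exact_mod_cast hk
  calc ∑ m ∈ S, (rk k M m : ℝ) ^ 2 ≤ _ := h1
    _ ≤ (Real.exp (2 * (X / (1 - α))) * ((M : ℝ) ^ (2 * α) *
          Real.exp (2 * (X * (1 / (1 - α) + 2 / (2 * α - 1)))))) ^ k := by gcongr
    _ = (M : ℝ) ^ (2 * α * k) *
        Real.exp ((2 * (1 / (1 - α)) + 2 * (1 / (1 - α) + 2 / (2 * α - 1))) * (k : ℝ) ^ (1 / α)) := by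
        have h6 : (k : ℝ) ^ (1 / α) = k * X := by
          rw [hX, ← Real.rpow_one_add' hk0.le]
          · congr 1
            field_simp
            ring
          · have : 0 < (1 - α) / α := div_pos ha hα0
            linarith
        have h7 : (M : ℝ) ^ (2 * α * k) = ((M : ℝ) ^ (2 * α)) ^ k := by
          rw [← Real.rpow_natCast, ← Real.rpow_mul (Nat.cast_nonneg _)]
        rw [h6, h7, mul_pow, mul_pow, ← Real.exp_nat_mul, ← Real.exp_nat_mul]
        rw [mul_left_comm, ← Real.exp_add]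
        congr 2
        ring

end Pool.Agent.Helper95.LVT
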